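import Mathlib
import Pool.Agent.Helper51.VB.Defs

/-!
# Block IZ-FIX: fixing some of the variables

`oj_fix`. `harm`: for `c : Fin g → KPt D K` apply `h.harm` to `Fin.append c c₀`, `c₀ j` the constant point
`{p := .cst (p₀ j).1, x := algebraMap (p₀ j).2.1, y := algebraMap (p₀ j).2.2}` (nice, on the curve; `BP.ev` of a constant is
`algebraMap (rs P f)`, `D.a₀ P = rs P D.al`). Its value at every place is `p₀ j` (`isRes_const`); use `Fin.addCases` for the index.
`odd`, `alt`: `h.odd`, `h.alt` for the index `Fin.castAdd r i` (`Fin.append_update`-like lemmas, or `funext` and `Fin.addCases`).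
-/

set_option linter.unusedSectionVars false

namespace Pool.Agent.Helper51.IZ

open VC VF Function
open Pool.Agent.Helper51.VB (rs BP Ell OJ KPt)
open Pool.Agent.Helper51.VN (Harm OnE)

universe u

variable {k L : Type u} [Field k] [IsAlgClosed k] [CharZero k] [Field L] [Algebra k L]
  {D : Ell k L} {g r : ℕ}

private theorem app_ne97 (i : Fin g) (j : Fin r) : Fin.natAdd g j ≠ Fin.castAdd r i := by
  intro h
  have h1 := congrArg Fin.val h
  rw [Fin.val_natAdd, Fin.val_castAdd] at h1
  have := i.2
  omega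

private theorem app_cond97 {p : Fin g → Place k L × k × k} {p₀ : Fin r → Place k L × k × k}
    (hp : ∀ j, D.Nice (p j).1 ∧ OnE (D.a₀ (p j).1) (D.b₀ (p j).1) (p j).2.1 (p j).2.2)
    (hp₀ : ∀ i, D.Nice (p₀ i).1 ∧ OnE (D.a₀ (p₀ i).1) (D.b₀ (p₀ i).1) (p₀ i).2.1 (p₀ i).2.2)
    (j : Fin (g + r)) : D.Nice (Fin.append p p₀ j).1 ∧ OnE (D.a₀ (Fin.append p p₀ j).1)
      (D.b₀ (Fin.append p p₀ j).1) (Fin.append p p₀ j).2.1 (Fin.append p p₀ j).2.2 := by
  refine Fin.addCases (fun l => ?_) (fun l => ?_) j
  · rw [Fin.append_left]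
    exact hp l
  · rw [Fin.append_right]
    exact hp₀ l

/-- the constant point -/
private noncomputable def cc97 (D : Ell k L) (K : Type u) [Field K] [Algebra k K]
    (q : Place k L × k × k) (hq : D.Nice q.1 ∧ OnE (D.a₀ q.1) (D.b₀ q.1) q.2.1 q.2.2) : KPt D K where
  p := .cst q.1
  x := algebraMap k K q.2.1
  y := algebraMap k K q.2.2
  nc := by
    intro P hP
    have h1 : q.1 = P := by
      injection hP
    rw [← h1]
    exact hq.1
  hE := by
    have h1 := congrArg (algebraMap k K) hq.2
    unfold OnE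
    change (algebraMap k K q.2.2) ^ 2 = (algebraMap k K q.2.1) ^ 3 -
      3 * algebraMap k K (rs q.1 D.al) * algebraMap k K q.2.1 - 2 * algebraMap k K (rs q.1 D.be)
    simp only [map_pow, map_sub, map_mul, map_ofNat] at h1
    exact h1

theorem oj_fix {Ψ : (Fin (g + r) → Place k L × k × k) → k} (h : OJ D (g + r) Ψ)
    (p₀ : Fin r → Place k L × k × k)
    (hp₀ : ∀ i, D.Nice (p₀ i).1 ∧ OnE (D.a₀ (p₀ i).1) (D.b₀ (p₀ i).1) (p₀ i).2.1 (p₀ i).2.2) :
    OJ D g (fun p => Ψ (Fin.append p p₀)) := by
  refine ⟨?_, ?_, ?_⟩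
  · intro K _ _ hK c
    obtain ⟨F, hF, hval, hzero⟩ := h.harm K hK (Fin.append c (fun j => cc97 D K (p₀ j) (hp₀ j)))
    refine ⟨F, hF, ?_, ?_⟩
    · intro w p hp
      refine hval w (Fin.append p p₀) fun i => ?_
      refine Fin.addCases (fun l => ?_) (fun l => ?_) i
      · rw [Fin.append_left, Fin.append_left]
        exact hp l
      · rw [Fin.append_right, Fin.append_right]
        exact ⟨(hp₀ l).1, rfl, isRes_const _, isRes_const _⟩
    · intro w i hi
      refine hzero w (Fin.castAdd r i) ?_
      rw [Fin.append_left]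
      exact hi
  · intro p i hp
    have h1 := h.odd (Fin.append p p₀) (Fin.castAdd r i) (app_cond97 hp hp₀)
    rw [Fin.append_left] at h1
    rw [← h1]
    congr 1
    funext l
    refine Fin.addCases (fun l' => ?_) (fun l' => ?_) l
    · rw [Fin.append_left]
      by_cases hl : l' = i
      · rw [hl, update_self, update_self]
      · rw [update_of_ne hl, update_of_ne, Fin.append_left]
        intro h2
        exact hl (Fin.castAdd_injective g r h2)
    · rw [Fin.append_right, update_of_ne (app_ne97 i l'), Fin.append_right]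
  · intro i j hij p hp
    have h1 := h.alt (Fin.castAdd r i) (Fin.castAdd r j)
      (fun h2 => hij (Fin.castAdd_injective g r h2)) (Fin.append p p₀) (app_cond97 hp hp₀)
    rw [← h1]
    congr 1
    funext l
    refine Fin.addCases (fun l' => ?_) (fun l' => ?_) l
    · have h3 : Equiv.swap (Fin.castAdd r i) (Fin.castAdd r j) (Fin.castAdd r l') =
          Fin.castAdd r (Equiv.swap i j l') := by
        have hinj : ∀ a b : Fin g, Fin.castAdd r a = Fin.castAdd r b ↔ a = b := fun a b =>
          (Fin.castAdd_injective g r).eq_iff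
        by_cases h4 : l' = i
        · rw [h4, Equiv.swap_apply_left, Equiv.swap_apply_left]
        · by_cases h5 : l' = j
          · rw [h5, Equiv.swap_apply_right, Equiv.swap_apply_right]
          · rw [Equiv.swap_apply_of_ne_of_ne h4 h5, Equiv.swap_apply_of_ne_of_ne
              (fun h6 => h4 ((hinj _ _).1 h6)) (fun h6 => h5 ((hinj _ _).1 h6))]
      rw [Fin.append_left, h3, Fin.append_left]
    · rw [Fin.append_right, Equiv.swap_apply_of_ne_of_ne (app_ne97 i l') (app_ne97 j l'),
        Fin.append_right]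

end Pool.Agent.Helper51.IZ
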