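import Mathlib
import Pool.Agent.Helper51.IS.Sym
import Pool.Agent.Helper17.FF.PicDiv

/-!
# Elliptic surfaces with smooth isotrivial Jacobian fibration: definitions

Project IZ: the theorem of projects VB and IS if the degree of `E` is zero. Then the `j`-invariant is
constant, the curve is the twist of a constant elliptic curve by `f ^ (1 / m)`, and `div f = - m E`. We
show that functionals of class `OJ` in `n ≥ g` variables vanish, if the divisor `E` is not principal.

`k` is algebraically closed of characteristic zero, `L` the function field of the base, `Ω` an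
algebraically closed field which contains `k`, `M` the function field `L Ω` over `Ω`
(`FF.IsConstExt k Ω L M`, see Helper17/FF). `FF.ab P` is the place of `M` over the place `P` of `L`,
`FF.Gen Q φ` says that `Q` is the place given by the embedding `φ : L → Ω`. `FF.dv` is the divisor of a
function, `FF.deg` the degree, `FF.ell` the dimension of the Riemann-Roch space.
-/

set_option linter.unusedSectionVars false

namespace Pool.Agent.Helper51.IZ

open VC VF Function
open Pool.Agent.Helper51.VB (rs)

universe u

/-- The value of a function at a divisor. -/
noncomputable def vl {k L : Type u} [Field k] [Field L] [Algebra k L] (f : L)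
    (A : Place k L →₀ ℤ) : k := A.prod fun P m => rs P f ^ m

/-- The residue field of the place is `k`. -/
def Full {k Ω : Type u} [Field k] [Field Ω] [Algebra k Ω] (W : Place k Ω) : Prop :=
  ∀ x ∈ W.ring, ∃ c : k, IsRes W x c

/-- `P` is the restriction to `L` of the composition of the place `Q` of `M` over `Ω` and of the place
`W` of `Ω` over `k`. -/
def Rd {k Ω L M : Type u} [Field k] [Field Ω] [Field L] [Field M] [Algebra k Ω] [Algebra k L]
    [Algebra Ω M] [Algebra L M] (W : Place k Ω) (Q : Place Ω M) (P : Place k L) : Prop :=
  ∀ (f : L) (c : k), IsRes P f c → ∃ y : Ω, IsRes Q (algebraMap L M f) y ∧ IsRes W y c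

/-- The values `T j`, `i ≤ j`, are general for the divisors in `Δ`. -/
def Gnr {k L : Type u} [Field k] [Field L] [Algebra k L] {g : ℕ} (Δ : Finset (Place k L →₀ ℤ)) (i : ℕ)
    (T : Fin g → Place k L) : Prop :=
  ∀ X ∈ Δ, FF.ell (X + ∑ j ∈ Finset.univ.filter (fun j : Fin g => i ≤ j), Finsupp.single (T j) 1) = 0

end Pool.Agent.Helper51.IZ
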