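import Mathlib
import Pool.Agent.Helper51.IZ.Defs
import Pool.Agent.Helper26.VC.Main4

/-!
# Block IZ-CNJ: the conjugates

`VC.exists_cover hK q hq` gives `K₁` (with `Algebra K K₁`), Galois over `k (q)`, with group `Γ`. The set of the
`φ : K →ₐ[k] K₁` with `φ q = algebraMap K K₁ q =: q₁` is finite (see `VB.card_conj`, Helper51/VB/Cnj.lean, and
`VB.exists_pen`, Helper51/VB/Pen.lean), let `ι : Fin N → ..` be an enumeration. For a place `w` of `K₁` with
`q₁` a nonunit at `w` and a zero `Q` of `q` the number of the `φ` with `Place.comap φ w = Q` is `ord_Q q > 0`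
(`VC.card_cover`), and `VB.Over (Place.comap φ w) φ w` (`over_comap_23` in VB/Pen.lean). `0 < N` is clear
(`algebraMap`).
-/

set_option linter.unusedSectionVars false

namespace Pool.Agent.Helper51.IZ

open VC VF Function

universe u

variable {k K : Type u} [Field k] [IsAlgClosed k] [CharZero k] [Field K] [Algebra k K]

private lemma over_comapCnj {K₁ : Type u} [Field K₁] [Algebra k K₁] (hL : IsFunctionField k K)
    (hK : IsFunctionField k K₁) (φ : K →ₐ[k] K₁) (w : Place k K₁) :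
    VB.Over (Place.comap hL hK φ w) φ w := by
  intro f c h
  unfold IsRes at *
  change f - algebraMap k K c ∈ (w.ring.comap φ.toRingHom).nonunits at h
  rw [mem_nonunits_comap] at h
  change φ (f - algebraMap k K c) ∈ _ at h
  rwa [map_sub, AlgHom.commutes] at h

private lemma nonunit_of_isResCnj {v : Place k K} {x : K} (h : IsRes v x 0) : x ∈ v.ring.nonunits := by
  unfold IsRes at h
  rwa [map_zero, sub_zero] at h

theorem exists_cnj (hK : IsFunctionField k K) {q : K} (hq : Transcendental k q) :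
    ∃ (K₁ : Type u) (_ : Field K₁) (_ : Algebra k K₁) (_ : IsFunctionField k K₁) (N : ℕ)
      (ι : Fin N → (K →ₐ[k] K₁)) (q₁ : K₁), Transcendental k q₁ ∧ (∀ j, ι j q = q₁) ∧
      ∀ w : Place k K₁, IsRes w q₁ 0 → ∀ Q : Place k K, IsRes Q q 0 → ∃ j, VB.Over Q (ι j) w := by
  obtain ⟨K₁, _, _, _, _, hK₁, Γ, _, _, _, hΓ⟩ := exists_cover hK q hq
  have hΦ : Finite {φ : K →ₐ[k] K₁ // φ q = algebraMap K K₁ q} :=
    finite_homs q (hK.finiteDimensional hq)
  obtain ⟨N, ⟨e⟩⟩ := Finite.exists_equiv_fin {φ : K →ₐ[k] K₁ // φ q = algebraMap K K₁ q}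
  have hQt : Transcendental k (algebraMap K K₁ q) :=
    (transcendental_algebraMap_iff (algebraMap K K₁).injective).mpr hq
  have hq0 : q ≠ 0 := by
    intro h
    rw [h] at hq
    exact hq isAlgebraic_zero
  refine ⟨K₁, inferInstance, inferInstance, hK₁, N, fun j => (e.symm j).1, algebraMap K K₁ q, hQt,
    fun j => (e.symm j).2, ?_⟩
  intro w hw Q hQ
  have h3 := card_cover hK hK₁ q hq Γ hΓ w (nonunit_of_isResCnj hw) Q
  have h4 : 0 < ord Q.ring q := (ord_pos_iff hK Q hq0).mpr (nonunit_of_isResCnj hQ)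
  rw [max_eq_left h4.le] at h3
  have h5 : 0 < Nat.card {φ : K →ₐ[k] K₁ // φ q = algebraMap K K₁ q ∧
      Place.comap hK hK₁ φ w = Q} := by
    have h6 : (0 : ℤ) < (Nat.card {φ : K →ₐ[k] K₁ // φ q = algebraMap K K₁ q ∧
      Place.comap hK hK₁ φ w = Q} : ℤ) := by
      rw [h3]
      exact h4
    exact_mod_cast h6
  obtain ⟨⟨φ, hφ, hφ'⟩⟩ := (Nat.card_pos_iff.1 h5).1
  refine ⟨e ⟨φ, hφ⟩, ?_⟩
  change VB.Over Q (e.symm (e ⟨φ, hφ⟩)).1 w
  rw [e.symm_apply_apply, ← hφ']
  exact over_comapCnj hK hK₁ φ w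

end Pool.Agent.Helper51.IZ
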