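import Mathlib
import Pool.Agent.Helper51.IZ.Defs
import Pool.Agent.SC.PlaceExt
import Pool.Agent.Helper83.VF.Fields
import Pool.Agent.Helper83.VF.Res

/-!
# Block IZ-EXT: extension and restriction of places with residue field `k`

* `exists_full`: `w.ring` is a valuation ring of `K`; there is a valuation ring `V` of `Ω` with `V.comap = w.ring`
  (apply `Ideal.image_subset_nonunits_valuationSubring` to the image of `w.ring` in `Ω` and its maximal ideal,
  `V` dominates the image, and a valuation ring of `K` dominated by `V ∩ K` is equal to it; see also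
  `FF.exists_place_of_subring`, and `IsLocalRing.exists_factor_valuationRing`). Residue field: let `x ∈ V`.
  `x` is algebraic over `K`: `∑ a_i x ^ i = 0`, `a_i : K` not all zero; divide by the `a_i` of largest value; all `a_i` are in
  `w.ring`, one is `1`; the residues `c_i : k` of the `a_i` (`VF.exists_res hK`) give a nonzero polynomial over `k` which
  vanishes at the residue of `x`, it splits into linear factors: so `x - c` is a nonunit of `V` for one
  root `c` (a product of elements of `V` is a nonunit, so one of them is; nonunits are a prime ideal).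
* `exists_under`: `W.ring.comap ι` is a valuation ring of `K` containing `k`; it is not `K`: otherwise `K → W.ring → k`
  (residues, `Full W`, unique) would be a `k`-homomorphism, so injective, but `K ≠ k` (contains a
  transcendental element). `VB.Over w ι W` by definition of the `comap` (nonunits correspond).
* `over_iff`, `over_mem`: use `VF.exists_res hK` (every element of `w.ring` has a residue) and uniqueness of residues;
  if `f ∉ w.ring` then `f⁻¹` has residue `0` at `w`, so `ι f⁻¹` has residue `0` at `W` and `ι f ∉ W.ring`.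
-/

set_option linter.unusedSectionVars false

namespace Pool.Agent.Helper51.IZ

open VC VF Function

universe u

variable {k K Ω : Type u} [Field k] [IsAlgClosed k] [CharZero k] [Field K] [Algebra k K] [Field Ω]
  [Algebra k Ω]

private theorem h99_nonunits_of_comap {A B : Type*} [Field A] [Field B] (j : A →+* B)
    (R : ValuationSubring B) (S : ValuationSubring A) (hS : ∀ z : A, j z ∈ R ↔ z ∈ S) (z : A) :
    z ∈ S.nonunits ↔ j z ∈ R.nonunits := by
  rw [ValuationSubring.mem_nonunits_iff_or, ValuationSubring.mem_nonunits_iff_or, ← map_inv₀, hS,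
    map_eq_zero]

private theorem h99_full [Algebra K Ω] [IsScalarTower k K Ω] [Algebra.IsAlgebraic K Ω]
    (hK : IsFunctionField k K) (w : Place k K) (W : Place k Ω)
    (hW : ∀ z : K, algebraMap K Ω z ∈ W.ring ↔ z ∈ w.ring) : Full W := by
  intro x hx
  have hint : IsIntegral K x := Algebra.IsIntegral.isIntegral x
  have : FiniteDimensional K (IntermediateField.adjoin K {x}) :=
    IntermediateField.adjoin.finiteDimensional hint
  have hF : IsFunctionField k (IntermediateField.adjoin K {x}) := VF.ff_ext (F := K) hK
  let R : ValuationSubring (IntermediateField.adjoin K {x}) :=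
    W.ring.comap (algebraMap (IntermediateField.adjoin K {x}) Ω)
  have hmem : ∀ z : IntermediateField.adjoin K {x},
      algebraMap (IntermediateField.adjoin K {x}) Ω z ∈ W.ring ↔ z ∈ R := fun z => Iff.rfl
  have hkm : ∀ a : k, algebraMap (IntermediateField.adjoin K {x}) Ω
      (algebraMap k (IntermediateField.adjoin K {x}) a) = algebraMap k Ω a := by
    intro a
    rw [IsScalarTower.algebraMap_apply k K (IntermediateField.adjoin K {x}),
      ← IsScalarTower.algebraMap_apply K (IntermediateField.adjoin K {x}) Ω,
      ← IsScalarTower.algebraMap_apply k K Ω]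
  have hk : ∀ a : k, algebraMap k (IntermediateField.adjoin K {x}) a ∈ R := by
    intro a
    rw [← hmem, hkm]
    exact W.algebraMap_mem a
  have htop : R ≠ ⊤ := by
    intro h
    apply w.ne_top
    rw [eq_top_iff]
    intro z _
    rw [← hW, IsScalarTower.algebraMap_apply K (IntermediateField.adjoin K {x}) Ω, hmem, h]
    exact ValuationSubring.mem_top _
  let P : Place k (IntermediateField.adjoin K {x}) := ⟨R, hk, htop⟩
  obtain ⟨c, hc⟩ := VP.exists_residue hF P
    (x := ⟨x, IntermediateField.mem_adjoin_simple_self K x⟩) hx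
  refine ⟨c, ?_⟩
  have h1 := (h99_nonunits_of_comap (algebraMap (IntermediateField.adjoin K {x}) Ω) W.ring R hmem _).mp hc
  rw [map_sub, hkm] at h1
  exact h1

private theorem h99_mem_down {W : Place k Ω} {ι : K →ₐ[k] Ω} {w : Place k K}
    (h : VB.Over w ι W) {f : K} (hf : ι f ∈ W.ring) : f ∈ w.ring := by
  by_contra hcon
  have h1 : f⁻¹ ∈ w.ring.nonunits := by
    rw [ValuationSubring.mem_nonunits_iff_or, inv_inv]
    exact Or.inr hcon
  have h2 : IsRes W (ι f⁻¹) (0 : k) := h _ _ (isRes_zero_iff.mpr h1)
  have h3 := isRes_zero_iff.mp h2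
  rw [ValuationSubring.mem_nonunits_iff_or, map_inv₀, inv_inv] at h3
  rcases h3 with h3 | h3
  · rw [inv_eq_zero, map_eq_zero] at h3
    apply hcon
    rw [h3]
    exact w.ring.zero_mem
  · exact h3 hf

theorem exists_full [Algebra K Ω] [IsScalarTower k K Ω] [Algebra.IsAlgebraic K Ω]
    (hK : IsFunctionField k K) (w : Place k K) :
    ∃ W : Place k Ω, Full W ∧ VB.Over w (IsScalarTower.toAlgHom k K Ω) W := by
  obtain ⟨W, hW⟩ := SC.exists_place_over (N := Ω) w
  refine ⟨W, h99_full hK w W hW, ?_⟩
  intro f c hf
  have h1 := (h99_nonunits_of_comap (algebraMap K Ω) W.ring w.ring hW _).mp hf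
  rw [map_sub, ← IsScalarTower.algebraMap_apply k K Ω] at h1
  exact h1

theorem exists_under (hK : IsFunctionField k K) {W : Place k Ω} (hW : Full W)
    (ι : K →ₐ[k] Ω) : ∃ w : Place k K, VB.Over w ι W := by
  have hmem : ∀ z : K, ι.toRingHom z ∈ W.ring ↔ z ∈ W.ring.comap ι.toRingHom := fun z => Iff.rfl
  have hk : ∀ a : k, algebraMap k K a ∈ W.ring.comap ι.toRingHom := by
    intro a
    rw [← hmem]
    have : ι.toRingHom (algebraMap k K a) = algebraMap k Ω a := ι.commutes a
    rw [this]
    exact W.algebraMap_mem a
  have htop : W.ring.comap ι.toRingHom ≠ ⊤ := by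
    intro htop
    have hall : ∀ z : K, ι z ∈ W.ring := by
      intro z
      have : z ∈ W.ring.comap ι.toRingHom := by
        rw [htop]
        exact ValuationSubring.mem_top _
      exact (hmem z).mpr this
    obtain ⟨t, ht, _⟩ := hK
    obtain ⟨c, hc⟩ := hW _ (hall t)
    have h1 : ι (t - algebraMap k K c) ∈ W.ring.nonunits := by
      rw [map_sub, ι.commutes]
      exact hc
    rw [ValuationSubring.mem_nonunits_iff_or, ← map_inv₀] at h1
    rcases h1 with h1 | h1
    · rw [map_eq_zero, sub_eq_zero] at h1
      apply ht
      rw [h1]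
      exact isAlgebraic_algebraMap c
    · exact h1 (hall _)
  refine ⟨⟨W.ring.comap ι.toRingHom, hk, htop⟩, ?_⟩
  intro f c hf
  have h1 := (h99_nonunits_of_comap ι.toRingHom W.ring (W.ring.comap ι.toRingHom) hmem _).mp hf
  have h2 : ι.toRingHom (f - algebraMap k K c) = ι f - algebraMap k Ω c := by
    change ι (f - algebraMap k K c) = _
    rw [map_sub, ι.commutes]
  rw [h2] at h1
  exact h1

theorem over_iff (hK : IsFunctionField k K) {W : Place k Ω} {ι : K →ₐ[k] Ω} {w : Place k K}
    (h : VB.Over w ι W) (f : K) (c : k) : IsRes W (ι f) c ↔ IsRes w f c := by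
  constructor
  · intro hf
    obtain ⟨d, hd⟩ := exists_res hK (h99_mem_down h hf.mem)
    rw [hf.unique (h f d hd)]
    exact hd
  · exact h f c

theorem over_mem (hK : IsFunctionField k K) {W : Place k Ω} {ι : K →ₐ[k] Ω} {w : Place k K}
    (h : VB.Over w ι W) (f : K) : ι f ∈ W.ring ↔ f ∈ w.ring := by
  constructor
  · exact h99_mem_down h
  · intro hf
    obtain ⟨d, hd⟩ := exists_res hK hf
    exact (h f d hd).mem

theorem over_unique (hK : IsFunctionField k K) {W : Place k Ω} {ι : K →ₐ[k] Ω} {w w' : Place k K}
    (h : VB.Over w ι W) (h' : VB.Over w' ι W) : w = w' := by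
  apply Place.ext
  ext f
  rw [← over_mem hK h, over_mem hK h']

end Pool.Agent.Helper51.IZ
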