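import Mathlib
import Pool.Agent.Helper51.IZ.Ext

/-!
# Block IZ-COV: the covering given by a root of `f`

`f` is not an `m`-th power. Let `K = L (r)` inside an algebraic closure of `L`, `r ^ m = f` (`r ∉ L`). `K / L` is finite, so
`K` is a function field, and Galois (`k` contains the `m`-th roots of unity; splitting field of `X ^ m - f`,
separable in characteristic zero; if `m = 0` the hypothesis fails for `f = 1`, but take `hm : m ≠ 0`). Let `τ` be an
automorphism of `K / L` with `τ r ≠ r`, `τ r = ζ r` with `ζ ^ m = 1`, `ζ : k`, `ζ ≠ 1`. Let `T` be a place of `L` with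
`ord_T f = 0`. Choose a place `Q0` of `K` over `T` (extension of places: `exists_full` for the algebraic extension
`AlgebraicClosure L` of `L`, and `exists_under` for `K`). Let `Q1` be `Q0.ring.comap τ` (`IsRes Q1 x c ↔ IsRes Q0 (τ x) c`).
`r` is integral over `Q0.ring` with nonzero residue `ρ` (`ρ ^ m = rs T f ≠ 0`), and its residue at `Q1` is `ζ ρ`.
-/

set_option linter.unusedSectionVars false

namespace Pool.Agent.Helper51.IZ

open VC VF Function
open Pool.Agent.Helper51.VB (rs)

universe u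

variable {k L : Type u} [Field k] [IsAlgClosed k] [CharZero k] [Field L] [Algebra k L]

private theorem cov67 {K : Type u} [Field K] [Algebra k K] [Algebra L K] [IsScalarTower k L K]
    [FiniteDimensional L K] [IsGalois L K] (hL : IsFunctionField k L) {f : L} (hf : f ≠ 0) {m : ℕ}
    (hm : m ≠ 0) (hr : ∀ z : L, z ^ m ≠ f) (r : K) (hrm : r ^ m = algebraMap L K f) :
    ∃ ζ : k, ζ ^ m = 1 ∧ ζ ≠ 1 ∧
      ∀ T : Place k L, ord T.ring f = 0 → ∃ (Q0 Q1 : Place k K) (ρ : k), ρ ≠ 0 ∧
        ρ ^ m = rs T f ∧ VB.Over T (IsScalarTower.toAlgHom k L K) Q0 ∧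
        VB.Over T (IsScalarTower.toAlgHom k L K) Q1 ∧ IsRes Q0 r ρ ∧ IsRes Q1 r (ζ * ρ) := by
  have hfK : algebraMap L K f ≠ 0 := (map_ne_zero (algebraMap L K)).2 hf
  have hr0 : r ≠ 0 := by
    rintro rfl
    rw [zero_pow hm] at hrm
    exact hfK hrm.symm
  obtain ⟨τ, hτ⟩ : ∃ τ : K ≃ₐ[L] K, τ r ≠ r := by
    by_contra hcon
    push Not at hcon
    have h1 : r ∈ (⊥ : IntermediateField L K) := (IsGalois.mem_bot_iff_fixed r).2 hcon
    rw [IntermediateField.mem_bot] at h1
    obtain ⟨z, hz⟩ := h1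
    refine hr z ((algebraMap L K).injective ?_)
    rw [map_pow, hz, hrm]
  have hζ1 : (τ r / r) ^ m = 1 := by
    rw [div_pow, ← map_pow, hrm, τ.commutes, div_self hfK]
  obtain ⟨ζ, hζ⟩ : ∃ ζ : k, algebraMap k K ζ = τ r / r := by
    have hint : IsIntegral k (τ r / r) :=
      IsIntegral.of_pow (Nat.pos_of_ne_zero hm) (by rw [hζ1]; exact isIntegral_one)
    have hdeg := IsAlgClosed.degree_eq_one_of_irreducible k (minpoly.irreducible hint)
    exact (minpoly.mem_range_of_degree_eq_one k _ hdeg)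
  have hτr : τ r = algebraMap k K ζ * r := by
    rw [hζ, div_mul_cancel₀ _ hr0]
  refine ⟨ζ, ?_, ?_, fun T hT => ?_⟩
  · apply (algebraMap k K).injective
    rw [map_pow, hζ, hζ1, map_one]
  · rintro rfl
    apply hτ
    rw [hτr, map_one, one_mul]
  · obtain ⟨Q0, hfull, hover⟩ := exists_full (Ω := K) hL T
    have hfT : f ∈ T.ring := (ord_nonneg_iff hL T hf).1 (le_of_eq hT.symm)
    have hrs := VB.isRes_rs hL hfT
    have hrs0 : rs T f ≠ 0 := by
      intro h0
      rw [h0, isRes_zero_iff] at hrs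
      have := (ord_pos_iff hL T hf).2 hrs
      omega
    have hQf : IsRes Q0 (algebraMap L K f) (rs T f) := hover f _ hrs
    have hrQ : r ∈ Q0.ring := mem_of_pow hm (by rw [hrm]; exact hQf.mem)
    obtain ⟨ρ, hρ⟩ := hfull r hrQ
    have hρm : ρ ^ m = rs T f := by
      have h1 := hρ.pow m
      rw [hrm] at h1
      exact h1.unique hQf
    have hτc : ∀ c : k, τ (algebraMap k K c) = algebraMap k K c := by
      intro c
      rw [IsScalarTower.algebraMap_apply k L K, τ.commutes]
    obtain ⟨g, hg⟩ : ∃ g : K →+* K, ∀ x, g x = τ x := ⟨(τ : K →+* K), fun x => rfl⟩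
    let Q1 : Place k K :=
      { ring := Q0.ring.comap g
        algebraMap_mem := fun a => by
          rw [ValuationSubring.mem_comap, hg, hτc]
          exact Q0.algebraMap_mem a
        ne_top := by
          intro htop
          apply Q0.ne_top
          rw [eq_top_iff]
          intro x _
          have h1 : τ.symm x ∈ Q0.ring.comap g := by
            rw [htop]
            exact ValuationSubring.mem_top _
          rw [ValuationSubring.mem_comap, hg, AlgEquiv.apply_symm_apply] at h1
          exact h1 }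
    have hQ1 : ∀ (x : K) (c : k), IsRes Q1 x c ↔ IsRes Q0 (τ x) c := by
      intro x c
      unfold IsRes
      have e : τ x - algebraMap k K c = τ (x - algebraMap k K c) := by
        rw [map_sub, hτc]
      rw [e, ValuationSubring.mem_nonunits_iff_or, ValuationSubring.mem_nonunits_iff_or,
        map_eq_zero_iff τ τ.injective, ← map_inv₀]
      have h2 : (x - algebraMap k K c)⁻¹ ∈ Q1.ring ↔ τ ((x - algebraMap k K c)⁻¹) ∈ Q0.ring := by
        change _ ∈ Q0.ring.comap g ↔ _
        rw [ValuationSubring.mem_comap, hg]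
      rw [h2]
    refine ⟨Q0, Q1, ρ, ?_, hρm, hover, ?_, hρ, ?_⟩
    · rintro rfl
      rw [zero_pow hm] at hρm
      exact hrs0 hρm.symm
    · intro x c hx
      rw [hQ1]
      have h1 := hover x c hx
      have h2 : τ ((IsScalarTower.toAlgHom k L K) x) = (IsScalarTower.toAlgHom k L K) x :=
        τ.commutes x
      rw [h2]
      exact h1
    · rw [hQ1, hτr]
      exact (isRes_const ζ).mul hρ

theorem exists_cov (hL : IsFunctionField k L) {f : L} (hf : f ≠ 0) {m : ℕ} (hm : m ≠ 0)
    (hr : ∀ z : L, z ^ m ≠ f) :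
    ∃ (K : Type u) (_ : Field K) (_ : Algebra k K) (_ : IsFunctionField k K) (e : L →ₐ[k] K) (r : K)
      (ζ : k), r ^ m = e f ∧ ζ ^ m = 1 ∧ ζ ≠ 1 ∧
      ∀ T : Place k L, ord T.ring f = 0 → ∃ (Q0 Q1 : Place k K) (ρ : k), ρ ≠ 0 ∧
        ρ ^ m = rs T f ∧ VB.Over T e Q0 ∧ VB.Over T e Q1 ∧ IsRes Q0 r ρ ∧ IsRes Q1 r (ζ * ρ) := by
  have hc : CharZero L := charZero_of_injective_algebraMap (algebraMap k L).injective
  have hsep : (Polynomial.X ^ m - Polynomial.C f).Separable :=
    Polynomial.separable_X_pow_sub_C f (by exact_mod_cast hm) hf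
  have hgal : IsGalois L (Polynomial.X ^ m - Polynomial.C f).SplittingField :=
    IsGalois.of_separable_splitting_field hsep
  obtain ⟨r, hr'⟩ : ∃ r : (Polynomial.X ^ m - Polynomial.C f).SplittingField,
      r ^ m = algebraMap L _ f := by
    have h1 := Polynomial.SplittingField.splits (Polynomial.X ^ m - Polynomial.C f)
    obtain ⟨r, hr'⟩ := h1.exists_eval_eq_zero (by
      rw [Polynomial.degree_map, Polynomial.degree_X_pow_sub_C (Nat.pos_of_ne_zero hm)]
      exact_mod_cast hm)
    refine ⟨r, ?_⟩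
    rw [Polynomial.map_sub, Polynomial.map_pow, Polynomial.map_X, Polynomial.map_C,
      Polynomial.eval_sub, Polynomial.eval_pow, Polynomial.eval_X, Polynomial.eval_C,
      sub_eq_zero] at hr'
    exact hr'
  obtain ⟨ζ, h1, h2, h3⟩ := cov67 hL hf hm hr r hr'
  exact ⟨_, _, _, ff_ext hL, IsScalarTower.toAlgHom k L _, r, ζ, hr', h1, h2, h3⟩

/-- Only finitely many places of `K` lie over a place of `L`. -/
theorem finite_above (hL : IsFunctionField k L) {K : Type u} [Field K] [Algebra k K]
    (hK : IsFunctionField k K) (e : L →ₐ[k] K) (T : Place k L) :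
    {Q : Place k K | VB.Over T e Q}.Finite := by
  obtain ⟨π, hπ0, hπ⟩ : ∃ π : L, π ≠ 0 ∧ IsRes T π 0 := by
    obtain ⟨x, hx⟩ : ∃ x : L, x ∉ T.ring := by
      by_contra hcon
      push Not at hcon
      exact T.ne_top (eq_top_iff.mpr (fun x _ => hcon x))
    have hx0 : x ≠ 0 := by
      rintro rfl
      exact hx T.ring.zero_mem
    refine ⟨x⁻¹, inv_ne_zero hx0, ?_⟩
    rw [isRes_zero_iff, ValuationSubring.inv_mem_nonunits_iff]
    exact Or.inr hx
  have he0 : e π ≠ 0 := (map_ne_zero e).2 hπ0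
  refine (FF.finite_support_ord hK he0).subset fun Q hQ => ?_
  have h1 : IsRes Q (e π) 0 := hQ π 0 hπ
  rw [isRes_zero_iff] at h1
  have h2 := (ord_pos_iff hK Q he0).2 h1
  show ord Q.ring (e π) ≠ 0
  omega

end Pool.Agent.Helper51.IZ
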