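import Mathlib
import Pool.Agent.Helper51.IZ.Defs

/-!
# Block IZ-QEX: a function with only one pole

`exists_genus hK` gives the genus `γ`, `FF.ell_eq_of_large` a bound `c` such that `ell D = deg D + 1 - γ` for
`deg D ≥ c`. Let `N` be large and `V = rr (N Q1 - Q0)` (`riemannRochSpace`, a finite dimensional subspace of `K`, see
Helper17/FF/RR.lean). For `P ∈ B` and for `P = Q1` the subspace `rr (N Q1 - Q0 - P)` is a proper subspace (its
dimension is smaller by one). `k` is infinite, so `V` is not the union of these finitely many proper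
subspaces (`Subspace.biUnion_ne_univ_of_top_nmem`-like in Mathlib: a vector space over an infinite field is
not a finite union of proper subspaces; apply inside `V`). An element `q` outside of them has
`ord Q1 q = - N`, `ord P q = 0` for `P ∈ B`, no other poles, and a zero at `Q0` (`N > 0`). It is transcendental
because it has a pole.
-/

set_option linter.unusedSectionVars false

namespace Pool.Agent.Helper51.IZ

open VC VF Function

universe u

variable {k K : Type u} [Field k] [IsAlgClosed k] [CharZero k] [Field K] [Algebra k K]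

theorem exists_q (hK : IsFunctionField k K) {Q0 Q1 : Place k K} (h01 : Q0 ≠ Q1)
    (B : Finset (Place k K)) (hB0 : Q0 ∉ B) (hB1 : Q1 ∉ B) :
    ∃ q : K, Transcendental k q ∧ (∀ P : Place k K, P ≠ Q1 → q ∈ P.ring) ∧ q ∉ Q1.ring ∧
      IsRes Q0 q 0 ∧ ∀ P ∈ B, ¬ IsRes P q 0 := by
  classical
  obtain ⟨g, hg⟩ := FF.exists_genus hK
  obtain ⟨c, hc⟩ := FF.ell_eq_of_large hK hg
  have hinf : Infinite k := IsAlgClosed.instInfinite
  set N : ℤ := max (c + 2) 1 with hN
  have hN1 : 1 ≤ N := le_max_right _ _
  have hNc : c + 2 ≤ N := le_max_left _ _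
  set D : Place k K →₀ ℤ := Finsupp.single Q1 N - Finsupp.single Q0 1 with hD
  have hdegD : FF.deg D = N - 1 := by
    rw [hD, map_sub, FF.deg_single, FF.deg_single]
  have hD1 : D Q1 = N := by
    rw [hD, Finsupp.sub_apply, Finsupp.single_eq_same, Finsupp.single_apply, if_neg h01, sub_zero]
  have hD0 : D Q0 = -1 := by
    rw [hD, Finsupp.sub_apply, Finsupp.single_eq_same, Finsupp.single_apply, if_neg (Ne.symm h01)]
    ring
  have hDP : ∀ P, P ≠ Q0 → P ≠ Q1 → D P = 0 := by
    intro P h0 h1
    rw [hD, Finsupp.sub_apply, Finsupp.single_apply, Finsupp.single_apply, if_neg (Ne.symm h1),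
      if_neg (Ne.symm h0), sub_zero]
  have hV := FF.finite_rr hK D
  -- the subspaces are proper
  have hprop : ∀ P : Place k K, ¬ riemannRochSpace k K D ≤ riemannRochSpace k K (D - Finsupp.single P 1) := by
    intro P hle
    have hfin := FF.finite_rr hK (D - Finsupp.single P 1)
    have h1 := Submodule.finrank_mono hle
    have h2 := hc D (by rw [hdegD]; omega)
    have h3 := hc (D - Finsupp.single P 1) (by rw [map_sub, hdegD, FF.deg_single]; omega)
    rw [map_sub, hdegD, FF.deg_single] at h3
    rw [hdegD] at h2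
    unfold FF.ell at h2 h3
    omega
  -- an element outside of all of them
  obtain ⟨q, hqV, hqW⟩ : ∃ q ∈ riemannRochSpace k K D, ∀ P ∈ insert Q1 B,
      q ∉ riemannRochSpace k K (D - Finsupp.single P 1) := by
    by_contra hcon
    push Not at hcon
    have hcov : ⋃ i : ↥(insert Q1 B), (((riemannRochSpace k K (D - Finsupp.single i.1 1)).comap
        (riemannRochSpace k K D).subtype : Submodule k (riemannRochSpace k K D)) :
        Set (riemannRochSpace k K D)) = Set.univ := by
      rw [Set.eq_univ_iff_forall]
      intro x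
      obtain ⟨P, hP, hx⟩ := hcon x.1 x.2
      rw [Set.mem_iUnion]
      exact ⟨⟨P, hP⟩, hx⟩
    obtain ⟨i, hi⟩ := Subspace.exists_eq_top_of_iUnion_eq_univ hcov
    apply hprop i.1
    intro x hx
    have h1 : (⟨x, hx⟩ : riemannRochSpace k K D) ∈ (riemannRochSpace k K (D - Finsupp.single i.1 1)).comap
        (riemannRochSpace k K D).subtype := by
      rw [hi]
      exact Submodule.mem_top
    exact h1
  have hq0 : q ≠ 0 := by
    rintro rfl
    exact hqW Q1 (Finset.mem_insert_self _ _) (Submodule.zero_mem _)
  have hge := (FF.mem_rr hK D hq0).mp hqV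
  have heq : ∀ P ∈ insert Q1 B, ord P.ring q = - D P := by
    intro P hP
    have h1 := hqW P hP
    rw [FF.mem_rr hK _ hq0] at h1
    push Not at h1
    obtain ⟨P', hP'⟩ := h1
    have h2 := hge P'
    rw [Finsupp.sub_apply, Finsupp.single_apply] at hP'
    by_cases hPP : P = P'
    · subst hPP
      rw [if_pos rfl] at hP'
      omega
    · rw [if_neg hPP] at hP'
      omega
  have hq1 : q ∉ Q1.ring := by
    rw [← FF.ord_nonneg_iff hK Q1 hq0, heq Q1 (Finset.mem_insert_self _ _), hD1]
    omega
  refine ⟨q, ?_, ?_, hq1, ?_, ?_⟩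
  · by_contra ht
    obtain ⟨b, hb⟩ := FF.exists_const_of_not_transcendental ht
    apply hq1
    rw [← hb]
    exact Q1.algebraMap_mem b
  · intro P hP
    rw [← FF.ord_nonneg_iff hK P hq0]
    have h1 := hge P
    by_cases h0 : P = Q0
    · subst h0
      rw [hD0] at h1
      omega
    · rw [hDP P h0 hP] at h1
      omega
  · unfold IsRes
    rw [map_zero, sub_zero, ← FF.ord_pos_iff hK Q0 hq0]
    have h1 := hge Q0
    rw [hD0] at h1
    omega
  · intro P hP hres
    unfold IsRes at hres
    rw [map_zero, sub_zero, ← FF.ord_pos_iff hK P hq0, heq P (Finset.mem_insert_of_mem hP),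
      hDP P (fun h => hB0 (h ▸ hP)) (fun h => hB1 (h ▸ hP))] at hres
    omega

end Pool.Agent.Helper51.IZ
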