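import Mathlib
import Pool.Agent.Helper51.IZ.Qex
import Pool.Agent.Helper51.IZ.Cnj
import Pool.Agent.Helper51.IZ.Cov

/-!
# Block IZ-DAT: the data for the main argument

`S` is a finite set of (bad) places of `L`, it contains the zeros and poles of `f`.
* `exists_cov`: `K`, `e`, `r₀`, `ζ`; for the place `T0` it gives `Q0`, `Q1`, `rho`. `Q0 ≠ Q1` since the residues `rho`, `ζ rho` of `r₀`
  are different.
* `B` = the places of `K` over the places in `S` (`finite_above`); `Q0, Q1 ∉ B` (a place of `K` lies over only one place of `L`: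
  `over_unique`, `Full Q` for a place of a function field is `VF.exists_res`). `exists_q hK`: `q`.
* `exists_cnj hK hq`: `K₁`, `N`, `ι`, `q₁`. Let `φ j = (ι j).comp e`, `r j = ι j r₀`.
* `Z` = the set of the places of `L` which lie under `Q1` (this is `T0`) or under a zero of `q`: `q` has only finitely many
  zeros (`FF.finite_zeros`), and there is only one place under a given place. No place in `Z` is in `S`: a zero of `q`
  is not in `B`.
* Let `w` be a place of `K₁`. `exists_under hK (W := w) (ι j)` gives `Q` with `VB.Over Q (ι j) w`; `exists_under hL (W := Q) e` gives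
  `R` with `VB.Over R e Q`, so `VB.Over R (φ j) w`. If `q₁ ∉ w.ring` then `q ∉ Q.ring` (`over_mem`), `Q = Q1`, `R = T0`, and `r j` has
  the residue `ζ rho` at `w` (`over_iff`). If `IsRes w q₁ 0` then `IsRes Q q 0`, so `R ∈ Z`, `R ∉ S`, `f` is regular at `R`, so
  `r₀ ^ m = e f` is regular at `Q` and `r₀` has a residue `ρ` there (`exists_res_of_pow`, as in IS/Mv.lean). By `exists_cnj` there
  is `j` with `VB.Over Q0 (ι j) w`; for this `j` we have `Q = Q0`, `R = T0`, `ρ = rho` (`over_unique`, uniqueness of residues).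
-/

set_option linter.unusedSectionVars false

namespace Pool.Agent.Helper51.IZ

open VC VF Function
open Pool.Agent.Helper51.VB (rs)

universe u

variable {k L : Type u} [Field k] [IsAlgClosed k] [CharZero k] [Field L] [Algebra k L]

theorem exists_dat (hL : IsFunctionField k L) {f : L} (hf : f ≠ 0) {m : ℕ} (hm : m ≠ 0)
    (hr : ∀ z : L, z ^ m ≠ f) (S : Finset (Place k L)) (hS : ∀ P : Place k L, ord P.ring f ≠ 0 → P ∈ S)
    {T0 : Place k L} (hT0 : T0 ∉ S) :
    ∃ (ζ rho : k) (Z : Finset (Place k L)) (N : ℕ) (K₁ : Type u) (_ : Field K₁) (_ : Algebra k K₁)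
      (_ : IsFunctionField k K₁) (q₁ : K₁) (φ : Fin N → (L →ₐ[k] K₁)) (r : Fin N → K₁),
      ζ ^ m = 1 ∧ ζ ≠ 1 ∧ rho ≠ 0 ∧ rho ^ m = rs T0 f ∧ Transcendental k q₁ ∧
      (∀ j, r j ^ m = φ j f) ∧ (∀ P ∈ Z, P ∉ S) ∧ T0 ∈ Z ∧
      (∀ w : Place k K₁, q₁ ∉ w.ring → ∀ j, VB.Over T0 (φ j) w ∧ IsRes w (r j) (ζ * rho)) ∧
      (∀ w : Place k K₁, IsRes w q₁ 0 → ∃ (R : Fin N → Place k L) (ρ : Fin N → k),
        (∀ j, R j ∈ Z ∧ VB.Over (R j) (φ j) w ∧ IsRes w (r j) (ρ j)) ∧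
        ∃ j, R j = T0 ∧ ρ j = rho) := by
  classical
  have hS' : ∀ P : Place k L, P ∉ S → ord P.ring f = 0 := by
    intro P hP
    by_contra h
    exact hP (hS P h)
  obtain ⟨K, _, _, hK, e, r₀, ζ, hr₀, hζm, hζ1, hcov⟩ := exists_cov hL hf hm hr
  obtain ⟨Q0, Q1, rho, hrho0, hrhom, hO0, hO1, hR0, hR1⟩ := hcov T0 (hS' T0 hT0)
  have h01 : Q0 ≠ Q1 := by
    rintro rfl
    have h1 := hR0.unique hR1
    apply hζ1
    have h2 : (ζ - 1) * rho = 0 := by
      rw [sub_mul, one_mul, ← h1, sub_self]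
    exact sub_eq_zero.mp ((mul_eq_zero.mp h2).resolve_right hrho0)
  have hBfin : (⋃ T ∈ (S : Set (Place k L)), {Q : Place k K | VB.Over T e Q}).Finite :=
    Set.Finite.biUnion S.finite_toSet fun T _ => finite_above hL hK e T
  have hBmem : ∀ Q : Place k K, Q ∈ hBfin.toFinset ↔ ∃ T ∈ S, VB.Over T e Q := by
    intro Q
    rw [Set.Finite.mem_toFinset, Set.mem_iUnion₂]
    constructor
    · rintro ⟨T, hT, h⟩
      exact ⟨T, hT, h⟩
    · rintro ⟨T, hT, h⟩
      exact ⟨T, hT, h⟩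
  have hB0 : Q0 ∉ hBfin.toFinset := by
    intro h
    obtain ⟨T, hT, h1⟩ := (hBmem Q0).mp h
    rw [over_unique hL hO0 h1] at hT0
    exact hT0 hT
  have hB1 : Q1 ∉ hBfin.toFinset := by
    intro h
    obtain ⟨T, hT, h1⟩ := (hBmem Q1).mp h
    rw [over_unique hL hO1 h1] at hT0
    exact hT0 hT
  obtain ⟨q, hq, hqreg, hqpole, hq0, hqB⟩ := exists_q hK h01 hBfin.toFinset hB0 hB1
  obtain ⟨K₁, _, _, hK₁, N, ι, q₁, hq₁, hι, hcnj⟩ := exists_cnj hK hq
  have hZfin : {R : Place k L | ∃ Q : Place k K, (Q = Q1 ∨ IsRes Q q 0) ∧ VB.Over R e Q}.Finite := by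
    have h1 : ({Q1} ∪ {Q : Place k K | q ∈ Q.ring.nonunits}).Finite :=
      (Set.finite_singleton Q1).union (FF.finite_zeros hK hq)
    have h2 : (⋃ Q ∈ ({Q1} ∪ {Q : Place k K | q ∈ Q.ring.nonunits} : Set (Place k K)),
        {R : Place k L | VB.Over R e Q}).Finite := by
      refine Set.Finite.biUnion h1 fun Q _ => Set.Subsingleton.finite ?_
      intro R hR R' hR'
      exact over_unique hL hR hR'
    refine h2.subset ?_
    rintro R ⟨Q, hQ, hR⟩
    rw [Set.mem_iUnion₂]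
    refine ⟨Q, ?_, hR⟩
    rcases hQ with hQ | hQ
    · exact Or.inl hQ
    · exact Or.inr (isRes_zero_iff.mp hQ)
  have hZmem : ∀ R : Place k L, R ∈ hZfin.toFinset ↔
      ∃ Q : Place k K, (Q = Q1 ∨ IsRes Q q 0) ∧ VB.Over R e Q := by
    intro R
    rw [Set.Finite.mem_toFinset]
    rfl
  have hZS : ∀ P ∈ hZfin.toFinset, P ∉ S := by
    intro P hP hPS
    obtain ⟨Q, hQ, hO⟩ := (hZmem P).mp hP
    have hQB : Q ∈ hBfin.toFinset := (hBmem Q).mpr ⟨P, hPS, hO⟩
    rcases hQ with hQ | hQ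
    · rw [hQ] at hQB
      exact hB1 hQB
    · exact hqB Q hQB hQ
  have hcomp : ∀ {R : Place k L} {Q : Place k K} {w : Place k K₁} {j : Fin N}, VB.Over R e Q →
      VB.Over Q (ι j) w → VB.Over R ((ι j).comp e) w := fun h1 h2 g c hg => h2 _ c (h1 g c hg)
  have hfullK₁ : ∀ w : Place k K₁, Full w := fun w x hx => exists_res hK₁ hx
  have hfullK : ∀ Q : Place k K, Full Q := fun Q x hx => exists_res hK hx
  refine ⟨ζ, rho, hZfin.toFinset, N, K₁, inferInstance, inferInstance, hK₁, q₁,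
    fun j => (ι j).comp e, fun j => ι j r₀, hζm, hζ1, hrho0, hrhom, hq₁, ?_, hZS, ?_, ?_, ?_⟩
  · intro j
    show (ι j r₀) ^ m = ι j (e f)
    rw [← map_pow, hr₀]
  · exact (hZmem T0).mpr ⟨Q1, Or.inl rfl, hO1⟩
  · intro w hw j
    obtain ⟨Q, hQ⟩ := exists_under hK (hfullK₁ w) (ι j)
    have h1 : q ∉ Q.ring := by
      intro h2
      apply hw
      rw [← hι j]
      exact (over_mem hK hQ q).mpr h2
    have h2 : Q = Q1 := by
      by_contra h3
      exact h1 (hqreg Q h3)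
    rw [h2] at hQ
    exact ⟨hcomp hO1 hQ, hQ _ _ hR1⟩
  · intro w hw
    have h1 : ∀ j : Fin N, ∃ Q : Place k K, VB.Over Q (ι j) w := fun j =>
      exists_under hK (hfullK₁ w) (ι j)
    choose Q hQ using h1
    have h2 : ∀ j, IsRes (Q j) q 0 := by
      intro j
      rw [← over_iff hK (hQ j), hι j]
      exact hw
    have h3 : ∀ j : Fin N, ∃ R : Place k L, VB.Over R e (Q j) := fun j =>
      exists_under hL (hfullK (Q j)) e
    choose R hR using h3
    have h4 : ∀ j, R j ∈ hZfin.toFinset := fun j => (hZmem (R j)).mpr ⟨Q j, Or.inr (h2 j), hR j⟩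
    have h5 : ∀ j, ∃ ρ : k, IsRes (Q j) r₀ ρ := by
      intro j
      have h6 : f ∈ (R j).ring :=
        (FF.ord_nonneg_iff hL (R j) hf).mp (hS' (R j) (hZS _ (h4 j))).ge
      obtain ⟨c, hc⟩ := exists_res hL h6
      have h7 := hR j f c hc
      rw [← hr₀] at h7
      obtain ⟨ρ, hρ, -⟩ := exists_res_of_pow hK hm h7
      exact ⟨ρ, hρ⟩
    choose ρ hρ using h5
    refine ⟨R, ρ, fun j => ⟨h4 j, hcomp (hR j) (hQ j), hQ j _ _ (hρ j)⟩, ?_⟩
    obtain ⟨j, hj⟩ := hcnj w hw Q0 hq0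
    have h6 : Q j = Q0 := over_unique hK (hQ j) hj
    have h7 := hR j
    have h8 := hρ j
    rw [h6] at h7 h8
    exact ⟨j, over_unique hL h7 hO0, h8.unique hR0⟩

end Pool.Agent.Helper51.IZ
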