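import Mathlib
import Pool.Agent.Helper51.IZ.Ext

/-!
# Block IZ-OM: harmonic functions and points with coordinates in an algebraic closure

`Ω` is algebraic over the function field `K`, the points `c a i` (`a` in the finite set `s`, `i : Fin n`) have
coordinates in `Ω`. Let `K₃` be the intermediate field of `Ω / K` generated by the coordinates `x`, `y` of all `c a i`,
`a ∈ s`, and by the images `φ (z)` of generators of the field `L` (`L` is finitely generated over `k`:
`k (t)` and a finite basis) for all `c a i` with `(c a i).p = .emb φ`. It is finite over `K` (finitely many algebraic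
elements), so a function field over `k` (`q` is transcendental over `k` in it, finiteness over `k (q)` by
transitivity), and `φ (L) ⊆ K₃`. So all `c a i` come from points `c₃ a i : KPt D K₃` (`AlgHom.codRestrict`). Apply
`h.harm` over `K₃` to `c₃ a`: harmonic functions `F a` on the places of `K₃`; let `M = ∑ a ∈ s, ε a * F a`, harmonic. For
a place `w` of `K₃` with `q ∉ w.ring` choose `W` over `w` (`exists_full`, `Ω` is algebraic over `K₃`); `hinf` gives values
`p a` of `c a` at `W`, they are values of `c₃ a` at `w` (`over_iff`, for `.emb` `VB.Over` by `over_iff` also), so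
`M w = A`. In the same way `M w = 0` if `q` is a nonunit at `w`. Now `Harm` for the function `q`:
`0 = ∑_w ord_w q * M w = A * ∑_{w pole of q} ord_w q`, and the sum is a negative integer (`q` has a pole as it is
transcendental), so `A = 0` in characteristic zero.
-/

set_option linter.unusedSectionVars false

namespace Pool.Agent.Helper51.IZ

open VC VF Function
open Pool.Agent.Helper51.VB (Ell OJ KPt BP rs)
open Pool.Agent.Helper51.VN (Harm OnE)

universe u

variable {k L : Type u} [Field k] [IsAlgClosed k] [CharZero k] [Field L] [Algebra k L]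

private theorem fg50 {k L : Type u} [Field k] [Field L] [Algebra k L] (hL : IsFunctionField k L) :
    ∃ G : Finset L, IntermediateField.adjoin k (G : Set L) = ⊤ := by
  classical
  obtain ⟨t, _, hfin⟩ := hL
  obtain ⟨B, hB⟩ := hfin.fg_top
  refine ⟨insert t B, ?_⟩
  have ht : IntermediateField.adjoin k {t} ≤ IntermediateField.adjoin k ((insert t B : Finset L) : Set L) := by
    apply IntermediateField.adjoin.mono
    intro z hz
    rw [Set.mem_singleton_iff] at hz
    subst hz
    exact Finset.mem_coe.2 (Finset.mem_insert_self _ _)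
  rw [eq_top_iff]
  intro z hz0
  clear hz0
  have hz : z ∈ Submodule.span (IntermediateField.adjoin k {t}) (B : Set L) := by
    rw [hB]
    exact Submodule.mem_top
  induction hz using Submodule.span_induction with
  | mem x hx =>
    exact IntermediateField.subset_adjoin k _ (Finset.mem_coe.2 (Finset.mem_insert_of_mem hx))
  | zero => exact zero_mem _
  | add x y _ _ hx hy => exact add_mem hx hy
  | smul c x _ hx =>
    have h1 : c • x = (c : L) * x := rfl
    rw [h1]
    exact mul_mem (ht c.2) hx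

private theorem pole50 {K : Type u} [Field K] [Algebra k K] (hK : IsFunctionField k K) {q : K}
    (hq : Transcendental k q) {M : Place k K → k} (hM : Harm hK M) {A : k}
    (hinf : ∀ w : Place k K, q ∉ w.ring → M w = A) (hzero : ∀ w : Place k K, IsRes w q 0 → M w = 0) :
    A = 0 := by
  classical
  have hq0 : q ≠ 0 := by
    rintro rfl
    exact hq (isAlgebraic_zero)
  have h1 := hM q hq0
  have hneg : ∀ v : Place k K, ord v.ring q < 0 ↔ q ∉ v.ring := by
    intro v
    have h2 : q⁻¹ ∈ v.ring.nonunits ↔ q ∉ v.ring := by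
      rw [ValuationSubring.mem_nonunits_iff_or, inv_inv]
      constructor
      · rintro (h | h)
        · exact absurd h (inv_ne_zero hq0)
        · exact h
      · exact fun h => Or.inr h
    rw [← h2, ← ord_pos_iff hK v (inv_ne_zero hq0), ord_inv hK v hq0]
    omega
  have h4 : ∀ v ∈ (finite_support_ord hK hq0).toFinset,
      (ord v.ring q : k) * M v = ((min (ord v.ring q) 0 : ℤ) : k) * A := by
    intro v _
    rcases lt_trichotomy (ord v.ring q) 0 with hlt | heq | hgt
    · rw [hinf v ((hneg v).1 hlt), min_eq_left hlt.le]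
    · rw [heq]; simp
    · rw [hzero v (isRes_zero_iff.2 ((ord_pos_iff hK v hq0).1 hgt)), min_eq_right hgt.le]; simp
  rw [Finset.sum_congr rfl h4, ← Finset.sum_mul, mul_eq_zero] at h1
  rcases h1 with h3 | h3
  · exfalso
    have h5 : ∑ v ∈ (finite_support_ord hK hq0).toFinset, min (ord v.ring q) 0 = 0 := by
      exact_mod_cast h3
    have h6 : ∑ v ∈ (finite_support_ord hK hq0).toFinset, -min (ord v.ring q) 0 = 0 := by
      rw [Finset.sum_neg_distrib, h5, neg_zero]
    rw [Finset.sum_eq_zero_iff_of_nonneg (fun v _ => by have := min_le_right (ord v.ring q) 0; omega)] at h6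
    have hqi : Transcendental k q⁻¹ := by
      intro h7
      exact hq (by simpa using h7.inv)
    obtain ⟨v, hv⟩ := exists_place hK hqi
    have h8 := (ord_pos_iff hK v (inv_ne_zero hq0)).2 hv
    rw [ord_inv hK v hq0] at h8
    have h9 := h6 v (by
      rw [Set.Finite.mem_toFinset, Set.mem_ofPred_eq]
      omega)
    rw [min_eq_left (by omega)] at h9
    omega
  · exact h3

private theorem lift50 {D : Ell k L} {K Ω : Type u} [Field K] [Algebra k K] [Field Ω] [Algebra k Ω]
    (hK : IsFunctionField k K) (ι : K →ₐ[k] Ω) (c : KPt D Ω) (hx : c.x ∈ ι.range) (hy : c.y ∈ ι.range)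
    (hφ : ∀ φ : L →ₐ[k] Ω, c.p = .emb φ → ∀ z, φ z ∈ ι.range) :
    ∃ c₃ : KPt D K, ∀ (w : Place k K) (W : Place k Ω), VB.Over w ι W → ∀ p, c.Val W p → c₃.Val w p := by
  obtain ⟨p, x, y, nc, hE⟩ := c
  obtain ⟨x₃, hx₃⟩ := hx
  obtain ⟨y₃, hy₃⟩ := hy
  change ι x₃ = x at hx₃
  change ι y₃ = y at hy₃
  have hinj : Injective ι := ι.injective
  cases p with
  | cst P =>
    refine ⟨⟨.cst P, x₃, y₃, fun P' h => nc P' (by injection h with h; rw [h]), ?_⟩, ?_⟩
    · unfold OnE
      apply hinj
      unfold OnE at hE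
      simp only [BP.ev] at hE ⊢
      simp only [map_pow, map_sub, map_mul, map_ofNat, AlgHom.commutes, hx₃, hy₃]
      exact hE
    · rintro w W hw pp ⟨h1, h2, h3, h4⟩
      refine ⟨h1, h2, ?_, ?_⟩
      · rw [← over_iff hK hw]
        change IsRes W (ι x₃) _
        rw [hx₃]
        exact h3
      · rw [← over_iff hK hw]
        change IsRes W (ι y₃) _
        rw [hy₃]
        exact h4
  | emb φ =>
    have hφ' : ∀ z, φ z ∈ ι.range := hφ φ rfl
    let e : K ≃ₐ[k] ι.range := AlgEquiv.ofInjective ι hinj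
    let φ₃ : L →ₐ[k] K := (e.symm : ι.range →ₐ[k] K).comp (φ.codRestrict ι.range hφ')
    have hφ₃ : ∀ z, ι (φ₃ z) = φ z := by
      intro z
      have h1 : e (φ₃ z) = φ.codRestrict ι.range hφ' z := e.apply_symm_apply _
      have h2 : ((e (φ₃ z) : ι.range) : Ω) = ι (φ₃ z) := AlgEquiv.ofInjective_apply ι hinj (φ₃ z)
      rw [← h2, h1]
      rfl
    refine ⟨⟨.emb φ₃, x₃, y₃, fun P' h => by injection h, ?_⟩, ?_⟩
    · unfold OnE
      apply hinj
      unfold OnE at hE
      simp only [BP.ev] at hE ⊢
      simp only [map_pow, map_sub, map_mul, map_ofNat, hx₃, hy₃, hφ₃]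
      exact hE
    · rintro w W hw pp ⟨h1, h2, h3, h4⟩
      refine ⟨h1, ?_, ?_, ?_⟩
      · intro f c hf
        have h5 : IsRes W (φ f) c := h2 f c hf
        change IsRes w (φ₃ f) c
        rw [← over_iff hK hw, hφ₃]
        exact h5
      · rw [← over_iff hK hw]
        change IsRes W (ι x₃) _
        rw [hx₃]
        exact h3
      · rw [← over_iff hK hw]
        change IsRes W (ι y₃) _
        rw [hy₃]
        exact h4

private theorem harm_zero50 {K : Type u} [Field K] [Algebra k K] (hK : IsFunctionField k K) :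
    Harm hK (fun _ => (0 : k)) := by
  intro f hf
  simp

private theorem harm_sum50 {K : Type u} [Field K] [Algebra k K] (hK : IsFunctionField k K) {ι : Type*}
    (s : Finset ι) (ε : ι → k) (F : ι → Place k K → k) (h : ∀ a ∈ s, Harm hK (F a)) :
    Harm hK (fun w => ∑ a ∈ s, ε a * F a w) := by
  intro f hf
  simp only [Finset.mul_sum]
  rw [Finset.sum_comm]
  refine Finset.sum_eq_zero fun a ha => ?_
  have h1 := h a ha f hf
  have h2 : ∀ v ∈ (finite_support_ord hK hf).toFinset, (ord v.ring f : k) * (ε a * F a v) =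
      ε a * ((ord v.ring f : k) * F a v) := fun v _ => by ring
  rw [Finset.sum_congr rfl h2, ← Finset.mul_sum, h1, mul_zero]

theorem om {D : Ell k L} {n : ℕ} {Ψ : (Fin n → Place k L × k × k) → k} (h : OJ D n Ψ)
    {K Ω : Type u} [Field K] [Algebra k K] [Field Ω] [Algebra k Ω] [Algebra K Ω]
    [IsScalarTower k K Ω] [Algebra.IsAlgebraic K Ω] (hK : IsFunctionField k K) {q : K}
    (hq : Transcendental k q) {ι : Type*} (s : Finset ι) (ε : ι → k) (c : ι → Fin n → KPt D Ω)
    (A : k)
    (hinf : ∀ W : Place k Ω, Full W → algebraMap K Ω q ∉ W.ring →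
      ∃ p : ι → Fin n → Place k L × k × k, (∀ a ∈ s, ∀ i, (c a i).Val W (p a i)) ∧
        ∑ a ∈ s, ε a * Ψ (p a) = A)
    (hzero : ∀ W : Place k Ω, Full W → IsRes W (algebraMap K Ω q) 0 →
      ∃ p : ι → Fin n → Place k L × k × k, (∀ a ∈ s, ∀ i, (c a i).Val W (p a i)) ∧
        ∑ a ∈ s, ε a * Ψ (p a) = 0) : A = 0 := by
  classical
  obtain ⟨G, hG⟩ := fg50 D.hL
  let fib : KPt D Ω → Set Ω := fun c => {z | ∃ φ : L →ₐ[k] Ω, c.p = .emb φ ∧ ∃ g ∈ G, φ g = z}
  have hfib : ∀ c : KPt D Ω, (fib c).Finite := by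
    intro c
    rcases hc : c.p with P | φ
    · refine Set.Finite.subset Set.finite_empty ?_
      rintro z ⟨φ, hφ, _⟩
      rw [hc] at hφ
      injection hφ
    · refine Set.Finite.subset (G.finite_toSet.image φ) ?_
      rintro z ⟨φ', hφ, g, hg, rfl⟩
      rw [hc] at hφ
      injection hφ with hφ
      subst hφ
      exact ⟨g, hg, rfl⟩
  let S : Set Ω := ⋃ a ∈ s, ⋃ i : Fin n, ({(c a i).x, (c a i).y} ∪ fib (c a i))
  have hS : S.Finite := by
    refine Set.Finite.biUnion s.finite_toSet fun a _ => Set.finite_iUnion fun i => ?_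
    exact ((Set.finite_singleton _).insert _).union (hfib _)
  have hSm : ∀ a ∈ s, ∀ i, ∀ z ∈ ({(c a i).x, (c a i).y} ∪ fib (c a i) : Set Ω), z ∈ S := by
    intro a ha i z hz
    exact Set.mem_biUnion (Finset.mem_coe.2 ha) (Set.mem_iUnion.2 ⟨i, hz⟩)
  have hSf : Finite S := hS.to_subtype
  let K₃ : IntermediateField K Ω := IntermediateField.adjoin K S
  have hfd : FiniteDimensional K K₃ := IntermediateField.finiteDimensional_adjoin fun x _ =>
    Algebra.IsIntegral.isIntegral x
  have hK₃ : IsFunctionField k K₃ := ff_ext hK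
  have hst : IsScalarTower k K₃ Ω := IsScalarTower.of_algebraMap_eq fun x => by
    rw [IsScalarTower.algebraMap_apply k K K₃ x, ← IsScalarTower.algebraMap_apply K K₃ Ω,
      ← IsScalarTower.algebraMap_apply k K Ω]
  have halg : Algebra.IsAlgebraic K₃ Ω := Algebra.IsAlgebraic.tower_top (K := K) K₃
  let ιh : K₃ →ₐ[k] Ω := IsScalarTower.toAlgHom k K₃ Ω
  have hr : ∀ z : Ω, z ∈ K₃ → z ∈ ιh.range := fun z hz => ⟨⟨z, hz⟩, rfl⟩
  have hlift : ∀ a : ι, ∃ F : Place k K₃ → k, Harm hK₃ F ∧ (a ∈ s → ∀ (w : Place k K₃) (W : Place k Ω),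
      VB.Over w ιh W → ∀ p : Fin n → Place k L × k × k, (∀ i, (c a i).Val W (p i)) → F w = Ψ p) := by
    intro a
    by_cases ha : a ∈ s
    · have h1 : ∀ i, ∃ c₃ : KPt D K₃, ∀ (w : Place k K₃) (W : Place k Ω), VB.Over w ιh W →
          ∀ p, (c a i).Val W p → c₃.Val w p := by
        intro i
        refine lift50 hK₃ ιh (c a i) (hr _ ?_) (hr _ ?_) fun φ hφ z => hr _ ?_
        · exact IntermediateField.subset_adjoin K S (hSm a ha i _ (Or.inl (Or.inl rfl)))
        · exact IntermediateField.subset_adjoin K S (hSm a ha i _ (Or.inl (Or.inr rfl)))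
        · have h2 : IntermediateField.adjoin k (G : Set L) ≤ (K₃.restrictScalars k).comap φ := by
            rw [IntermediateField.adjoin_le_iff]
            intro g hg
            change φ g ∈ K₃
            refine IntermediateField.subset_adjoin K S (hSm a ha i _ (Or.inr ?_))
            exact ⟨φ, hφ, g, hg, rfl⟩
          rw [hG] at h2
          exact h2 (IntermediateField.mem_top (x := z))
      choose c₃ hc₃ using h1
      obtain ⟨F, hF1, hF2, _⟩ := h.harm K₃ hK₃ c₃
      exact ⟨F, hF1, fun _ w W hw p hp => hF2 w p fun i => hc₃ i w W hw (p i) (hp i)⟩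
    · exact ⟨fun _ => 0, harm_zero50 hK₃, fun h => absurd h ha⟩
  choose F hF1 hF2 using hlift
  have hM := harm_sum50 hK₃ s ε F fun a _ => hF1 a
  have hq₃ : Transcendental k (algebraMap K K₃ q) :=
    (transcendental_algebraMap_iff (algebraMap K K₃).injective).2 hq
  refine pole50 hK₃ hq₃ hM (fun w hw => ?_) fun w hw => ?_
  · obtain ⟨W, hW1, hW2⟩ := exists_full (Ω := Ω) hK₃ w
    have h1 : algebraMap K Ω q ∉ W.ring := fun h2 => hw ((over_mem hK₃ hW2 _).1 h2)
    obtain ⟨p, hp1, hp2⟩ := hinf W hW1 h1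
    rw [← hp2]
    exact Finset.sum_congr rfl fun a ha => by rw [hF2 a ha w W hW2 (p a) (hp1 a ha)]
  · obtain ⟨W, hW1, hW2⟩ := exists_full (Ω := Ω) hK₃ w
    have h1 : IsRes W (algebraMap K Ω q) 0 := (over_iff hK₃ hW2 _ _).2 hw
    obtain ⟨p, hp1, hp2⟩ := hzero W hW1 h1
    rw [← hp2]
    exact Finset.sum_congr rfl fun a ha => by rw [hF2 a ha w W hW2 (p a) (hp1 a ha)]

end Pool.Agent.Helper51.IZ
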