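import Mathlib
import Pool.Agent.Helper51.IZ.Defs

/-!
# Block IZ-VL: values of functions at divisors

Elementary. `vl f A = ∏ P ∈ A.support, rs P f ^ A P` (`Finsupp.prod`). `rs P f` is the value (`0` if there is none,
`VB.rs_eq`, `VB.isRes_rs`, `VB.mem_of_rs`, `VB.ord_of_rs` in Helper51/VB/Ctc.lean; if the order of `f` at `P` is zero
then `rs P f ≠ 0`, `VF.exists_res`). `vl_add`: `Finsupp.prod_add_index'`-like, restrict to the union of the supports
(`Finsupp.prod_of_support_subset`) and use `zpow_add₀`. `vl_isRes`: products and integer powers of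
elements with nonzero residues (`IsRes.mul`, `IsRes.inv_mem`; for `W` any place of a field `Ω` over `k`).
-/

set_option linter.unusedSectionVars false

namespace Pool.Agent.Helper51.IZ

open VC VF Function
open Pool.Agent.Helper51.VB (rs)

universe u

variable {k L : Type u} [Field k] [IsAlgClosed k] [CharZero k] [Field L] [Algebra k L]

theorem rs_ne_zero (hL : IsFunctionField k L) {P : Place k L} {f : L} (hf : f ≠ 0)
    (h : ord P.ring f = 0) : rs P f ≠ 0 := by
  have h1 := VB.isRes_rs hL ((ord_nonneg_iff hL P hf).mp (le_of_eq h.symm))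
  intro h2
  rw [h2] at h1
  have h3 := (ord_pos_iff hL P hf).mpr (isRes_zero_iff.mp h1)
  omega

theorem rs_mul (hL : IsFunctionField k L) {P : Place k L} {f h : L} (hf : rs P f ≠ 0)
    (hh : rs P h ≠ 0) : rs P (f * h) = rs P f * rs P h :=
  VB.rs_eq ((VB.isRes_rs hL (VB.mem_of_rs hf)).mul (VB.isRes_rs hL (VB.mem_of_rs hh)))

theorem vl_zero (f : L) : vl f (0 : Place k L →₀ ℤ) = 1 := by
  unfold vl
  exact Finsupp.prod_zero_index

private lemma vl_of_subset (f : L) (A : Place k L →₀ ℤ) {s : Finset (Place k L)}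
    (hs : A.support ⊆ s) : vl f A = ∏ P ∈ s, rs P f ^ A P := by
  unfold vl
  exact Finsupp.prod_of_support_subset A hs _ (fun P _ => zpow_zero _)

theorem vl_single (f : L) (P : Place k L) (m : ℤ) : vl f (Finsupp.single P m) = rs P f ^ m := by
  unfold vl
  exact Finsupp.prod_single_index (zpow_zero _)

theorem vl_add {f : L} {A B : Place k L →₀ ℤ} (hA : ∀ P, A P ≠ 0 → rs P f ≠ 0)
    (hB : ∀ P, B P ≠ 0 → rs P f ≠ 0) : vl f (A + B) = vl f A * vl f B := by
  classical
  rw [vl_of_subset f A (s := A.support ∪ B.support) Finset.subset_union_left,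
    vl_of_subset f B (s := A.support ∪ B.support) Finset.subset_union_right,
    vl_of_subset f (A + B) (s := A.support ∪ B.support) Finsupp.support_add,
    ← Finset.prod_mul_distrib]
  apply Finset.prod_congr rfl
  intro P hP
  rw [Finsupp.add_apply]
  apply zpow_add₀
  rcases Finset.mem_union.mp hP with h | h
  · exact hA P (Finsupp.mem_support_iff.mp h)
  · exact hB P (Finsupp.mem_support_iff.mp h)

theorem vl_neg {f : L} {A : Place k L →₀ ℤ} : vl f (-A) = (vl f A)⁻¹ := by
  rw [vl_of_subset f A (subset_refl _), vl_of_subset f (-A) (s := A.support)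
    (by rw [Finsupp.support_neg]), ← Finset.prod_inv_distrib]
  apply Finset.prod_congr rfl
  intro P _
  rw [Finsupp.neg_apply, zpow_neg]

theorem vl_smul {f : L} (m : ℤ) {A : Place k L →₀ ℤ} : vl f (m • A) = vl f A ^ m := by
  rw [vl_of_subset f A (subset_refl _), vl_of_subset f (m • A) (s := A.support)
    Finsupp.support_smul, ← Finset.prod_zpow]
  apply Finset.prod_congr rfl
  intro P _
  rw [Finsupp.smul_apply, smul_eq_mul, mul_comm, zpow_mul]

theorem vl_ne_zero {f : L} {A : Place k L →₀ ℤ} (hA : ∀ P, A P ≠ 0 → rs P f ≠ 0) :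
    vl f A ≠ 0 := by
  unfold vl Finsupp.prod
  rw [Finset.prod_ne_zero_iff]
  intro P hP
  exact zpow_ne_zero _ (hA P (Finsupp.mem_support_iff.mp hP))

theorem vl_mul (hL : IsFunctionField k L) {f h : L} {A : Place k L →₀ ℤ}
    (hf : ∀ P, A P ≠ 0 → rs P f ≠ 0) (hh : ∀ P, A P ≠ 0 → rs P h ≠ 0) :
    vl (f * h) A = vl f A * vl h A := by
  unfold vl Finsupp.prod
  rw [← Finset.prod_mul_distrib]
  apply Finset.prod_congr rfl
  intro P hP
  have hP' := Finsupp.mem_support_iff.mp hP
  change rs P (f * h) ^ A P = rs P f ^ A P * rs P h ^ A P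
  rw [rs_mul hL (hf P hP') (hh P hP'), mul_zpow]

theorem vl_const (hL : IsFunctionField k L) {c : k} (hc : c ≠ 0) (A : Place k L →₀ ℤ) :
    vl (algebraMap k L c) A = c ^ FF.deg A := by
  classical
  rw [FF.deg_eq]
  unfold vl Finsupp.prod Finsupp.sum
  induction A.support using Finset.induction_on with
  | empty => simp
  | insert P s hP ih =>
    rw [Finset.prod_insert hP, Finset.sum_insert hP, ih]
    change rs P (algebraMap k L c) ^ A P * _ = c ^ (A P + _)
    rw [VB.rs_eq (isRes_const c), zpow_add₀ hc]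

/-- Integer powers of elements with nonzero residues. -/
theorem isRes_zpow {Ω : Type u} [Field Ω] [Algebra k Ω] {W : Place k Ω} {x : Ω} {c : k} (hc : c ≠ 0)
    (h : IsRes W x c) (m : ℤ) : IsRes W (x ^ m) (c ^ m) := by
  have hinv : IsRes W x⁻¹ c⁻¹ := by
    obtain ⟨h0, h1⟩ := h.inv_mem hc
    have h2 : -(x⁻¹ * algebraMap k Ω c⁻¹) ∈ W.ring :=
      W.ring.neg_mem _ (W.ring.mul_mem _ _ h1 (W.algebraMap_mem _))
    have h3 := nonunits_mul h2 h
    unfold IsRes
    convert h3 using 1
    have hc' : algebraMap k Ω c ≠ 0 := by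
      rw [Ne, map_eq_zero]; exact hc
    rw [map_inv₀]
    field_simp
    ring
  rcases m with n | n
  · rw [Int.ofNat_eq_natCast, zpow_natCast, zpow_natCast]
    exact h.pow n
  · rw [zpow_negSucc, zpow_negSucc, ← inv_pow, ← inv_pow]
    exact hinv.pow _

theorem isRes_prod {Ω : Type u} [Field Ω] [Algebra k Ω] {W : Place k Ω} {ι : Type*} (s : Finset ι)
    {x : ι → Ω} {c : ι → k} (h : ∀ i ∈ s, IsRes W (x i) (c i)) :
    IsRes W (∏ i ∈ s, x i) (∏ i ∈ s, c i) := by
  classical
  induction s using Finset.induction_on with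
  | empty => simpa using isRes_one (v := W)
  | insert a s ha ih =>
    rw [Finset.prod_insert ha, Finset.prod_insert ha]
    exact (h a (Finset.mem_insert_self _ _)).mul
      (ih (fun i hi => h i (Finset.mem_insert_of_mem hi)))

end Pool.Agent.Helper51.IZ
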