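import Mathlib
import Pool.Agent.Helper51.IZ.Vl
import Pool.Agent.Helper51.VB.Nrm
import Pool.Agent.Helper51.VB.Cnj

/-!
# Block IZ-REC: Weil reciprocity

`f (div h) = h (div f)` if the divisors of `f` and `h` have disjoint supports.

If `h` is a constant: both sides are `1` (`vl_const`, `FF.deg_dv`, `FF.dv_algebraMap`). Otherwise `h = q` is
transcendental. `VC.exists_cover hL q` gives `K`, Galois over `k (q)` with group `Γ` (see `VB.exists_pen`,
Helper51/VB/Pen.lean, for the set-up). `norm_formula` (Helper51/VB/Nrm.lean) says, if all poles of `q` are simple,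
`∏ φ, φ f = ∏ P pole, f (P) * ∏ P, (1 - q (P) / q) ^ ord_P f`, `φ` running over the embeddings
`L → K` with `φ q = q`. First generalise it to poles of any order (same proof; the constant is
`∏ P pole, rs P f ^ (- ord_P q)`: at a place `v` of `K` over `q = ∞` the number of the `φ` with
`Place.comap φ v = P` is `- ord_P q`, `VC.card_cover` for `q⁻¹`). Then take values at a place `v` of `K` with
`q (v) = 0`: the left side is `∏ P zero, f (P) ^ ord_P q` (`card_cover` for `q`), and on the right side
`∏ P, (1 - q (P) / q) ^ ord_P f = ∏ P, (q - q (P)) ^ ord_P f` (as `∑ ord_P f = 0`, `FF.deg_dv`) has the value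
`∏ P, (- q (P)) ^ ord_P f = ∏ P, q (P) ^ ord_P f`. This is the claim.
-/

set_option linter.unusedSectionVars false

namespace Pool.Agent.Helper51.IZ

open VC VF Function Polynomial IntermediateField
open Pool.Agent.Helper51.VB (rs)

universe u

variable {k L : Type u} [Field k] [IsAlgClosed k] [CharZero k] [Field L] [Algebra k L]

/-- The conjugates of `f` have the values of `f` at the places below. -/
private theorem res_comap26 (hL : IsFunctionField k L) {K : Type u} [Field K] [Algebra k K]
    (hK : IsFunctionField k K) (φ : L →ₐ[k] K) (v : Place k K) {f : L} (hf : f ≠ 0)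
    (h : ord (Place.comap hL hK φ v).ring f = 0) :
    IsRes v (φ f) (rs (Place.comap hL hK φ v) f) := by
  have h1 : f ∈ (Place.comap hL hK φ v).ring := by
    rw [← ord_nonneg_iff hL _ hf, h]
  have h2 := Pool.Agent.Helper51.VB.isRes_rs hL h1
  have h3 : φ (f - algebraMap k L (rs (Place.comap hL hK φ v) f)) ∈ v.ring.nonunits :=
    (mem_nonunits_comap _ _ _).mp h2
  rw [map_sub, AlgHom.commutes] at h3
  exact h3

/-- The value of the norm at a place: grouping of the conjugates. -/
private theorem group26 {ι κ : Type*} [Fintype ι] [DecidableEq κ] (g : ι → κ) (T : Finset κ)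
    (hg : ∀ i, g i ∈ T) (x : κ → k) (m : κ → ℤ)
    (hm : ∀ P ∈ T, ((Finset.univ.filter (fun i => g i = P)).card : ℤ) = m P) :
    ∏ i, x (g i) = ∏ P ∈ T, x P ^ m P := by
  rw [← Finset.prod_fiberwise_of_maps_to (s := (Finset.univ : Finset ι)) (t := T) (g := g)
    (fun i _ => hg i)]
  refine Finset.prod_congr rfl fun P hP => ?_
  rw [Finset.prod_congr rfl (g := fun _ => x P), Finset.prod_const, ← hm P hP, zpow_natCast]
  intro i hi
  rw [(Finset.mem_filter.1 hi).2]

theorem weil (hL : IsFunctionField k L) {f h : L} (hf : f ≠ 0) (hh : h ≠ 0)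
    (hd : ∀ P : Place k L, ord P.ring f = 0 ∨ ord P.ring h = 0) :
    vl f (FF.dv hL h) = vl h (FF.dv hL f) := by
  classical
  by_cases ht : Transcendental k h
  swap
  · obtain ⟨c, rfl⟩ := VP.exists_const_of_not_transcendental ht
    have hc : c ≠ 0 := by
      rintro rfl
      exact hh (map_zero _)
    rw [FF.dv_algebraMap, vl_zero, vl_const hL hc, FF.deg_dv hL hf, zpow_zero]
  obtain ⟨K, _, _, _, _, hK, Γ, _, _, _, hΓ⟩ := exists_cover hL h ht
  have hΦ : Finite {φ : L →ₐ[k] K // φ h = algebraMap L K h} :=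
    finite_homs h (hL.finiteDimensional ht)
  have hΦ' : Fintype (Helper15.VB.Ems k K h) := Fintype.ofFinite _
  set Q : K := algebraMap L K h with hQ
  have hQt : Transcendental k Q := Helper15.VB.Q_tr ht
  have hQ0 : Q ≠ 0 := Helper15.VB.Q_ne ht
  have hp : ∀ P : Place k L, ord P.ring h < 0 → ord P.ring f = 0 := fun P hP =>
    (hd P).resolve_right (by omega)
  obtain ⟨c, hc⟩ := Helper15.VB.norm_eq hL hK ht hΓ hf hp
  obtain ⟨vi, hvi⟩ := exists_place hK (VP.transcendental_inv hQt)
  obtain ⟨v0, hv0⟩ := exists_place hK hQt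
  set T := (FF.dv hL h).support with hT
  have hmT : ∀ P, P ∈ T ↔ ord P.ring h ≠ 0 := by
    intro P
    rw [hT, Finsupp.mem_support_iff, FF.dv_apply]
  set S := (finite_support_ord hL hf).toFinset with hS
  have hmS : ∀ P, P ∈ S ↔ ord P.ring f ≠ 0 := by
    intro P
    rw [hS, Set.Finite.mem_toFinset]
    rfl
  have hfT : ∀ P ∈ T, rs P f ≠ 0 := fun P hP =>
    rs_ne_zero hL hf ((hd P).resolve_right ((hmT P).1 hP))
  have hhS : ∀ P ∈ S, rs P h ≠ 0 := fun P hP =>
    rs_ne_zero hL hh ((hd P).resolve_left ((hmS P).1 hP))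
  -- the degree of the divisor of `f`
  have hdeg : ∑ P ∈ S, ord P.ring f = 0 := VP.degree_zero hL hf
  -- the values of the norm at the two places
  have hci : ∀ φ : Helper15.VB.Ems k K h, ord (Place.comap hL hK φ.1 vi).ring h < 0 := by
    intro φ
    have h1 : Q⁻¹ = φ.1 h⁻¹ := by rw [map_inv₀, φ.2]
    rw [h1] at hvi
    have h2 : h⁻¹ ∈ (Place.comap hL hK φ.1 vi).ring.nonunits :=
      (mem_nonunits_comap _ _ _).mpr hvi
    have h3 := (ord_pos_iff hL _ (inv_ne_zero hh)).mpr h2
    rw [ord_inv hL _ hh] at h3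
    omega
  have hc0 : ∀ φ : Helper15.VB.Ems k K h, 0 < ord (Place.comap hL hK φ.1 v0).ring h := by
    intro φ
    have h1 : Q = φ.1 h := φ.2.symm
    rw [h1] at hv0
    have h2 : h ∈ (Place.comap hL hK φ.1 v0).ring.nonunits :=
      (mem_nonunits_comap _ _ _).mpr hv0
    exact (ord_pos_iff hL _ hh).mpr h2
  have hri : IsRes vi (∏ φ : Helper15.VB.Ems k K h, φ.1 f)
      (∏ P ∈ T, rs P f ^ (max (-ord P.ring h) 0)) := by
    have h1 := isRes_prod (W := vi) (Finset.univ : Finset (Helper15.VB.Ems k K h))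
      (fun φ _ => res_comap26 hL hK φ.1 vi hf (hp _ (hci φ)))
    have h2 := group26 (fun φ : Helper15.VB.Ems k K h => Place.comap hL hK φ.1 vi) T
      (fun φ => (hmT _).2 (hci φ).ne) (fun P => rs P f) (fun P => max (-ord P.ring h) 0)
      (fun P _ => Helper15.VB.cnt_inf hL hK ht hΓ vi hvi P)
    rw [h2] at h1
    exact h1
  have hr0 : IsRes v0 (∏ φ : Helper15.VB.Ems k K h, φ.1 f)
      (∏ P ∈ T, rs P f ^ (max (ord P.ring h) 0)) := by
    have h1 := isRes_prod (W := v0) (Finset.univ : Finset (Helper15.VB.Ems k K h))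
      (fun φ _ => res_comap26 hL hK φ.1 v0 hf ((hd _).resolve_right (hc0 φ).ne'))
    have h2 := group26 (fun φ : Helper15.VB.Ems k K h => Place.comap hL hK φ.1 v0) T
      (fun φ => (hmT _).2 (hc0 φ).ne') (fun P => rs P f) (fun P => max (ord P.ring h) 0)
      (fun P _ => by
        have h3 := Helper15.VB.cnt_val hL hK ht hΓ 0 v0 (by rw [map_zero, sub_zero]; exact hv0) P
        rw [map_zero, sub_zero] at h3
        exact h3)
    rw [h2] at h1
    exact h1
  -- the constant
  have hce : c = ∏ P ∈ T, rs P f ^ (max (-ord P.ring h) 0) := by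
    have hright : IsRes vi (algebraMap k K c *
        ∏ P ∈ S, Helper15.VB.un K h (rs P h) ^ (ord P.ring f)) (c * 1) := by
      refine (isRes_const c).mul ?_
      have h1 := isRes_prod (W := vi) S
        (x := fun P => Helper15.VB.un K h (rs P h) ^ (ord P.ring f)) (c := fun _ => (1 : k))
        (fun P _ => Helper15.VB.isRes_zpow (Helper15.VB.un_res hvi (rs P h)) _)
      rw [Finset.prod_const_one] at h1
      exact h1
    rw [← hc, mul_one] at hright
    exact hright.unique hri
  -- the value of the right hand side at the zero of `h`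
  have hval : ∏ P ∈ T, rs P f ^ (max (ord P.ring h) 0) =
      c * ∏ P ∈ S, rs P h ^ (ord P.ring f) := by
    have h1 : ∏ P ∈ S, Helper15.VB.un K h (rs P h) ^ (ord P.ring f) =
        ∏ P ∈ S, (Q - algebraMap k K (rs P h)) ^ (ord P.ring f) := by
      have h2 : ∀ P ∈ S, (Q - algebraMap k K (rs P h)) ^ (ord P.ring f) =
          Helper15.VB.un K h (rs P h) ^ (ord P.ring f) * Q ^ (ord P.ring f) := by
        intro P _
        rw [← mul_zpow, Helper15.VB.un_mul ht]
      rw [Finset.prod_congr rfl h2, Finset.prod_mul_distrib]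
      have h3 : ∏ P ∈ S, Q ^ (ord P.ring f) = 1 := by
        have h4 : ∀ S' : Finset (Place k L), ∏ P ∈ S', Q ^ (ord P.ring f) =
            Q ^ (∑ P ∈ S', ord P.ring f) := by
          intro S'
          induction S' using Finset.induction_on with
          | empty => simp
          | insert a S' ha ih => rw [Finset.prod_insert ha, Finset.sum_insert ha, ih, zpow_add₀ hQ0]
        rw [h4, hdeg, zpow_zero]
      rw [h3, mul_one]
    have hright : IsRes v0 (algebraMap k K c *
        ∏ P ∈ S, Helper15.VB.un K h (rs P h) ^ (ord P.ring f))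
        (c * ∏ P ∈ S, (-rs P h) ^ (ord P.ring f)) := by
      refine (isRes_const c).mul ?_
      rw [h1]
      refine isRes_prod (W := v0) S (fun P hP => ?_)
      refine isRes_zpow (neg_ne_zero.2 (hhS P hP)) ?_ _
      have h2 : IsRes v0 Q 0 := isRes_zero_iff.mpr hv0
      have h3 := h2.sub (isRes_const (v := v0) (rs P h))
      rw [zero_sub] at h3
      exact h3
    rw [← hc] at hright
    have h5 := hright.unique hr0
    rw [← h5]
    congr 1
    have h6 : ∀ P ∈ S, (-rs P h) ^ (ord P.ring f) = (-1) ^ (ord P.ring f) * rs P h ^ (ord P.ring f) := by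
      intro P _
      rw [← mul_zpow, neg_one_mul]
    rw [Finset.prod_congr rfl h6, Finset.prod_mul_distrib]
    have h7 : ∏ P ∈ S, (-1 : k) ^ (ord P.ring f) = 1 := by
      have h4 : ∀ S' : Finset (Place k L), ∏ P ∈ S', (-1 : k) ^ (ord P.ring f) =
          (-1 : k) ^ (∑ P ∈ S', ord P.ring f) := by
        intro S'
        induction S' using Finset.induction_on with
        | empty => simp
        | insert a S' ha ih =>
          rw [Finset.prod_insert ha, Finset.sum_insert ha, ih, zpow_add₀ (neg_ne_zero.2 one_ne_zero)]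
      rw [h4, hdeg, zpow_zero]
    rw [h7, one_mul]
  -- conclusion
  have hl : vl f (FF.dv hL h) = ∏ P ∈ T, rs P f ^ (ord P.ring h) := by
    unfold vl
    rw [Finsupp.prod]
    rfl
  have hr : vl h (FF.dv hL f) = ∏ P ∈ S, rs P h ^ (ord P.ring f) := by
    unfold vl
    rw [Finsupp.prod]
    refine Finset.prod_congr ?_ fun P _ => rfl
    ext P
    rw [hmS, Finsupp.mem_support_iff, FF.dv_apply]
  have hsplit : ∏ P ∈ T, rs P f ^ (max (ord P.ring h) 0) =
      (∏ P ∈ T, rs P f ^ (ord P.ring h)) * ∏ P ∈ T, rs P f ^ (max (-ord P.ring h) 0) := by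
    rw [← Finset.prod_mul_distrib]
    refine Finset.prod_congr rfl fun P hP => ?_
    rw [← zpow_add₀ (hfT P hP)]
    congr 1
    omega
  have hc0' : c ≠ 0 := by
    rw [hce]
    exact Finset.prod_ne_zero_iff.2 fun P hP => zpow_ne_zero _ (hfT P hP)
  rw [hl, hr]
  rw [hsplit, ← hce, mul_comm c] at hval
  exact mul_right_cancel₀ hc0' hval

end Pool.Agent.Helper51.IZ
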