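import Mathlib
import Pool.Agent.Helper51.IZ.Vl

/-!
# Block IZ-RED: reduction of points and functions

`W` is a place of `Ω` with residue field `k` (`Full W`).
* `exists_rd`: the set of the `f : L` with `algebraMap f ∈ Q.ring` and residue `y` (`FF.ev` / `VF.exists_res`, `Ω` is the
  residue field of `Q`, `FF.ev_spec`) in `W.ring` is a valuation ring of `L` (if `algebraMap f ∉ Q.ring` then
  `algebraMap f⁻¹` is a nonunit with residue `0`), it contains `k`; it is not `L`, otherwise `L → k` would be a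
  homomorphism over `k`, so `L = k` (but `L` contains a transcendental element). Or use `hM.over_or_gen hL Q`: if
  `FF.Over Q P` take `P`; if `FF.Gen Q φ` take `W.ring.comap φ`. Residues: `IsRes P f c` means `f - c` nonunit
  (and `Full W` shows that nonunits of `P` have residue `y` with `IsRes W y 0`).
* `rd_ab`: `y = c` works (`FF.ab_over`, `FF.Over.nonunits`). `rd_gen`: `y = φ f`.
* `rd_unique`: two places `P ≠ P'` of `L` are separated by a function with residues `0` and `1`
  (`FF.approx`), residues of `Q` and `W` are unique (`IsRes.unique`).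
* `exists_red`: by `hM.frac` write `h = prodMap s / prodMap t`. Every element of `Ω ⊗ L` is `∑ a_i ⊗ l_i` with `l_i`
  linearly independent over `k` (take a basis of `L` over `k`: `Basis.baseChange` / `FF` Tensor file), and if it is not
  zero we can divide by the `a_i` of the largest value for `W.ring` (a finite set has an element `a` with
  `a_i / a ∈ W.ring` for all `i`, `ValuationSubring` is totally ordered by division), so `a_i ∈ W.ring` with residues
  `c_i : k` not all zero; its reduction `∑ c_i l_i : L` is not zero. At a place `x` of `L` where all `l_i` are regular its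
  value at `FF.ab x` is `∑ a_i l_i (x)`, with residue `∑ c_i l_i (x)` at `W`. Do this for `s` and `t`; `hb` is the
  quotient of the two reductions; exclude the poles of the `l_i` and the zeros and poles of the reductions.
-/

set_option linter.unusedSectionVars false

namespace Pool.Agent.Helper51.IZ

open VC VF Function
open Pool.Agent.Helper51.VB (rs)

universe u

variable {k Ω L M : Type u} [Field k] [IsAlgClosed k] [CharZero k] [Field Ω] [IsAlgClosed Ω]
  [Field L] [Field M] [Algebra k Ω] [Algebra k L] [Algebra Ω M] [Algebra L M] [Algebra k M]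
  [IsScalarTower k Ω M] [IsScalarTower k L M]

private lemma inv_52 {K : Type u} [Field K] [Algebra k K] {W : Place k K} {x : K} {c : k}
    (h : IsRes W x c) (hc : c ≠ 0) : IsRes W x⁻¹ c⁻¹ := by
  obtain ⟨hx, hm⟩ := h.inv_mem hc
  have hc' : algebraMap k K c ≠ 0 := (_root_.map_ne_zero _).mpr hc
  have e : x⁻¹ - algebraMap k K c⁻¹ =
      (-x⁻¹ * algebraMap k K c⁻¹) * (x - algebraMap k K c) := by
    rw [map_inv₀]
    field_simp
    ring
  change x⁻¹ - algebraMap k K c⁻¹ ∈ W.ring.nonunits
  rw [e]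
  exact FF.mul_mem_nonunits (W.ring.mul_mem _ _ (W.ring.neg_mem _ hm) (W.algebraMap_mem _)) h

private lemma over_rd_52 {W : Place k Ω} {Q : Place Ω M} {P : Place k L} (h : FF.Over Q P) :
    ∀ (f : L) (c : k), IsRes P f c →
      IsRes Q (algebraMap L M f) (algebraMap k Ω c) ∧ IsRes W (algebraMap k Ω c) c := by
  intro f c hf
  refine ⟨?_, isRes_const c⟩
  change algebraMap L M f - algebraMap Ω M (algebraMap k Ω c) ∈ Q.ring.nonunits
  rw [← IsScalarTower.algebraMap_apply k Ω M, IsScalarTower.algebraMap_apply k L M, ← map_sub,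
    h.nonunits]
  exact hf

theorem rd_ab (hM : FF.IsConstExt k Ω L M) (hL : IsFunctionField k L) (W : Place k Ω)
    (P : Place k L) : Rd W (FF.ab hM hL P) P := by
  intro f c hf
  exact ⟨_, over_rd_52 (FF.ab_over hM hL P) f c hf⟩

theorem rd_gen {W : Place k Ω} {Q : Place Ω M} {φ : L →ₐ[k] Ω} (hQ : FF.Gen Q φ) {P : Place k L}
    (h : VB.Over P φ W) : Rd W Q P := by
  intro f c hf
  exact ⟨φ f, hQ f, h f c hf⟩

theorem exists_rd (hM : FF.IsConstExt k Ω L M) (hL : IsFunctionField k L) {W : Place k Ω}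
    (hW : Full W) (Q : Place Ω M) : ∃ P : Place k L, Rd W Q P := by
  rcases hM.over_or_gen hL Q with ⟨P, hP⟩ | ⟨φ, hφ⟩
  · exact ⟨P, fun f c hf => ⟨_, over_rd_52 hP f c hf⟩⟩
  · have htop : W.ring.comap (φ : L →+* Ω) ≠ ⊤ := by
      intro h
      obtain ⟨t, ht, -⟩ := hL
      have h1 : ∀ f : L, φ f ∈ W.ring := by
        intro f
        have h2 : f ∈ W.ring.comap (φ : L →+* Ω) := by
          rw [h]
          exact ValuationSubring.mem_top f
        exact ValuationSubring.mem_comap.mp h2
      obtain ⟨c, hc⟩ := hW _ (h1 t)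
      have h3 : t - algebraMap k L c ≠ 0 := by
        intro h4
        apply ht
        rw [sub_eq_zero] at h4
        rw [h4]
        exact isAlgebraic_algebraMap _
      have h5 : φ (t - algebraMap k L c) ∈ W.ring.nonunits := by
        rw [map_sub, AlgHom.commutes]
        exact hc
      have h6 := FF.mul_mem_nonunits (h1 (t - algebraMap k L c)⁻¹) h5
      rw [← map_mul, inv_mul_cancel₀ h3, map_one] at h6
      have h7 : IsRes W (1 : Ω) (0 : k) := isRes_zero_iff.mpr h6
      have h8 : IsRes W (1 : Ω) (1 : k) := by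
        have := isRes_const (v := W) (1 : k)
        rwa [map_one] at this
      exact one_ne_zero (h8.unique h7)
    refine ⟨⟨W.ring.comap (φ : L →+* Ω), fun a => ?_, htop⟩, ?_⟩
    · rw [ValuationSubring.mem_comap]
      change φ (algebraMap k L a) ∈ W.ring
      rw [AlgHom.commutes]
      exact W.algebraMap_mem a
    · apply rd_gen hφ
      intro f c hf
      have h1 : f - algebraMap k L c ∈ (W.ring.comap (φ : L →+* Ω)).nonunits := hf
      rw [ValuationSubring.mem_nonunits_iff_or] at h1
      change φ f - algebraMap k Ω c ∈ W.ring.nonunits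
      have e : φ f - algebraMap k Ω c = φ (f - algebraMap k L c) := by
        rw [map_sub, AlgHom.commutes]
      rw [e, ValuationSubring.mem_nonunits_iff_or]
      rcases h1 with h1 | h1
      · left
        rw [h1, map_zero]
      · right
        intro h2
        apply h1
        rw [ValuationSubring.mem_comap]
        change φ (f - algebraMap k L c)⁻¹ ∈ W.ring
        rw [map_inv₀]
        exact h2

theorem rd_unique (hM : FF.IsConstExt k Ω L M) (hL : IsFunctionField k L) {W : Place k Ω}
    {Q : Place Ω M} {P P' : Place k L} (h : Rd W Q P) (h' : Rd W Q P') : P = P' := by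
  by_contra hne
  obtain ⟨f, hf, hf'⟩ := FF.exists_mem_notMem hL hne
  obtain ⟨c, hc⟩ := exists_res hL hf
  have h1 : IsRes P (f - algebraMap k L c) 0 := isRes_zero_iff.mpr hc
  have h2 : f - algebraMap k L c ∉ P'.ring := by
    intro h3
    apply hf'
    have := P'.ring.add_mem _ _ h3 (P'.algebraMap_mem c)
    rwa [sub_add_cancel] at this
  have h0 : f - algebraMap k L c ≠ 0 := by
    intro h3
    apply h2
    rw [h3]
    exact P'.ring.zero_mem
  have h4 : IsRes P' (f - algebraMap k L c)⁻¹ 0 := by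
    rw [isRes_zero_iff, ValuationSubring.inv_mem_nonunits_iff]
    exact Or.inr h2
  obtain ⟨y, hy, hyW⟩ := h _ _ h1
  obtain ⟨z, hz, hzW⟩ := h' _ _ h4
  have h5 := hy.mul hz
  rw [← map_mul, mul_inv_cancel₀ h0, map_one] at h5
  have h6 : IsRes Q (1 : M) (1 : Ω) := by
    have := isRes_const (v := Q) (1 : Ω)
    rwa [map_one] at this
  have h7 : y * z = 1 := h5.unique h6
  have h8 := hyW.mul hzW
  rw [h7, mul_zero] at h8
  have h9 : IsRes W (1 : Ω) (1 : k) := by
    have := isRes_const (v := W) (1 : k)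
    rwa [map_one] at this
  exact one_ne_zero (h9.unique h8)

/-- The reduction of an element of `Ω ⊗ L`. -/
private lemma red_tensor_52 (hM : FF.IsConstExt k Ω L M) (hL : IsFunctionField k L) {W : Place k Ω}
    (hW : Full W) {s : TensorProduct k Ω L} (hs : s ≠ 0) :
    ∃ (κ : Ω) (hb : L), κ ≠ 0 ∧ hb ≠ 0 ∧ {x : Place k L | ¬ (∃ y : Ω,
      IsRes (FF.ab hM hL x) (FF.prodMap k Ω L M s) y ∧ rs x hb ≠ 0 ∧
      IsRes W (κ * y) (rs x hb))}.Finite := by
  classical
  let B := Module.Basis.ofVectorSpace k L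
  let b' := Algebra.TensorProduct.basis Ω B
  set r := b'.repr s with hr
  have hr0 : r ≠ 0 := by
    intro h
    apply hs
    rw [hr] at h
    exact (LinearEquiv.map_eq_zero_iff b'.repr).mp h
  have hs1 : FF.prodMap k Ω L M s =
      ∑ i ∈ r.support, algebraMap L M (B i) * algebraMap Ω M (r i) := by
    conv_lhs => rw [← b'.linearCombination_repr s]
    rw [Finsupp.linearCombination_apply, Finsupp.sum, map_sum]
    apply Finset.sum_congr rfl
    intro i _
    rw [Algebra.TensorProduct.basis_apply, TensorProduct.smul_tmul', smul_eq_mul, mul_one,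
      FF.prodMap_tmul, mul_comm]
  obtain ⟨i₀, hi₀, hmax⟩ := Finset.exists_max_image r.support (fun i => W.ring.valuation (r i))
    (Finsupp.support_nonempty_iff.mpr hr0)
  have hri₀ : r i₀ ≠ 0 := Finsupp.mem_support_iff.mp hi₀
  have ha : ∀ i ∈ r.support, (r i₀)⁻¹ * r i ∈ W.ring := by
    intro i hi
    rw [← ValuationSubring.valuation_le_one_iff, map_mul, map_inv₀]
    have h1 := hmax i hi
    have h2 : W.ring.valuation (r i₀) ≠ 0 := (Valuation.ne_zero_iff _).mpr hri₀
    exact inv_mul_le_one_of_le₀ h1 zero_le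
  have ha' : ∀ i, ∃ c : k, i ∈ r.support → IsRes W ((r i₀)⁻¹ * r i) c := by
    intro i
    by_cases hi : i ∈ r.support
    · obtain ⟨c, hc⟩ := hW _ (ha i hi)
      exact ⟨c, fun _ => hc⟩
    · exact ⟨0, fun h => absurd h hi⟩
  choose c hc using ha'
  have hci₀ : c i₀ = 1 := by
    have h1 := hc i₀ hi₀
    rw [inv_mul_cancel₀ hri₀] at h1
    have h9 : IsRes W (1 : Ω) (1 : k) := by
      have := isRes_const (v := W) (1 : k)
      rwa [map_one] at this
    exact h1.unique h9
  set hb : L := ∑ i ∈ r.support, B i * algebraMap k L (c i) with hhb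
  have hb0 : hb ≠ 0 := by
    intro h
    have h1 : ∑ i ∈ r.support, c i • B i = 0 := by
      rw [← h, hhb]
      apply Finset.sum_congr rfl
      intro i _
      rw [Algebra.smul_def, mul_comm]
    have h2 := (linearIndependent_iff'.mp B.linearIndependent) r.support c h1 i₀ hi₀
    rw [hci₀] at h2
    exact one_ne_zero h2
  refine ⟨(r i₀)⁻¹, hb, inv_ne_zero hri₀, hb0, ?_⟩
  have hfin : ({x : Place k L | ord x.ring hb ≠ 0} ∪
      ⋃ i ∈ r.support, {x : Place k L | ord x.ring (B i) ≠ 0}).Finite := by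
    apply Set.Finite.union (FF.finite_support_ord hL hb0)
    apply Set.Finite.biUnion (Finset.finite_toSet _)
    intro i _
    exact FF.finite_support_ord hL (B.ne_zero i)
  apply hfin.subset
  intro x hx
  by_contra hx'
  apply hx
  rw [Set.mem_union, not_or] at hx'
  obtain ⟨hx1, hx2⟩ := hx'
  have hx1' : ord x.ring hb = 0 := by
    by_contra h
    exact hx1 h
  have hx2' : ∀ i ∈ r.support, ord x.ring (B i) = 0 := by
    intro i hi
    by_contra h
    apply hx2
    rw [Set.mem_iUnion₂]
    exact ⟨i, hi, h⟩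
  have hreg : ∀ i ∈ r.support, IsRes x (B i) (rs x (B i)) := by
    intro i hi
    apply VB.isRes_rs hL
    rw [← FF.ord_nonneg_iff hL x (B.ne_zero i), hx2' i hi]
  have h1 : IsRes x hb (∑ i ∈ r.support, rs x (B i) * c i) :=
    IsRes.sum _ (fun i hi => (hreg i hi).mul (isRes_const (c i)))
  have h2 : IsRes (FF.ab hM hL x) (FF.prodMap k Ω L M s)
      (∑ i ∈ r.support, algebraMap k Ω (rs x (B i)) * r i) := by
    rw [hs1]
    exact IsRes.sum _ (fun i hi =>
      (over_rd_52 (W := W) (FF.ab_over hM hL x) _ _ (hreg i hi)).1.mul (isRes_const (r i)))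
  refine ⟨_, h2, rs_ne_zero hL hb0 hx1', ?_⟩
  rw [VB.rs_eq h1, Finset.mul_sum]
  have h3 : ∀ i ∈ r.support, IsRes W ((r i₀)⁻¹ * (algebraMap k Ω (rs x (B i)) * r i))
      (rs x (B i) * c i) := by
    intro i hi
    have h4 : (r i₀)⁻¹ * (algebraMap k Ω (rs x (B i)) * r i) =
        algebraMap k Ω (rs x (B i)) * ((r i₀)⁻¹ * r i) := by ring
    rw [h4]
    exact (isRes_const _).mul (hc i hi)
  exact IsRes.sum _ h3

theorem exists_red (hM : FF.IsConstExt k Ω L M) (hL : IsFunctionField k L) {W : Place k Ω}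
    (hW : Full W) {h : M} (hh : h ≠ 0) :
    ∃ (κ : Ω) (hb : L), κ ≠ 0 ∧ hb ≠ 0 ∧ {x : Place k L | ¬ (rs x hb ≠ 0 ∧
      IsRes W (κ * rs (FF.ab hM hL x) h) (rs x hb))}.Finite := by
  have hchar : CharZero Ω := charZero_of_injective_algebraMap (algebraMap k Ω).injective
  obtain ⟨s, t, ht, hst⟩ := hM.frac h
  have ht0 : t ≠ 0 := by
    rintro rfl
    exact ht (map_zero _)
  have hs0 : s ≠ 0 := by
    rintro rfl
    rw [map_zero] at hst
    exact mul_ne_zero hh ht hst
  obtain ⟨κ, a, hκ, ha, hfin⟩ := red_tensor_52 hM hL hW hs0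
  obtain ⟨κ', a', hκ', ha', hfin'⟩ := red_tensor_52 hM hL hW ht0
  refine ⟨κ / κ', a / a', div_ne_zero hκ hκ', div_ne_zero ha ha', ?_⟩
  apply (hfin.union hfin').subset
  intro x hx
  by_contra hx'
  apply hx
  rw [Set.mem_union, not_or] at hx'
  obtain ⟨hx1, hx2⟩ := hx'
  obtain ⟨y, hy, hyr, hyW⟩ := not_not.mp hx1
  obtain ⟨z, hz, hzr, hzW⟩ := not_not.mp hx2
  have h1 : IsRes x (a / a') (rs x a / rs x a') := by
    rw [div_eq_mul_inv, div_eq_mul_inv]
    exact (VB.isRes_rs hL (VB.mem_of_rs hyr)).mul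
      (inv_52 (VB.isRes_rs hL (VB.mem_of_rs hzr)) hzr)
  have hz0 : z ≠ 0 := by
    rintro rfl
    rw [mul_zero] at hzW
    have h2 : IsRes W (0 : Ω) (0 : k) := by
      have := isRes_const (v := W) (0 : k)
      rwa [map_zero] at this
    exact hzr (hzW.unique h2)
  have h3 : IsRes (FF.ab hM hL x) h (y / z) := by
    have h4 : h = FF.prodMap k Ω L M s * (FF.prodMap k Ω L M t)⁻¹ := by
      rw [← hst, mul_assoc, mul_inv_cancel₀ ht, mul_one]
    have h5 := hy.mul (inv_52 hz hz0)
    rw [h4, div_eq_mul_inv]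
    exact h5
  rw [VB.rs_eq h1, VB.rs_eq h3]
  refine ⟨div_ne_zero hyr hzr, ?_⟩
  have h6 : κ / κ' * (y / z) = (κ * y) * (κ' * z)⁻¹ := by
    field_simp
  rw [h6, div_eq_mul_inv]
  exact hyW.mul (inv_52 hzW hzr)

end Pool.Agent.Helper51.IZ
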