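import Mathlib
import Pool.Agent.Helper51.IZ.Rec
import Pool.Agent.Helper51.IZ.Red

/-!
# Block IZ-FAMA: the divisor of a tuple over the algebraically closed field `Ω`

* `exists_om_div`: `M` is a function field over `Ω` (`hM.isFunctionField hL`) of genus `g` (`FF.isGenus_constExt`). The
  divisor `X = ∑ ab (T i) + ∑ j ∈ S, (G j - ab T0)` has degree `g`, so `ell X ≥ 1` (`FF.ell_ge`), and
  `FF.exists_effective`, `FF.exists_tdiv` give `Q` and `h` (`FF.deg_dv`).
* `exists_bp`: `hM.over_or_gen hL Q`.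
* `exists_om_root`: `Q i` corresponds to `b i`. Choose any `v i` with `v i ^ m = (b i).ev f` (`IsAlgClosed.exists_pow_nat_eq`).
  If some `b i` is a constant place `P` with `E P ≠ 0` the last condition is void. Otherwise we can apply Weil
  reciprocity `weil` over `Ω` to `algebraMap f` and `h`: `dv (algebraMap f) = FF.lift (dv f) = - m • FF.lift E` has
  support in the `ab P`, `E P ≠ 0`, and `h` has order `0` there: the places `Q i`, `ab (T i)`, `G j`, `ab T0` are not such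
  places (`FF.not_over_of_gen` for `Gen`; `FF.ab_injective`, `FF.eq_ab`). The values of `algebraMap f` are: `(b i).ev f`
  at `Q i` (`rs_bp`), `rs (T i) f` at `ab (T i)`, `φ j f` at `G j`. So (`vl_add`, `vl_single`, `vl_smul`)
  `∏ (b i).ev f * (∏ rs (T i) f)⁻¹ * ∏ j ∈ S, (rs T0 f / φ j f) = (vl h (lift E)) ^ (- m)`, i. e. the `m`-th powers of the
  two sides of the last equation are equal (all are nonzero), and the quotient is an `m`-th root of unity,
  by which we multiply `v i₀` (`g ≠ 0`). `f` has order `0` at `T i`, `T0` since `ord f = - m E`.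
-/

set_option linter.unusedSectionVars false

namespace Pool.Agent.Helper51.IZ

open VC VF Function
open Pool.Agent.Helper51.VB (rs BP)

universe u

variable {k Ω L M : Type u} [Field k] [IsAlgClosed k] [CharZero k] [Field Ω] [IsAlgClosed Ω]
  [Field L] [Field M] [Algebra k Ω] [Algebra k L] [Algebra Ω M] [Algebra L M] [Algebra k M]
  [IsScalarTower k Ω M] [IsScalarTower k L M]

theorem exists_om_div (hM : FF.IsConstExt k Ω L M) (hL : IsFunctionField k L) {g : ℕ}
    (hg : IsGenus k L g) (T : Fin g → Place k L) (T0 : Place k L) {ι : Type*} (S : Finset ι)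
    (G : ι → Place Ω M) :
    ∃ (h : M) (Q : Fin g → Place Ω M), h ≠ 0 ∧ FF.dv (hM.isFunctionField hL) h =
      ∑ i, Finsupp.single (Q i) 1 - ∑ i, Finsupp.single (FF.ab hM hL (T i)) 1 -
        ∑ j ∈ S, (Finsupp.single (G j) 1 - Finsupp.single (FF.ab hM hL T0) 1) := by
  have hMF := hM.isFunctionField hL
  have hgM : IsGenus Ω M g := FF.isGenus_constExt hM hL hg
  obtain ⟨X, hX⟩ : ∃ X : Place Ω M →₀ ℤ, X = ∑ i, Finsupp.single (FF.ab hM hL (T i)) 1 +
      ∑ j ∈ S, (Finsupp.single (G j) 1 - Finsupp.single (FF.ab hM hL T0) 1) := ⟨_, rfl⟩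
  have hdX : FF.deg X = g := by
    rw [hX, map_add, map_sum, map_sum]
    simp
  have hell := FF.ell_ge hgM X
  rw [hdX] at hell
  obtain ⟨D, h, hh, hD0, hD⟩ := FF.exists_effective hMF (X := X) (by omega)
  have hdD : FF.deg D = g := by
    rw [hD, map_add, hdX, FF.deg_dv hMF hh, add_zero]
  obtain ⟨Q, hQ⟩ := FF.exists_tdiv g D hD0 hdD
  refine ⟨h, Q, hh, ?_⟩
  have e : FF.dv hMF h = D - X := by
    rw [hD]
    abel
  rw [e, hQ, hX]
  unfold FF.tdiv
  abel

/-- The place `Q` of `M` is given by the point `b` of the curve with coordinates in `Ω`. -/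
def Bp (Q : Place Ω M) (b : BP k L Ω) : Prop :=
  match b with
  | .cst P => FF.Over Q P
  | .emb φ => FF.Gen Q φ

theorem exists_bp (hM : FF.IsConstExt k Ω L M) (hL : IsFunctionField k L) (Q : Place Ω M) :
    ∃ b : BP k L Ω, Bp Q b := by
  rcases hM.over_or_gen hL Q with ⟨P, hP⟩ | ⟨φ, hφ⟩
  · exact ⟨.cst P, hP⟩
  · exact ⟨.emb φ, hφ⟩

/-- The value of a function of `L` at `Q`. -/
theorem rs_bp (hM : FF.IsConstExt k Ω L M) (hL : IsFunctionField k L) {Q : Place Ω M}
    {b : BP k L Ω} (h : Bp Q b) {f : L} (hf : ∀ P, b = .cst P → f ∈ P.ring) :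
    IsRes Q (algebraMap L M f) (b.ev f) := by
  cases b with
  | cst P =>
    have h1 : IsRes P f (rs P f) := VB.isRes_rs hL (hf P rfl)
    have hP : FF.Over Q P := h
    unfold IsRes at h1 ⊢
    have e : algebraMap L M f - algebraMap Ω M (BP.ev (.cst P) f) =
        algebraMap L M (f - algebraMap k L (rs P f)) := by
      have e1 : (BP.ev (.cst P) f : Ω) = algebraMap k Ω (rs P f) := rfl
      rw [e1, map_sub, ← IsScalarTower.algebraMap_apply, ← IsScalarTower.algebraMap_apply]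
    rw [e]
    exact (hP.nonunits _).mpr h1
  | emb φ => exact h f

section nz56

variable {Ω' M' : Type u} [Field Ω'] [IsAlgClosed Ω'] [CharZero Ω'] [Field M'] [Algebra Ω' M']

private def Nz56 (F : M') (A : Place Ω' M' →₀ ℤ) : Prop := ∀ P, A P ≠ 0 → rs P F ≠ 0

private theorem nz_single56 {F : M'} {P : Place Ω' M'} (h : rs P F ≠ 0) (n : ℤ) :
    Nz56 F (Finsupp.single P n) := by
  classical
  intro P' hP'
  rw [Finsupp.single_apply] at hP'
  by_cases e : P = P'
  · rw [← e]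
    exact h
  · rw [if_neg e] at hP'
    exact absurd rfl hP'

private theorem nz_sub56 {F : M'} {A B : Place Ω' M' →₀ ℤ} (hA : Nz56 F A) (hB : Nz56 F B) :
    Nz56 F (A - B) := by
  intro P hP
  by_cases h : A P = 0
  · refine hB P fun h' => hP ?_
    rw [Finsupp.sub_apply, h, h', sub_zero]
  · exact hA P h

private theorem vl_sub56 {F : M'} {A B : Place Ω' M' →₀ ℤ} (hA : Nz56 F A) (hB : Nz56 F B) :
    vl F (A - B) = vl F A * (vl F B)⁻¹ := by
  rw [sub_eq_add_neg, vl_add hA (B := -B) (fun P hP => hB P fun h => hP (by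
    rw [Finsupp.neg_apply, h, neg_zero])), vl_neg]

private theorem nz_sum56 {F : M'} {ι : Type*} (s : Finset ι) {A : ι → (Place Ω' M' →₀ ℤ)}
    (hA : ∀ i ∈ s, Nz56 F (A i)) : Nz56 F (∑ i ∈ s, A i) := by
  intro P hP
  rw [Finsupp.finsetSum_apply] at hP
  obtain ⟨i, hi, h⟩ := Finset.exists_ne_zero_of_sum_ne_zero hP
  exact hA i hi P h

private theorem vl_sum56 {F : M'} {ι : Type*} (s : Finset ι) {A : ι → (Place Ω' M' →₀ ℤ)}
    (hA : ∀ i ∈ s, Nz56 F (A i)) : vl F (∑ i ∈ s, A i) = ∏ i ∈ s, vl F (A i) := by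
  classical
  induction s using Finset.induction_on with
  | empty => rw [Finset.sum_empty, Finset.prod_empty, vl_zero]
  | insert a s ha ih =>
    rw [Finset.sum_insert ha, Finset.prod_insert ha,
      vl_add (hA a (Finset.mem_insert_self _ _))
        (nz_sum56 s fun i hi => hA i (Finset.mem_insert_of_mem hi)),
      ih fun i hi => hA i (Finset.mem_insert_of_mem hi)]

private theorem vl_single56 (F : M') (P : Place Ω' M') : vl F (Finsupp.single P 1) = rs P F := by
  rw [vl_single, zpow_one]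

end nz56

theorem exists_om_root (hM : FF.IsConstExt k Ω L M) (hL : IsFunctionField k L) {g : ℕ}
    (hg0 : g ≠ 0) {E : Place k L →₀ ℤ} {f : L} (hf : f ≠ 0) {m : ℕ} (hm : m ≠ 0)
    (hfE : ∀ P : Place k L, ord P.ring f = -(m * E P)) {T : Fin g → Place k L}
    (hT : ∀ i, E (T i) = 0) {T0 : Place k L} (hT0 : E T0 = 0) {lam rho : k}
    (hlam : lam ^ m = ∏ i, rs (T i) f) (hrho : rho ^ m = rs T0 f) {ι : Type*} (S : Finset ι)
    {φ : ι → (L →ₐ[k] Ω)} {G : ι → Place Ω M} (hG : ∀ j, FF.Gen (G j) (φ j)) {r : ι → Ω}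
    (hr : ∀ j, r j ^ m = φ j f) {h : M} (hh : h ≠ 0) {Q : Fin g → Place Ω M}
    (hQ : FF.dv (hM.isFunctionField hL) h =
      ∑ i, Finsupp.single (Q i) 1 - ∑ i, Finsupp.single (FF.ab hM hL (T i)) 1 -
        ∑ j ∈ S, (Finsupp.single (G j) 1 - Finsupp.single (FF.ab hM hL T0) 1))
    {b : Fin g → BP k L Ω} (hb : ∀ i, Bp (Q i) (b i)) :
    ∃ v : Fin g → Ω, (∀ i, v i ^ m = (b i).ev f) ∧ ((∀ i P, b i = .cst P → E P = 0) →
      (∏ i, v i) * vl h (FF.lift hM hL E) =
        algebraMap k Ω lam * ∏ j ∈ S, (r j / algebraMap k Ω rho)) := by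
  classical
  have hcz : CharZero Ω := charZero_of_injective_algebraMap (algebraMap k Ω).injective
  have hMF := hM.isFunctionField hL
  have hmpos : 0 < m := Nat.pos_of_ne_zero hm
  have hex : ∀ i, ∃ z : Ω, z ^ m = (b i).ev f := fun i => IsAlgClosed.exists_pow_nat_eq _ hmpos
  choose v₀ hv₀ using hex
  by_cases hE : ∀ i P, b i = .cst P → E P = 0
  swap
  · exact ⟨v₀, hv₀, fun h => absurd h hE⟩
  have hord : ∀ P : Place k L, E P = 0 → ord P.ring f = 0 := by
    intro P hP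
    rw [hfE, hP, mul_zero, neg_zero]
  have hmem : ∀ P : Place k L, E P = 0 → f ∈ P.ring := by
    intro P hP
    rw [← ord_nonneg_iff hL P hf, hord P hP]
  have hF0 : algebraMap L M f ≠ 0 := (_root_.map_ne_zero _).mpr hf
  have hdvf : FF.dv hL f = (-(m : ℤ)) • E := by
    ext P
    rw [FF.dv_apply, hfE, Finsupp.smul_apply, smul_eq_mul]
    ring
  have hdvF : FF.dv hMF (algebraMap L M f) = (-(m : ℤ)) • FF.lift hM hL E := by
    rw [← FF.lift_dv hM hL hf, hdvf, map_zsmul]
  have hordF : ∀ P : Place Ω M, FF.lift hM hL E P = 0 → ord P.ring (algebraMap L M f) = 0 := by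
    intro P hP
    rw [← FF.dv_apply hMF, hdvF, Finsupp.smul_apply, hP, smul_zero]
  have hQE : ∀ i, FF.lift hM hL E (Q i) = 0 := by
    intro i
    have h1 := hb i
    have h2 := hE i
    cases hbi : b i with
    | cst P =>
      rw [hbi] at h1
      have h3 : FF.Over (Q i) P := h1
      rw [FF.eq_ab hM hL h3, FF.lift_ab]
      exact h2 P hbi
    | emb ψ =>
      rw [hbi] at h1
      exact FF.lift_gen hM hL E h1
  have hTE : ∀ i, FF.lift hM hL E (FF.ab hM hL (T i)) = 0 := by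
    intro i
    rw [FF.lift_ab]
    exact hT i
  have hT0E : FF.lift hM hL E (FF.ab hM hL T0) = 0 := by
    rw [FF.lift_ab]
    exact hT0
  have hGE : ∀ j, FF.lift hM hL E (G j) = 0 := fun j => FF.lift_gen hM hL E (hG j)
  have hrsne : ∀ P : Place Ω M, FF.lift hM hL E P = 0 → rs P (algebraMap L M f) ≠ 0 := fun P hP =>
    rs_ne_zero hMF hF0 (hordF P hP)
  -- disjoint supports
  have hdis : ∀ P : Place Ω M, ord P.ring (algebraMap L M f) = 0 ∨ ord P.ring h = 0 := by
    intro P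
    by_cases hP : FF.lift hM hL E P = 0
    · exact Or.inl (hordF P hP)
    · right
      have hs : ∀ P' : Place Ω M, FF.lift hM hL E P' = 0 →
          (Finsupp.single P' (1 : ℤ)) P = 0 := by
        intro P' hP'
        rw [Finsupp.single_apply, if_neg]
        rintro rfl
        exact hP hP'
      rw [← FF.dv_apply hMF, hQ, Finsupp.sub_apply, Finsupp.sub_apply, Finsupp.finsetSum_apply,
        Finsupp.finsetSum_apply, Finsupp.finsetSum_apply,
        Finset.sum_eq_zero fun i _ => hs _ (hQE i), Finset.sum_eq_zero fun i _ => hs _ (hTE i),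
        Finset.sum_eq_zero fun j _ => ?_, sub_zero, sub_zero]
      rw [Finsupp.sub_apply, hs _ (hGE j), hs _ hT0E, sub_zero]
  have hweil := weil hMF hF0 hh hdis
  -- the values of `f`
  have vQ : ∀ i, rs (Q i) (algebraMap L M f) = (b i).ev f := fun i =>
    VB.rs_eq (rs_bp hM hL (hb i) fun P hP => hmem P (hE i P hP))
  have vab : ∀ P : Place k L, E P = 0 →
      rs (FF.ab hM hL P) (algebraMap L M f) = algebraMap k Ω (rs P f) := by
    intro P hP
    have h1 : Bp (FF.ab hM hL P) (.cst P : BP k L Ω) := FF.ab_over hM hL P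
    exact VB.rs_eq (rs_bp hM hL h1 fun P' hP' => by
      have e : P = P' := by injection hP'
      rw [← e]
      exact hmem P hP)
  have vG : ∀ j, rs (G j) (algebraMap L M f) = φ j f := by
    intro j
    have h1 : Bp (G j) (.emb (φ j) : BP k L Ω) := hG j
    exact VB.rs_eq (rs_bp hM hL h1 fun P' hP' => by injection hP')
  have hval : vl (algebraMap L M f) (FF.dv hMF h) = (∏ i, (b i).ev f) *
      (algebraMap k Ω (∏ i, rs (T i) f))⁻¹ *
        (∏ j ∈ S, (φ j f * (algebraMap k Ω (rs T0 f))⁻¹))⁻¹ := by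
    have n1 : Nz56 (algebraMap L M f) (∑ i, Finsupp.single (Q i) 1) :=
      nz_sum56 _ fun i _ => nz_single56 (hrsne _ (hQE i)) 1
    have n2 : Nz56 (algebraMap L M f) (∑ i, Finsupp.single (FF.ab hM hL (T i)) 1) :=
      nz_sum56 _ fun i _ => nz_single56 (hrsne _ (hTE i)) 1
    have n3 : ∀ j ∈ S, Nz56 (algebraMap L M f)
        (Finsupp.single (G j) 1 - Finsupp.single (FF.ab hM hL T0) 1) := fun j _ =>
      nz_sub56 (nz_single56 (hrsne _ (hGE j)) 1) (nz_single56 (hrsne _ hT0E) 1)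
    rw [hQ, vl_sub56 (nz_sub56 n1 n2) (nz_sum56 S n3), vl_sub56 n1 n2,
      vl_sum56 _ fun i _ => nz_single56 (hrsne _ (hQE i)) 1,
      vl_sum56 _ fun i _ => nz_single56 (hrsne _ (hTE i)) 1, vl_sum56 S n3]
    congr 1
    · congr 1
      · exact Finset.prod_congr rfl fun i _ => by rw [vl_single56, vQ]
      · rw [map_prod]
        congr 1
        exact Finset.prod_congr rfl fun i _ => by rw [vl_single56, vab _ (hT i)]
    · congr 1
      exact Finset.prod_congr rfl fun j _ => by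
        rw [vl_sub56 (nz_single56 (hrsne _ (hGE j)) 1) (nz_single56 (hrsne _ hT0E) 1),
          vl_single56, vl_single56, vG, vab _ hT0]
  rw [hval, hdvF, vl_smul] at hweil
  obtain ⟨V, hV⟩ : ∃ V : Ω, V = vl h (FF.lift hM hL E) := ⟨_, rfl⟩
  rw [← hV] at hweil ⊢
  have ha0 : ∀ i, (b i).ev f ≠ 0 := fun i => by
    rw [← vQ i]
    exact hrsne _ (hQE i)
  have hv0 : ∀ i, v₀ i ≠ 0 := fun i h0 => ha0 i (by rw [← hv₀ i, h0, zero_pow hm])
  have hrho0 : algebraMap k Ω rho ≠ 0 := by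
    intro h0
    have h1 : algebraMap k Ω (rs T0 f) = 0 := by rw [← hrho, map_pow, h0, zero_pow hm]
    exact hrsne _ hT0E (by rw [vab _ hT0, h1])
  have hlam0 : algebraMap k Ω lam ≠ 0 := by
    intro h0
    have h1 : algebraMap k Ω (∏ i, rs (T i) f) = 0 := by rw [← hlam, map_pow, h0, zero_pow hm]
    rw [map_prod] at h1
    obtain ⟨i, -, hi⟩ := Finset.prod_eq_zero_iff.mp h1
    exact hrsne _ (hTE i) (by rw [vab _ (hT i), hi])
  have hr0 : ∀ j, r j ≠ 0 := by
    intro j h0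
    have h1 : φ j f = 0 := by rw [← hr, h0, zero_pow hm]
    exact hrsne _ (hGE j) (by rw [vG, h1])
  obtain ⟨W, hW⟩ : ∃ W : Ω, W = algebraMap k Ω lam * ∏ j ∈ S, (r j / algebraMap k Ω rho) :=
    ⟨_, rfl⟩
  have hW0 : W ≠ 0 := by
    rw [hW]
    exact mul_ne_zero hlam0 (Finset.prod_ne_zero_iff.mpr fun j _ => div_ne_zero (hr0 j) hrho0)
  have hWm : W ^ m = algebraMap k Ω (∏ i, rs (T i) f) *
      ∏ j ∈ S, (φ j f * (algebraMap k Ω (rs T0 f))⁻¹) := by
    rw [hW, mul_pow, ← Finset.prod_pow, ← hlam, map_pow]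
    congr 1
    exact Finset.prod_congr rfl fun j _ => by rw [div_pow, hr, ← map_pow, hrho, div_eq_mul_inv]
  have hP0 : (∏ i, v₀ i) ≠ 0 := Finset.prod_ne_zero_iff.mpr fun i _ => hv0 i
  have hPm : (∏ i, v₀ i) ^ m = ∏ i, (b i).ev f := by
    rw [← Finset.prod_pow]
    exact Finset.prod_congr rfl fun i _ => hv₀ i
  rw [← hPm, mul_assoc, ← mul_inv, ← hWm, zpow_neg, zpow_natCast] at hweil
  have hV0 : V ≠ 0 := by
    intro h0
    rw [h0, zero_pow hm, inv_zero] at hweil
    exact mul_ne_zero (pow_ne_zero _ hP0) (inv_ne_zero (pow_ne_zero _ hW0)) hweil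
  have hkey : ((∏ i, v₀ i) * V) ^ m = W ^ m := by
    have hVm : V ^ m ≠ 0 := pow_ne_zero _ hV0
    have hWm0 : W ^ m ≠ 0 := pow_ne_zero _ hW0
    rw [mul_pow]
    calc (∏ i, v₀ i) ^ m * V ^ m = ((∏ i, v₀ i) ^ m * (W ^ m)⁻¹) * (W ^ m * V ^ m) := by
          field_simp
      _ = (V ^ m)⁻¹ * (W ^ m * V ^ m) := by rw [hweil]
      _ = W ^ m := by field_simp
  obtain ⟨ζ, hζ⟩ : ∃ ζ : Ω, ζ = W / ((∏ i, v₀ i) * V) := ⟨_, rfl⟩
  have hPV0 : (∏ i, v₀ i) * V ≠ 0 := mul_ne_zero hP0 hV0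
  have hζm : ζ ^ m = 1 := by
    rw [hζ, div_pow, hkey, div_self (pow_ne_zero _ hW0)]
  have hζW : ζ * ((∏ i, v₀ i) * V) = W := by
    rw [hζ, div_mul_cancel₀ _ hPV0]
  refine ⟨fun i => (if i = ⟨0, Nat.pos_of_ne_zero hg0⟩ then ζ else 1) * v₀ i, fun i => ?_,
    fun _ => ?_⟩
  · rw [mul_pow, hv₀]
    by_cases hi : i = ⟨0, Nat.pos_of_ne_zero hg0⟩
    · rw [if_pos hi, hζm, one_mul]
    · rw [if_neg hi, one_pow, one_mul]
  · rw [← hW, ← hζW, Finset.prod_mul_distrib, Finset.prod_ite_eq' Finset.univ _ (fun _ => ζ),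
      if_pos (Finset.mem_univ _), mul_assoc]

end Pool.Agent.Helper51.IZ
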