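import Mathlib
import Pool.Agent.Helper51.IZ.Vl
import Pool.Agent.Helper17.FF.Approx

/-!
# Block IZ-IND: a divisor on which all functions have the value one

`A = 0` if `vl φ A = 1` for all functions `φ ≠ 0` whose divisors avoid `A` and a finite set `S`. If `A P₁ ≠ 0`,
choose by `FF.approx` (with `y P₁ = 2`, `y P = 1` for the other `P ∈ A.support ∪ S`, `r = 0`) a function `φ` with
`IsRes P₁ φ 2` and `IsRes P φ 1` for the others (`val (φ - y P) < exp 0 = 1` means nonunit, `FF.val_lt_one_iff`).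
Then `vl φ A = 2 ^ (A P₁)`, which is not `1` in characteristic zero.
-/

set_option linter.unusedSectionVars false

namespace Pool.Agent.Helper51.IZ

open VC VF Function
open Pool.Agent.Helper51.VB (rs)

universe u

variable {k L : Type u} [Field k] [IsAlgClosed k] [CharZero k] [Field L] [Algebra k L]

private theorem exists_values34 (hL : IsFunctionField k L) (S : Finset (Place k L)) (y : Place k L → k) :
    ∃ φ : L, ∀ P ∈ S, IsRes P φ (y P) := by
  obtain ⟨φ, hφ⟩ := FF.approx hL S (fun P => algebraMap k L (y P)) 0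
  refine ⟨φ, fun P hP => ?_⟩
  unfold IsRes
  rw [← FF.val_lt_one_iff hL]
  have := hφ P hP
  rwa [WithZero.exp_zero] at this

theorem eq_zero_of_vl (hL : IsFunctionField k L) {A : Place k L →₀ ℤ} (S : Finset (Place k L))
    (h : ∀ φ : L, φ ≠ 0 → (∀ P ∈ S, ord P.ring φ = 0) → (∀ P, A P ≠ 0 → ord P.ring φ = 0) →
      vl φ A = 1) : A = 0 := by
  classical
  by_contra hA
  obtain ⟨P₁, hP₁⟩ : ∃ P₁, A P₁ ≠ 0 := by
    by_contra hcon
    push Not at hcon
    exact hA (Finsupp.ext hcon)
  obtain ⟨φ, hφ⟩ := exists_values34 hL (A.support ∪ S) (fun P => if P = P₁ then (2 : k) else 1)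
  have hne : ∀ P : Place k L, (if P = P₁ then (2 : k) else 1) ≠ 0 := by
    intro P
    split_ifs
    · exact two_ne_zero
    · exact one_ne_zero
  have hres : ∀ P ∈ A.support ∪ S, rs P φ = if P = P₁ then (2 : k) else 1 := fun P hP =>
    Pool.Agent.Helper51.VB.rs_eq (hφ P hP)
  have hord : ∀ P ∈ A.support ∪ S, ord P.ring φ = 0 := by
    intro P hP
    apply Pool.Agent.Helper51.VB.ord_of_rs hL
    rw [hres P hP]
    exact hne P
  have hmem : P₁ ∈ A.support := Finsupp.mem_support_iff.2 hP₁
  have hφ0 : φ ≠ 0 := (hφ P₁ (Finset.mem_union_left _ hmem)).ne_zero (hne P₁)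
  have h1 := h φ hφ0 (fun P hP => hord P (Finset.mem_union_right _ hP))
    fun P hP => hord P (Finset.mem_union_left _ (Finsupp.mem_support_iff.2 hP))
  have h2 : vl φ A = (2 : k) ^ (A P₁) := by
    unfold vl Finsupp.prod
    rw [Finset.prod_eq_single P₁]
    · change rs P₁ φ ^ (A P₁) = _
      rw [hres P₁ (Finset.mem_union_left _ hmem), if_pos rfl]
    · intro P hP hPP
      change rs P φ ^ (A P) = 1
      rw [hres P (Finset.mem_union_left _ hP), if_neg hPP, one_zpow]
    · intro hcon
      exact absurd hmem hcon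
  rw [h2] at h1
  have h3 : (2 : ℚ) ^ (A P₁) = 1 := by
    have h4 : (((2 : ℚ) ^ (A P₁) : ℚ) : k) = ((1 : ℚ) : k) := by
      push_cast
      exact h1
    exact Rat.cast_injective h4
  rw [zpow_eq_one_iff_right₀ (by norm_num) (by norm_num)] at h3
  exact hP₁ h3

/-- Functions with given nonzero values at finitely many places. -/
theorem exists_values (hL : IsFunctionField k L) (S : Finset (Place k L)) (y : Place k L → k) :
    ∃ φ : L, ∀ P ∈ S, IsRes P φ (y P) := by
  exact exists_values34 hL S y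

/-- A function with a simple zero at `P₀`, and a unit at the other places of a finite set. -/
theorem exists_simple_zero (hL : IsFunctionField k L) (S : Finset (Place k L)) (P₀ : Place k L) :
    ∃ φ : L, φ ≠ 0 ∧ ord P₀.ring φ = 1 ∧ ∀ P ∈ S, P ≠ P₀ → ord P.ring φ = 0 := by
  classical
  obtain ⟨π, hπ0, hπ⟩ := FF.exists_uniformizer hL P₀
  obtain ⟨z, hz⟩ := FF.approx hL (insert P₀ S) (fun P => if P = P₀ then π else 1) (-1)
  have hz0 := hz P₀ (Finset.mem_insert_self _ _)
  simp only [if_true] at hz0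
  have hvπ : FF.val hL P₀ π = WithZero.exp (-1 : ℤ) := (FF.ord_eq_iff hL P₀ hπ0 1).1 hπ
  have hvz : FF.val hL P₀ z = WithZero.exp (-1 : ℤ) := by
    have h1 : z = π + (z - π) := by ring
    rw [h1, Valuation.map_add_eq_of_lt_left _ (by rw [hvπ]; exact hz0), hvπ]
  have hzne : z ≠ 0 := by
    rintro rfl
    rw [map_zero] at hvz
    exact WithZero.exp_ne_zero hvz.symm
  refine ⟨z, hzne, (FF.ord_eq_iff hL P₀ hzne 1).2 hvz, fun P hP hPP => ?_⟩
  have hz1 := hz P (Finset.mem_insert_of_mem hP)
  simp only [if_neg hPP] at hz1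
  have hlt : FF.val hL P (z - 1) < 1 := by
    refine hz1.trans ?_
    rw [← WithZero.exp_zero, WithZero.exp_lt_exp]
    norm_num
  rw [FF.ord_eq_iff hL P hzne 0]
  have h1 : z = 1 + (z - 1) := by ring
  rw [h1, Valuation.map_add_eq_of_lt_left _ (by rw [map_one]; exact hlt), map_one, neg_zero, WithZero.exp_zero]

end Pool.Agent.Helper51.IZ
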