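import Mathlib
import Pool.Agent.Helper51.IZ.Rec
import Pool.Agent.Helper51.IZ.Ind
import Pool.Agent.Helper51.IZ.Red

/-!
# Block IZ-SPEC: specialisation of principal divisors

Take `κ`, `hb` from `exists_red`, let `X` be the exceptional finite set. Let `A = mapDomain red (dv h)` and
`S = X ∪ A.support ∪ supp (dv hb)` (and the `red Q` for the finitely many `Q` with `ord Q h ≠ 0`).
* `A = dv hb`: by `eq_zero_of_vl` for `A - dv hb` and `S` it suffices to show `vl φ A = vl φ (dv hb)` for `φ : L`, `φ ≠ 0`,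
  with `ord P φ = 0` for all `P ∈ S`. `M` is a function field over `Ω` (`hM.isFunctionField hL`). The divisors
  of `φ` and `h` on `M` are disjoint: `dv φ = FF.lift (dv φ)` (`FF.lift_dv`), and if `ord (ab P) h ≠ 0` then
  `P = red (ab P) ∈ S` (`rd_ab`, `rd_unique`). Weil reciprocity on `M`: `vl φ (dv h) = vl h (dv φ) = ∏_x h (x) ^ ord_x φ`
  over the places `x` of `L`, which are not in `X`, so (`κ ^ deg = 1` as `deg (dv φ) = 0`) its residue at `W` is
  `∏_x rs x hb ^ ord_x φ = vl hb (dv φ) = vl φ (dv hb)` (reciprocity on `L`). On the other hand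
  `vl φ (dv h) = ∏_Q (rs Q φ) ^ ord_Q h`, and by `Rd W Q (red Q)` and `ord (red Q) φ = 0` the residue of `rs Q φ` at `W` is
  `rs (red Q) φ`, so its residue is `vl φ A`.
* The last statement: let `x` be such that `red Q ≠ x` for all `Q` with `ord Q h ≠ 0` (so `ord (ab x) h = 0`,
  `hb` is a unit at `x` by the first part). By `exists_simple_zero` choose `φ : L` with `ord x φ = 1` and `ord P φ = 0` for
  the `P ∈ S`, `P ≠ x`. The same computation: `vl φ (dv h) = vl h (dv φ) = ∏_y h (y) ^ ord_y φ`, `y = x` and `y ∉ X`; its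
  residue is `vl φ (dv hb) = vl hb (dv φ) = ∏_y hb (y) ^ ord_y φ`. All factors with `y ≠ x` correspond, so
  `κ * h (x)` has the residue `hb (x)` at `W`.
-/

set_option linter.unusedSectionVars false

namespace Pool.Agent.Helper51.IZ

open VC VF Function
open Pool.Agent.Helper51.VB (rs)

universe u

variable {k Ω L M : Type u} [Field k] [IsAlgClosed k] [CharZero k] [Field Ω] [IsAlgClosed Ω]
  [Field L] [Field M] [Algebra k Ω] [Algebra k L] [Algebra Ω M] [Algebra L M] [Algebra k M]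
  [IsScalarTower k Ω M] [IsScalarTower k L M]

private lemma prod_zpow65 {K : Type*} [Field K] {ι : Type*} (s : Finset ι) {κ : K} (hκ : κ ≠ 0)
    (m : ι → ℤ) : ∏ i ∈ s, κ ^ m i = κ ^ ∑ i ∈ s, m i := by
  classical
  induction s using Finset.induction_on with
  | empty => simp
  | insert a s ha ih => rw [Finset.prod_insert ha, Finset.sum_insert ha, ih, zpow_add₀ hκ]

private lemma vl_mapDomain65 {k L : Type u} [Field k] [Field L] [Algebra k L] {α : Type*} {f : L}
    {red : α → Place k L} {D : α →₀ ℤ} (h : ∀ Q, D Q ≠ 0 → rs (red Q) f ≠ 0) :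
    vl f (D.mapDomain red) = D.prod fun Q m => rs (red Q) f ^ m := by
  classical
  obtain ⟨u, hu⟩ : ∃ u : Place k L → k, ∀ P, u P = if rs P f = 0 then 1 else rs P f :=
    ⟨_, fun _ => rfl⟩
  have hu0 : ∀ P, u P ≠ 0 := by
    intro P
    rw [hu]
    split_ifs with h1
    · exact one_ne_zero
    · exact h1
  have hu1 : ∀ P, rs P f ≠ 0 → u P = rs P f := fun P hP => by rw [hu, if_neg hP]
  have h1 : vl f (D.mapDomain red) = (D.mapDomain red).prod (fun P m => u P ^ m) := by
    unfold vl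
    apply Finsupp.prod_congr
    intro P hP
    have hP' := Finsupp.mapDomain_support hP
    rw [Finset.mem_image] at hP'
    obtain ⟨Q, hQ, rfl⟩ := hP'
    rw [hu1 _ (h Q (Finsupp.mem_support_iff.1 hQ))]
  have h2 : (D.mapDomain red).prod (fun P m => u P ^ m) = D.prod (fun Q m => u (red Q) ^ m) :=
    Finsupp.prod_mapDomain_index (fun b => zpow_zero _) (fun b m n => zpow_add₀ (hu0 b) m n)
  rw [h1, h2]
  apply Finsupp.prod_congr
  intro Q hQ
  rw [hu1 _ (h Q (Finsupp.mem_support_iff.1 hQ))]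

private lemma isRes_fprod65 {α : Type*} {W : Place k Ω} {D : α →₀ ℤ} {a : α → Ω} {c : α → k}
    (hc : ∀ Q, D Q ≠ 0 → c Q ≠ 0) (h : ∀ Q, D Q ≠ 0 → IsRes W (a Q) (c Q)) :
    IsRes W (D.prod fun Q m => a Q ^ m) (D.prod fun Q m => c Q ^ m) := by
  unfold Finsupp.prod
  apply isRes_prod
  intro Q hQ
  have hQ' := Finsupp.mem_support_iff.1 hQ
  exact isRes_zpow (hc Q hQ') (h Q hQ') _

include k in
private lemma core65 (hM : FF.IsConstExt k Ω L M) (hL : IsFunctionField k L) {W : Place k Ω}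
    {h : M} (hh : h ≠ 0) (red : Place Ω M → Place k L) (hred : ∀ Q, Rd W Q (red Q)) {κ : Ω}
    (hκ : κ ≠ 0) {φ : L} (hφ : φ ≠ 0)
    (ha : ∀ Q : Place Ω M, ord Q.ring h ≠ 0 → ord (red Q).ring φ = 0) :
    IsRes W ((FF.dv hL φ).prod fun P m => (κ * rs (FF.ab hM hL P) h) ^ m)
      (vl φ ((FF.dv (hM.isFunctionField hL) h).mapDomain red)) := by
  have hMF := hM.isFunctionField hL
  have : CharZero Ω := charZero_of_injective_algebraMap (algebraMap k Ω).injective
  have hφM : algebraMap L M φ ≠ 0 := (_root_.map_ne_zero _).mpr hφ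
  -- residues of `φ`
  have h1 : ∀ Q : Place Ω M, ord Q.ring h ≠ 0 → rs (red Q) φ ≠ 0 := fun Q hQ =>
    rs_ne_zero hL hφ (ha Q hQ)
  have h2 : ∀ Q : Place Ω M, ord Q.ring h ≠ 0 →
      IsRes W (rs Q (algebraMap L M φ)) (rs (red Q) φ) ∧ rs Q (algebraMap L M φ) ≠ 0 := by
    intro Q hQ
    obtain ⟨y, hy1, hy2⟩ := hred Q φ _ (VB.isRes_rs hL (VB.mem_of_rs (h1 Q hQ)))
    rw [VB.rs_eq hy1]
    exact ⟨hy2, hy2.ne_zero (h1 Q hQ)⟩
  have h3 : vl (algebraMap L M φ) (FF.dv hMF h) = vl h (FF.dv hMF (algebraMap L M φ)) := by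
    apply weil hMF hφM hh
    intro Q
    by_cases hQ : ord Q.ring h = 0
    · exact Or.inr hQ
    · exact Or.inl (VB.ord_of_rs hMF (h2 Q hQ).2)
  have h4 : vl h (FF.dv hMF (algebraMap L M φ)) =
      (FF.dv hL φ).prod fun P m => rs (FF.ab hM hL P) h ^ m := by
    rw [← FF.lift_dv hM hL hφ]
    change vl h (Finsupp.mapDomain (FF.ab hM hL) (FF.dv hL φ)) = _
    unfold vl
    rw [Finsupp.prod_mapDomain_index_inj (FF.ab_injective hM hL)]
  have h5 : ((FF.dv hL φ).prod fun P m => (κ * rs (FF.ab hM hL P) h) ^ m) =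
      vl (algebraMap L M φ) (FF.dv hMF h) := by
    rw [h3, h4]
    have e1 : ((FF.dv hL φ).prod fun P m => (κ * rs (FF.ab hM hL P) h) ^ m) =
        ((FF.dv hL φ).prod fun _ m => κ ^ m) *
          (FF.dv hL φ).prod fun P m => rs (FF.ab hM hL P) h ^ m := by
      unfold Finsupp.prod
      rw [← Finset.prod_mul_distrib]
      exact Finset.prod_congr rfl fun P _ => mul_zpow _ _ _
    have e2 : ((FF.dv hL φ).prod fun _ m => κ ^ m) = 1 := by
      unfold Finsupp.prod
      rw [prod_zpow65 _ hκ]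
      have e3 : ∑ P ∈ (FF.dv hL φ).support, (FF.dv hL φ) P = FF.deg (FF.dv hL φ) := by
        rw [FF.deg_eq]
        rfl
      rw [e3, FF.deg_dv hL hφ, zpow_zero]
    rw [e1, e2, one_mul]
  rw [h5, vl_mapDomain65 (fun Q hQ => h1 Q hQ)]
  exact isRes_fprod65 (fun Q hQ => h1 Q hQ) (fun Q hQ => (h2 Q hQ).1)

theorem spec (hM : FF.IsConstExt k Ω L M) (hL : IsFunctionField k L) {W : Place k Ω}
    (hW : Full W) {h : M} (hh : h ≠ 0) (red : Place Ω M → Place k L)
    (hred : ∀ Q, Rd W Q (red Q)) :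
    ∃ (κ : Ω) (hb : L), κ ≠ 0 ∧ hb ≠ 0 ∧
      FF.dv hL hb = (FF.dv (hM.isFunctionField hL) h).mapDomain red ∧
      ∀ x : Place k L, (∀ Q : Place Ω M, ord Q.ring h ≠ 0 → red Q ≠ x) →
        rs x hb ≠ 0 ∧ IsRes W (κ * rs (FF.ab hM hL x) h) (rs x hb) := by
  classical
  obtain ⟨κ, hb, hκ, hb0, hX⟩ := exists_red hM hL hW hh
  have hMF := hM.isFunctionField hL
  obtain ⟨A, hA⟩ : ∃ A, A = (FF.dv (hM.isFunctionField hL) h).mapDomain red := ⟨_, rfl⟩
  obtain ⟨S, hS⟩ : ∃ S, S = hX.toFinset ∪ (A.support ∪ ((FF.dv hL hb).support ∪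
    (FF.dv hMF h).support.image red)) := ⟨_, rfl⟩
  have hS1 : ∀ P, P ∉ S → rs P hb ≠ 0 ∧ IsRes W (κ * rs (FF.ab hM hL P) h) (rs P hb) := by
    intro P hP
    by_contra hcon
    apply hP
    rw [hS, Finset.mem_union]
    left
    rw [Set.Finite.mem_toFinset]
    exact hcon
  have hS2 : ∀ P, P ∉ S → ord P.ring hb = 0 := by
    intro P hP
    by_contra hcon
    apply hP
    rw [hS, Finset.mem_union, Finset.mem_union, Finset.mem_union]
    right; right; left
    rw [Finsupp.mem_support_iff]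
    exact hcon
  have hS3 : ∀ Q : Place Ω M, ord Q.ring h ≠ 0 → red Q ∈ S := by
    intro Q hQ
    rw [hS, Finset.mem_union, Finset.mem_union, Finset.mem_union]
    right; right; right
    exact Finset.mem_image_of_mem red (Finsupp.mem_support_iff.2 hQ)
  have hS4 : ∀ P, A P ≠ 0 → P ∈ S := by
    intro P hP
    rw [hS, Finset.mem_union, Finset.mem_union]
    right; left
    exact Finsupp.mem_support_iff.2 hP
  have hdiv : FF.dv hL hb = A := by
    have h1 : A + -FF.dv hL hb = 0 := by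
      apply eq_zero_of_vl hL S
      intro φ hφ hφS _
      have h2 := core65 hM hL hh red hred hκ hφ (fun Q hQ => hφS _ (hS3 Q hQ))
      rw [← hA] at h2
      have hnot : ∀ P, (FF.dv hL φ) P ≠ 0 → P ∉ S := fun P hP hPS => hP (hφS P hPS)
      have h3 : IsRes W ((FF.dv hL φ).prod fun P m => (κ * rs (FF.ab hM hL P) h) ^ m)
          (vl hb (FF.dv hL φ)) :=
        isRes_fprod65 (fun P hP => (hS1 P (hnot P hP)).1) (fun P hP => (hS1 P (hnot P hP)).2)
      have h4 : vl φ A = vl hb (FF.dv hL φ) := h2.unique h3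
      have h5 : vl φ (FF.dv hL hb) = vl hb (FF.dv hL φ) := by
        apply weil hL hφ hb0
        intro P
        by_cases hP : P ∈ S
        · exact Or.inl (hφS P hP)
        · exact Or.inr (hS2 P hP)
      have e1 : ∀ P, A P ≠ 0 → rs P φ ≠ 0 := fun P hP => rs_ne_zero hL hφ (hφS P (hS4 P hP))
      have e2 : ∀ P, (FF.dv hL hb) P ≠ 0 → rs P φ ≠ 0 := by
        intro P hP
        apply rs_ne_zero hL hφ (hφS P _)
        by_contra hcon
        exact hP (hS2 P hcon)
      rw [vl_add e1 (fun P hP => e2 P (by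
        rw [Finsupp.neg_apply] at hP
        exact fun h0 => hP (by rw [h0, neg_zero]))), vl_neg, h4, ← h5]
      exact mul_inv_cancel₀ (vl_ne_zero e2)
    rw [add_neg_eq_zero] at h1
    exact h1.symm
  refine ⟨κ, hb, hκ, hb0, by rw [hdiv, hA], ?_⟩
  intro x hx
  have hAx : A x = 0 := by
    by_contra hcon
    rw [hA] at hcon
    have h1 := Finsupp.mapDomain_support (Finsupp.mem_support_iff.2 hcon)
    rw [Finset.mem_image] at h1
    obtain ⟨Q, hQ, hQx⟩ := h1
    exact hx Q (Finsupp.mem_support_iff.1 hQ) hQx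
  have hordx : ord x.ring hb = 0 := by
    rw [← FF.dv_apply hL, hdiv, hAx]
  have hrx : rs x hb ≠ 0 := rs_ne_zero hL hb0 hordx
  refine ⟨hrx, ?_⟩
  obtain ⟨φ, hφ, hφx, hφS⟩ := exists_simple_zero hL S x
  have h2 := core65 hM hL hh red hred hκ hφ (fun Q hQ => hφS _ (hS3 Q hQ) (hx Q hQ))
  rw [← hA, ← hdiv] at h2
  have h5 : vl φ (FF.dv hL hb) = vl hb (FF.dv hL φ) := by
    apply weil hL hφ hb0
    intro P
    by_cases hPx : P = x
    · exact Or.inr (by rw [hPx]; exact hordx)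
    by_cases hP : P ∈ S
    · exact Or.inl (hφS P hP hPx)
    · exact Or.inr (hS2 P hP)
  rw [h5] at h2
  have hmem : x ∈ (FF.dv hL φ).support := by
    rw [Finsupp.mem_support_iff, FF.dv_apply, hφx]
    exact one_ne_zero
  unfold vl Finsupp.prod at h2
  rw [← Finset.mul_prod_erase _ _ hmem, ← Finset.mul_prod_erase _ _ hmem, FF.dv_apply, hφx] at h2
  simp only [zpow_one] at h2
  have hgood : ∀ P ∈ (FF.dv hL φ).support.erase x, rs P hb ≠ 0 ∧
      IsRes W (κ * rs (FF.ab hM hL P) h) (rs P hb) := by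
    intro P hP
    rw [Finset.mem_erase, Finsupp.mem_support_iff] at hP
    apply hS1
    intro hPS
    exact hP.2 (hφS P hPS hP.1)
  have h6 : IsRes W (∏ P ∈ (FF.dv hL φ).support.erase x,
      (κ * rs (FF.ab hM hL P) h) ^ (FF.dv hL φ) P)
      (∏ P ∈ (FF.dv hL φ).support.erase x, rs P hb ^ (FF.dv hL φ) P) :=
    isRes_prod _ fun P hP => isRes_zpow (hgood P hP).1 (hgood P hP).2 _
  have h7 : ∏ P ∈ (FF.dv hL φ).support.erase x, rs P hb ^ (FF.dv hL φ) P ≠ 0 :=
    Finset.prod_ne_zero_iff.2 fun P hP => zpow_ne_zero _ (hgood P hP).1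
  have h8 := isRes_zpow h7 h6 (-1)
  rw [zpow_neg_one, zpow_neg_one] at h8
  have h9 := h2.mul h8
  rw [mul_assoc, mul_inv_cancel₀ (h6.ne_zero h7), mul_one, mul_assoc, mul_inv_cancel₀ h7,
    mul_one] at h9
  exact h9

end Pool.Agent.Helper51.IZ
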