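import Mathlib
import Pool.Agent.Helper51.IZ.FamA
import Pool.Agent.Helper51.IZ.Spec
import Pool.Agent.Helper51.IZ.Ext

/-!
# Block IZ-FAMB: the family of tuples

`FF.exists_constExt` gives `M`. Let `G j` be a place with `FF.Gen (G j) (φ j)` (`hM.exists_gen hL`). Take `h`, `Q` from
`exists_om_div`, `b` from `exists_bp`, `v` from `exists_om_root`. Let `W` be given. Choose `red` (`exists_rd`), let
`P i = red (Q i)`, take `κ`, `hb` from `spec`.
* `(b i).Ov W (P i)`: if `b i = .cst P'` then `Q i = ab P'` (`FF.eq_ab`) and `red (Q i) = P'` (`rd_ab`, `rd_unique`); if `b i = .emb φ'`: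
  `Rd W (Q i) (P i)` and `FF.Gen (Q i) φ'` give `VB.Over (P i) φ' W` (the residue of `algebraMap f` at `Q i` is `φ' f`, residues are
  unique).
* `red (ab (T i)) = T i`, `red (ab T0) = T0`, `red (G j) = R j` (`rd_gen`). `mapDomain` is additive: the divisor of `hb`.
* Now let all `E (P i) = 0`. Then all constant `b i` have `E = 0`, so the equation of `exists_om_root` holds. For `x` with
  `E x ≠ 0`: `red Q' ≠ x` for all `Q'` with `ord Q' h ≠ 0` (`Q'` is one of the `Q i`, `ab (T i)`, `G j`, `ab T0`), so by `spec`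
  `κ * rs (ab x) h` has the residue `rs x hb ≠ 0` at `W`. As `deg E = 0` the product
  `vl h (lift E) = ∏ x, rs (ab x) h ^ E x = ∏ x, (κ * rs (ab x) h) ^ E x` (`Finsupp.mapDomain` along the injective `ab`) has the
  residue `vl hb E`. `v i ^ m = (b i).ev f` has the residue `rs (P i) f ≠ 0`, so `v i` has a residue `μ i ≠ 0` (`W.ring` is integrally
  closed, `Full W`). Compare residues in the equation.
-/

set_option linter.unusedSectionVars false

namespace Pool.Agent.Helper51.IZ

open VC VF Function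
open Pool.Agent.Helper51.VB (rs BP)

universe u

variable {k Ω L : Type u} [Field k] [IsAlgClosed k] [CharZero k] [Field Ω] [IsAlgClosed Ω]
  [Field L] [Algebra k Ω] [Algebra k L]

/-- A family of effective divisors `∑ b i` of degree `g` in the class of
`∑ T i + ∑ j ∈ S, (φ j - T0)`, and roots `v i` of the values of `f` whose product is given by
reciprocity; `r j` is a root of the value of `f` at `φ j`. -/
structure Fam (hL : IsFunctionField k L) {g : ℕ} (E : Place k L →₀ ℤ) (f : L) (m : ℕ)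
    (T : Fin g → Place k L) (T0 : Place k L) (lam rho : k) {ι : Type*} (S : Finset ι)
    (φ : ι → (L →ₐ[k] Ω)) (r : ι → Ω) (b : Fin g → BP k L Ω) (v : Fin g → Ω) : Prop where
  root : ∀ i, v i ^ m = (b i).ev f
  red : ∀ W : Place k Ω, Full W → ∀ (R : ι → Place k L) (ρ : ι → k),
    (∀ j ∈ S, VB.Over (R j) (φ j) W) → (∀ j ∈ S, E (R j) = 0) → (∀ j ∈ S, IsRes W (r j) (ρ j)) →
    ∃ (P : Fin g → Place k L) (hb : L), hb ≠ 0 ∧ (∀ i, (b i).Ov W (P i)) ∧
      FF.dv hL hb = ∑ i, Finsupp.single (P i) 1 - ∑ i, Finsupp.single (T i) 1 -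
        ∑ j ∈ S, (Finsupp.single (R j) 1 - Finsupp.single T0 1) ∧
      ((∀ i, E (P i) = 0) → ∃ μ : Fin g → k, (∀ i, IsRes W (v i) (μ i)) ∧
        (∏ i, μ i) * vl hb E = lam * ∏ j ∈ S, (ρ j / rho))

private theorem ov82 {M : Type u} [Field M] [Algebra Ω M] [Algebra L M] [Algebra k M]
    [IsScalarTower k Ω M] [IsScalarTower k L M] (hM : FF.IsConstExt k Ω L M)
    (hL : IsFunctionField k L) {W : Place k Ω} {Q : Place Ω M} {b : BP k L Ω} (hb : Bp Q b)
    {P : Place k L} (hP : Rd W Q P) : b.Ov W P := by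
  cases b with
  | cst P' =>
    have h1 : Q = FF.ab hM hL P' := FF.eq_ab hM hL hb
    rw [h1] at hP
    exact rd_unique hM hL (rd_ab hM hL W P') hP
  | emb φ' =>
    intro f c hfc
    obtain ⟨y, hy, hyc⟩ := hP f c hfc
    have h1 : IsRes Q (algebraMap L M f) (φ' f) := hb f
    rw [h1.unique hy]
    exact hyc

private theorem ev82 (hL : IsFunctionField k L) {W : Place k Ω} {b : BP k L Ω} {P : Place k L}
    (h : b.Ov W P) {f : L} (hf : f ∈ P.ring) : IsRes W (b.ev f) (rs P f) := by
  cases b with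
  | cst P' =>
    have h1 : P' = P := h
    rw [h1]
    exact isRes_const (rs P f)
  | emb φ' =>
    exact h f _ (VB.isRes_rs hL hf)

/-- The value of `h` at the lift of a divisor of degree zero. -/
private theorem vl_lift82 {M : Type u} [Field M] [Algebra Ω M] [Algebra L M] [Algebra k M]
    [IsScalarTower k Ω M] [IsScalarTower k L M] (hM : FF.IsConstExt k Ω L M)
    (hL : IsFunctionField k L) {W : Place k Ω} {E : Place k L →₀ ℤ} (hE0 : FF.deg E = 0) {h : M}
    {κ : Ω} (hκ : κ ≠ 0) {hb : L} (hx : ∀ x : Place k L, E x ≠ 0 →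
      rs x hb ≠ 0 ∧ IsRes W (κ * rs (FF.ab hM hL x) h) (rs x hb)) :
    IsRes W (vl h (FF.lift hM hL E)) (vl hb E) := by
  have h1 : vl h (FF.lift hM hL E) = ∏ x ∈ E.support, (κ * rs (FF.ab hM hL x) h) ^ E x := by
    unfold vl
    change (Finsupp.mapDomain (FF.ab hM hL) E).prod _ = _
    rw [Finsupp.prod_mapDomain_index_inj (FF.ab_injective hM hL)]
    unfold Finsupp.prod
    simp only [mul_zpow]
    rw [Finset.prod_mul_distrib]
    have h2 : ∏ x ∈ E.support, κ ^ E x = 1 := by
      have h3 : ∀ s : Finset (Place k L), ∏ x ∈ s, κ ^ E x = κ ^ (∑ x ∈ s, E x) := by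
        intro s
        classical
        induction s using Finset.induction_on with
        | empty => simp
        | insert a s ha ih =>
          rw [Finset.prod_insert ha, Finset.sum_insert ha, ih, zpow_add₀ hκ]
      rw [h3]
      rw [FF.deg_eq] at hE0
      unfold Finsupp.sum at hE0
      rw [hE0, zpow_zero]
    rw [h2, one_mul]
  rw [h1]
  unfold vl Finsupp.prod
  refine isRes_prod _ fun x hxE => ?_
  rw [Finsupp.mem_support_iff] at hxE
  exact isRes_zpow (hx x hxE).1 (hx x hxE).2 _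

theorem exists_fam (hL : IsFunctionField k L) {g : ℕ} (hg : IsGenus k L g) (hg0 : g ≠ 0)
    {E : Place k L →₀ ℤ} (hE0 : FF.deg E = 0) {f : L} (hf : f ≠ 0) {m : ℕ} (hm : m ≠ 0)
    (hfE : ∀ P : Place k L, ord P.ring f = -(m * E P)) {T : Fin g → Place k L}
    (hT : ∀ i, E (T i) = 0) {T0 : Place k L} (hT0 : E T0 = 0) {lam rho : k}
    (hlam : lam ^ m = ∏ i, rs (T i) f) (hrho : rho ^ m = rs T0 f) {ι : Type*} (S : Finset ι)
    {φ : ι → (L →ₐ[k] Ω)} {r : ι → Ω} (hr : ∀ j, r j ^ m = φ j f) :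
    ∃ (b : Fin g → BP k L Ω) (v : Fin g → Ω), Fam hL E f m T T0 lam rho S φ r b v := by
  classical
  obtain ⟨M, i1, i2, i3, i4, i5, i6, hM⟩ := FF.exists_constExt k Ω L
  choose G hG using fun j : ι => hM.exists_gen hL (φ j)
  obtain ⟨h, Q, hh, hQ⟩ := exists_om_div hM hL hg T T0 S G
  choose b hb using fun i => exists_bp hM hL (Q i)
  obtain ⟨v, hv, hve⟩ := exists_om_root hM hL hg0 hf hm hfE hT hT0 hlam hrho S hG hr hh hQ hb
  refine ⟨b, v, ⟨hv, fun W hW R ρ hR hRE hρ => ?_⟩⟩
  choose red hred using fun Q' : Place Ω M => exists_rd hM hL hW Q'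
  obtain ⟨κ, hb', hκ, hb0, hdv, hx⟩ := spec hM hL hW hh red hred
  have hab : ∀ P, red (FF.ab hM hL P) = P := fun P =>
    rd_unique hM hL (hred _) (rd_ab hM hL W P)
  have hGr : ∀ j ∈ S, red (G j) = R j := fun j hj =>
    rd_unique hM hL (hred _) (rd_gen (hG j) (hR j hj))
  have hOv : ∀ i, (b i).Ov W (red (Q i)) := fun i => ov82 hM hL (hb i) (hred _)
  refine ⟨fun i => red (Q i), hb', hb0, hOv, ?_, fun hP => ?_⟩
  · rw [hdv, hQ]
    have h1 : ∀ X : Place Ω M →₀ ℤ, X.mapDomain red = Finsupp.mapDomain.addMonoidHom red X :=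
      fun _ => rfl
    have h2 : ∀ (Q' : Place Ω M) (m : ℤ), Finsupp.mapDomain.addMonoidHom red
        (Finsupp.single Q' m) = Finsupp.single (red Q') m := by
      intro Q' m
      exact Finsupp.mapDomain_single
    rw [h1, map_sub, map_sub, map_sum, map_sum, map_sum]
    simp only [map_sub, h2, hab]
    congr 1
    refine Finset.sum_congr rfl fun j hj => ?_
    rw [hGr j hj]
  · have hcst : ∀ i P, b i = .cst P → E P = 0 := by
      intro i P hi
      have h1 := hOv i
      rw [hi] at h1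
      have h2 : P = red (Q i) := h1
      rw [h2]
      exact hP i
    have hEx : ∀ x : Place k L, E x ≠ 0 →
        rs x hb' ≠ 0 ∧ IsRes W (κ * rs (FF.ab hM hL x) h) (rs x hb') := by
      intro x hxE
      refine hx x fun Q' hQ' hcon => ?_
      have h1 : FF.dv (hM.isFunctionField hL) h Q' ≠ 0 := hQ'
      rw [hQ] at h1
      -- one of the four terms is not zero
      by_cases c1 : ∃ i, Q i = Q'
      · obtain ⟨i, hi⟩ := c1
        rw [← hi] at hcon
        exact hxE (hcon ▸ hP i)
      by_cases c2 : ∃ i, FF.ab hM hL (T i) = Q'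
      · obtain ⟨i, hi⟩ := c2
        rw [← hi, hab] at hcon
        exact hxE (hcon ▸ hT i)
      by_cases c3 : ∃ j ∈ S, G j = Q'
      · obtain ⟨j, hj, hi⟩ := c3
        rw [← hi, hGr j hj] at hcon
        exact hxE (hcon ▸ hRE j hj)
      by_cases c4 : FF.ab hM hL T0 = Q'
      · rw [← c4, hab] at hcon
        exact hxE (hcon ▸ hT0)
      push Not at c1 c2 c3
      refine h1 ?_
      rw [Finsupp.sub_apply, Finsupp.sub_apply, Finsupp.finsetSum_apply, Finsupp.finsetSum_apply,
        Finsupp.finsetSum_apply, Finset.sum_eq_zero, Finset.sum_eq_zero, Finset.sum_eq_zero]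
      · rfl
      · intro j hj
        rw [Finsupp.sub_apply, Finsupp.single_eq_of_ne (c3 j hj).symm,
          Finsupp.single_eq_of_ne (Ne.symm c4), sub_zero]
      · intro i _
        exact Finsupp.single_eq_of_ne (c2 i).symm
      · intro i _
        exact Finsupp.single_eq_of_ne (c1 i).symm
    have hvl : IsRes W (vl h (FF.lift hM hL E)) (vl hb' E) := vl_lift82 hM hL hE0 hκ hEx
    have hvi : ∀ i, ∃ c : k, IsRes W (v i) c := by
      intro i
      refine hW (v i) (mem_of_pow hm ?_)
      rw [hv i]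
      refine (ev82 hL (hOv i) (f := f) ?_).mem
      rw [← ord_nonneg_iff hL _ hf, hfE, hP i]
      simp
    choose μ hμ using hvi
    refine ⟨μ, hμ, ?_⟩
    have hL1 : IsRes W ((∏ i, v i) * vl h (FF.lift hM hL E)) ((∏ i, μ i) * vl hb' E) :=
      (isRes_prod _ fun i _ => hμ i).mul hvl
    have hR1 : IsRes W (algebraMap k Ω lam * ∏ j ∈ S, (r j / algebraMap k Ω rho))
        (lam * ∏ j ∈ S, (ρ j / rho)) := by
      refine (isRes_const lam).mul (isRes_prod _ fun j hj => ?_)
      rw [div_eq_mul_inv, div_eq_mul_inv, ← map_inv₀]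
      exact (hρ j hj).mul (isRes_const _)
    rw [hve hcst] at hL1
    exact hL1.unique hR1

end Pool.Agent.Helper51.IZ
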