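import Mathlib
import Pool.Agent.Helper51.IZ.Defs

/-!
# Block IZ-GEN: general tuples of points

`Gnr Δ i T`: `ell (X + ∑_{j ≥ i} T j) = 0` for all `X ∈ Δ`; all `X ∈ Δ` have degree `-1`.
* `gnr_top`: the sum is empty, `FF.ell_eq_zero_of_deg_neg`.
* `gnr_step`: finite union over `X ∈ Δ`. The divisor `X' = X + ∑_{j ≥ i+1} T j` has degree `g - i - 2` and `ell X' = 0`, and
  the condition at `i` for `update T i P` is `ell (X' + P) = 0`. If it failed for infinitely many `P`, `FF.exists_drop`
  (with `deg X' + 1 - g < 0 = ell X'`) would give one of them with `ell (X' + P) = ell X' = 0`.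
* `unique_eff`: two effective divisors `∑ P i`, `∑ P' i` with `∑ P i = A + dv h`, `∑ P' i = A + dv h'` (`A` any divisor with
  `ell (A - B) = 0` for one place `B`; so `ell A ≤ 1` by `FF.ell_add_single`): `h`, `h'` are in the Riemann-Roch space of
  `A` (`FF.mem_rr`), which has dimension `≤ 1`, so `h' = c h` with `c : k`, and the divisors are equal.
* `avoid_eff`: if `∑ P i = A + dv h` and `ell (A - B) = 0` then no `P i` is `B` (otherwise `h ≠ 0` is in
  `rr (A - B)`).
-/

set_option linter.unusedSectionVars false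

namespace Pool.Agent.Helper51.IZ

open VC VF Function

universe u

variable {k L : Type u} [Field k] [IsAlgClosed k] [CharZero k] [Field L] [Algebra k L]

theorem gnr_top {g : ℕ} (hL : IsFunctionField k L) {Δ : Finset (Place k L →₀ ℤ)}
    (hΔ : ∀ X ∈ Δ, FF.deg X = -1) (T : Fin g → Place k L) : Gnr Δ g T := by
  intro X hX
  have h0 : Finset.univ.filter (fun j : Fin g => g ≤ (j : ℕ)) = ∅ :=
    Finset.filter_eq_empty_iff.2 fun j _ => by have := j.isLt; omega
  rw [h0, Finset.sum_empty, add_zero]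
  exact FF.ell_eq_zero_of_deg_neg hL (by rw [hΔ X hX]; norm_num)

private lemma deg_sum62 {ι : Type*} (s : Finset ι) (T : ι → Place k L) :
    FF.deg (∑ j ∈ s, Finsupp.single (T j) (1 : ℤ)) = s.card := by
  rw [map_sum]
  simp

theorem gnr_step {g : ℕ} (hL : IsFunctionField k L) (hg : IsGenus k L g)
    {Δ : Finset (Place k L →₀ ℤ)} (hΔ : ∀ X ∈ Δ, FF.deg X = -1) {T : Fin g → Place k L} (i : Fin g)
    (h : Gnr Δ (i + 1) T) : {P : Place k L | ¬ Gnr Δ i (update T i P)}.Finite := by
  classical
  set F1 := Finset.univ.filter (fun j : Fin g => (i : ℕ) + 1 ≤ (j : ℕ)) with hF1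
  set Y : Place k L →₀ ℤ := ∑ j ∈ F1, Finsupp.single (T j) 1 with hY
  have hcard : F1.card < g := by
    have h1 : F1 ⊂ Finset.univ := Finset.filter_ssubset.2 ⟨i, Finset.mem_univ _, by omega⟩
    have h2 := Finset.card_lt_card h1
    rwa [Finset.card_univ, Fintype.card_fin] at h2
  have hsum : ∀ P : Place k L, ∑ j ∈ Finset.univ.filter (fun j : Fin g => (i : ℕ) ≤ (j : ℕ)),
      Finsupp.single (update T i P j) (1 : ℤ) = Finsupp.single P 1 + Y := by
    intro P
    have h1 : Finset.univ.filter (fun j : Fin g => (i : ℕ) ≤ (j : ℕ)) = insert i F1 := by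
      ext j
      simp only [hF1, Finset.mem_filter, Finset.mem_univ, true_and, Finset.mem_insert, Fin.ext_iff]
      omega
    have h2 : i ∉ F1 := by
      simp [hF1]
    rw [h1, Finset.sum_insert h2, update_self]
    congr 1
    refine Finset.sum_congr rfl fun j hj => ?_
    rw [update_of_ne]
    rintro rfl
    exact h2 hj
  have hfin : ∀ X ∈ Δ, {P : Place k L | FF.ell (X + Y + Finsupp.single P 1) ≠ 0}.Finite := by
    intro X hX
    by_contra hinf
    have h1 : FF.ell (X + Y) = 0 := h X hX
    have h2 : FF.deg (X + Y) + 1 - g < FF.ell (X + Y) := by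
      rw [h1, map_add, hΔ X hX, hY, deg_sum62]
      push_cast
      have : (F1.card : ℤ) < g := by exact_mod_cast hcard
      linarith
    obtain ⟨P, hP, hP'⟩ := FF.exists_drop hL hg (X + Y) h2 _ hinf
    exact hP (hP'.trans h1)
  refine (Set.Finite.biUnion Δ.finite_toSet (fun X hX => hfin X hX)).subset ?_
  intro P hP
  simp only [Set.mem_setOf_eq, Gnr] at hP
  push Not at hP
  obtain ⟨X, hX, hX'⟩ := hP
  simp only [Set.mem_iUnion, Set.mem_setOf_eq]
  refine ⟨X, hX, ?_⟩
  rw [hsum P] at hX'
  rwa [add_assoc, add_comm Y]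

private lemma sum_apply62 {n : ℕ} (P : Fin n → Place k L) (Q : Place k L) [DecidableEq (Place k L)] :
    (∑ i, Finsupp.single (P i) (1 : ℤ)) Q = ((Finset.univ.filter (fun i => P i = Q)).card : ℤ) := by
  rw [Finsupp.finsetSum_apply, Finset.card_filter]
  push_cast
  exact Finset.sum_congr rfl fun i _ => Finsupp.single_apply

private lemma sum_nonneg62 {n : ℕ} (P : Fin n → Place k L) (Q : Place k L) :
    0 ≤ (∑ i, Finsupp.single (P i) (1 : ℤ)) Q := by
  classical
  rw [sum_apply62]
  positivity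

private lemma mem_rr62 {n : ℕ} (hL : IsFunctionField k L) {A : Place k L →₀ ℤ} {P : Fin n → Place k L} {h : L}
    (hh : h ≠ 0) (hP : ∑ i, Finsupp.single (P i) 1 = A + FF.dv hL h) : h ∈ riemannRochSpace k L A := by
  rw [FF.mem_rr hL A hh]
  intro Q
  have h1 := sum_nonneg62 P Q
  rw [hP, Finsupp.add_apply, FF.dv_apply] at h1
  omega

theorem unique_eff {n : ℕ} (hL : IsFunctionField k L) {A : Place k L →₀ ℤ} {B : Place k L}
    (hA : FF.ell (A - Finsupp.single B 1) = 0) {P P' : Fin n → Place k L} {h h' : L} (hh : h ≠ 0)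
    (hh' : h' ≠ 0) (hP : ∑ i, Finsupp.single (P i) 1 = A + FF.dv hL h)
    (hP' : ∑ i, Finsupp.single (P' i) 1 = A + FF.dv hL h') :
    (∃ c : k, c ≠ 0 ∧ h' = algebraMap k L c * h) ∧
      ∑ i, Finsupp.single (P i) (1 : ℤ) = ∑ i, Finsupp.single (P' i) 1 := by
  have h1 := mem_rr62 hL hh hP
  have h2 := mem_rr62 hL hh' hP'
  haveI := FF.finite_rr hL A
  have hle : FF.ell A ≤ 1 := by
    have h3 := FF.ell_add_single hL (A - Finsupp.single B 1) B
    rwa [sub_add_cancel, hA, zero_add] at h3
  have hne : (⟨h, h1⟩ : riemannRochSpace k L A) ≠ 0 := by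
    intro e
    exact hh (congrArg Subtype.val e)
  have hone : Module.finrank k (riemannRochSpace k L A) = 1 := by
    have h3 : 0 < Module.finrank k (riemannRochSpace k L A) :=
      Module.finrank_pos_iff_exists_ne_zero.2 ⟨_, hne⟩
    have h4 : Module.finrank k (riemannRochSpace k L A) ≤ 1 := hle
    omega
  obtain ⟨c, hc⟩ := exists_smul_eq_of_finrank_eq_one hone hne (⟨h', h2⟩ : riemannRochSpace k L A)
  have hc' : c • h = h' := congrArg Subtype.val hc
  have hc0 : c ≠ 0 := by
    rintro rfl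
    rw [zero_smul] at hc'
    exact hh' hc'.symm
  refine ⟨⟨c, hc0, by rw [← hc', Algebra.smul_def]⟩, ?_⟩
  rw [hP, hP', ← hc', FF.dv_smul hL hc0 hh]

theorem avoid_eff {n : ℕ} (hL : IsFunctionField k L) {A : Place k L →₀ ℤ} {B : Place k L}
    (hA : FF.ell (A - Finsupp.single B 1) = 0) {P : Fin n → Place k L} {h : L} (hh : h ≠ 0)
    (hP : ∑ i, Finsupp.single (P i) 1 = A + FF.dv hL h) (i : Fin n) : P i ≠ B := by
  classical
  intro hi
  haveI := FF.finite_rr hL (A - Finsupp.single B 1)
  have h1 : h ∈ riemannRochSpace k L (A - Finsupp.single B 1) := by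
    rw [FF.mem_rr hL _ hh]
    intro Q
    have h2 : (∑ i, Finsupp.single (P i) (1 : ℤ)) Q = A Q + ord Q.ring h := by
      rw [hP, Finsupp.add_apply, FF.dv_apply]
    rw [Finsupp.sub_apply, Finsupp.single_apply]
    have h3 := sum_nonneg62 P Q
    split_ifs with e
    · subst e
      have h4 : 1 ≤ (∑ i, Finsupp.single (P i) (1 : ℤ)) B := by
        rw [sum_apply62]
        have : 0 < (Finset.univ.filter (fun i => P i = B)).card :=
          Finset.card_pos.2 ⟨i, by simp [hi]⟩
        exact_mod_cast this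
      omega
    · omega
  have h2 : Module.finrank k (riemannRochSpace k L (A - Finsupp.single B 1)) = 0 := hA
  rw [Module.finrank_zero_iff] at h2
  have h3 : (⟨h, h1⟩ : riemannRochSpace k L (A - Finsupp.single B 1)) = 0 := Subsingleton.elim _ _
  exact hh (congrArg Subtype.val h3)

/-- Equal divisors of tuples: the tuples are permutations of each other. -/
theorem perm_of_eq {n : ℕ} {P P' : Fin n → Place k L}
    (h : ∑ i, Finsupp.single (P i) (1 : ℤ) = ∑ i, Finsupp.single (P' i) 1) :
    ∃ σ : Equiv.Perm (Fin n), P' = P ∘ σ := by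
  classical
  have hcard : ∀ Q : Place k L, Nonempty ({i // P' i = Q} ≃ {i // P i = Q}) := by
    intro Q
    refine ⟨Fintype.equivOfCardEq ?_⟩
    rw [Fintype.card_subtype, Fintype.card_subtype]
    have h1 := congrArg (fun D : Place k L →₀ ℤ => D Q) h
    simp only [sum_apply62] at h1
    exact_mod_cast h1.symm
  refine ⟨Equiv.ofFiberEquiv (f := P') (g := P) fun Q => (hcard Q).some, ?_⟩
  funext a
  exact (Equiv.ofFiberEquiv_map (fun Q => (hcard Q).some) a).symm

end Pool.Agent.Helper51.IZ
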