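import Mathlib
import Pool.Agent.Helper51.IZ.Gen
import Pool.Agent.Helper51.IZ.Vl

/-!
# Block IZ-SAME: the functional depends only on the divisor and on the product of the roots

`perm_of_eq`: `P' = P ∘ σ`. `IS.gt_sym`: `GT Ψ (P ∘ σ) (μ ∘ σ) x y = GT Ψ P μ x y`. Both `μ ∘ σ` and `μ'` are roots of the values of `f` at
`P ∘ σ`, all nonzero (`I.ord_nice`, `rs_ne_zero` of IZ-VL), so `μ' i = c i * μ (σ i)` with `c i ^ m = 1`, and `∏ c i = 1`:
`IS.gt_prod`.
-/

set_option linter.unusedSectionVars false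

namespace Pool.Agent.Helper51.IZ

open VC VF Function
open Pool.Agent.Helper51.VB (rs Ell OJ)
open Pool.Agent.Helper51.IS (Twi GT)

universe u

variable {k L : Type u} [Field k] [IsAlgClosed k] [CharZero k] [Field L] [Algebra k L]
  {D : Ell k L} {n : ℕ} {Ψ : (Fin n → Place k L × k × k) → k}

theorem gt_same (I : Twi D) (h : OJ D n Ψ) {P P' : Fin n → Place k L} {μ μ' x y : Fin n → k}
    (hV : I.Valid P μ x y) (hV' : I.Valid P' μ' x y)
    (hP : ∑ i, Finsupp.single (P i) (1 : ℤ) = ∑ i, Finsupp.single (P' i) 1)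
    (hμ : ∏ i, μ i = ∏ i, μ' i) : GT Ψ P μ x y = GT Ψ P' μ' x y := by
  obtain ⟨σ, rfl⟩ := perm_of_eq hP
  have hV1 : I.Valid (P ∘ σ) (μ ∘ σ) x y :=
    ⟨fun i => hV.nice _, fun i => hV.root _, hV.curve⟩
  have hμ0 : ∀ i, μ i ≠ 0 := fun i h0 => by
    have h1 := hV.root i
    rw [h0, zero_pow I.hm0] at h1
    exact rs_ne_zero D.hL I.hf0 (I.ord_nice (hV.nice i)) h1.symm
  have hg : ∀ i, (μ' i / μ (σ i)) ^ I.m = 1 := fun i => by
    have h1 := hV'.root i
    have h2 := hV.root (σ i)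
    have h3 : μ (σ i) ^ I.m ≠ 0 := pow_ne_zero _ (hμ0 (σ i))
    rw [div_pow, h1, comp_apply, ← h2, div_self h3]
  have hp : ∏ i, μ' i / μ (σ i) = 1 := by
    rw [Finset.prod_div_distrib, Equiv.prod_comp σ μ, ← hμ, div_self]
    exact Finset.prod_ne_zero_iff.2 fun i _ => hμ0 i
  have h1 := IS.gt_prod I h hV1 hg hp
  have h2 : (fun i => μ' i / μ (σ i) * (μ ∘ σ) i) = μ' := by
    funext i
    exact div_mul_cancel₀ _ (hμ0 (σ i))
  rw [h2, IS.gt_sym I h hV σ] at h1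
  exact h1.symm

end Pool.Agent.Helper51.IZ
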