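import Mathlib
import Pool.Agent.Helper51.IZ.FamB
import Pool.Agent.Helper51.IZ.Gen
import Pool.Agent.Helper51.IZ.Same

/-!
# Block IZ-VAL: the values of the family

The situation: `D.N = 0`, `I : Twi D`, so `ord f = - m E` (`ord_f`), nice places have `E = 0`.
* `ord_f`: the integers `ord_P f + m E P` are nonnegative (`I.hf`) and their sum is zero (`FF.deg_dv`, `D.deg`):
  `FF.eq_zero_of_deg`.
* `exists_pts`: the points `c i = (b i, x i * v i ^ 2, y i * v i ^ 3)` of the surface. The equation of the curve: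
  `-3 * (b i).ev al = a * ((b i).ev f) ^ e4`, `-2 * (b i).ev be = b * ((b i).ev f) ^ e6` (copy the private lemmas `ev_al`, `ev_be`
  of Helper51/IS/Core.lean), and `v i ^ m = (b i).ev f`.
* `fam_val`: `red` gives `P`, `hb`. `∑ P i = A + dv hb`, so `P i ≠ B` for all places `B` which are not nice by `avoid_eff` and
  `hgen`. So the `P i` are nice, `E (P i) = 0`, and we get `μ`. The residue of `v i ^ m = (b i).ev f` at `W` is `rs (P i) f`
  (`(b i).Ov W (P i)`), so `μ i ^ m = rs (P i) f` (residues are unique). `E B ≠ 0` implies that `B` is not nice, so `B` is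
  different from all `P i`, `T i`, `R j`, `T0`, and `ord B hb = 0`: `rs B hb ≠ 0` (`rs_ne_zero`).
-/

set_option linter.unusedSectionVars false

namespace Pool.Agent.Helper51.IZ

open VC VF Function
open Pool.Agent.Helper51.VB (rs BP Ell OJ KPt)
open Pool.Agent.Helper51.IS (Twi GT)

universe u

variable {k L : Type u} [Field k] [IsAlgClosed k] [CharZero k] [Field L] [Algebra k L]
  {D : Ell k L} {g : ℕ}

theorem deg_E (hN : D.N = 0) : FF.deg D.E = 0 := by
  rw [FF.deg_eq, D.deg, hN, Nat.cast_zero]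

theorem ord_f (I : Twi D) (hN : D.N = 0) (P : Place k L) : ord P.ring I.f = -(I.m * D.E P) := by
  have h1 : FF.deg (FF.dv D.hL I.f + (I.m : ℤ) • D.E) = 0 := by
    rw [map_add, map_zsmul, FF.deg_dv D.hL I.hf0, deg_E hN, smul_zero, add_zero]
  have h2 : ∀ Q, 0 ≤ (FF.dv D.hL I.f + (I.m : ℤ) • D.E) Q := by
    intro Q
    rw [Finsupp.add_apply, Finsupp.smul_apply, FF.dv_apply, smul_eq_mul]
    exact I.hf Q
  have h3 := FF.eq_zero_of_deg h2 h1
  have h4 := DFunLike.congr_fun h3 P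
  rw [Finsupp.add_apply, Finsupp.smul_apply, FF.dv_apply, smul_eq_mul, Finsupp.zero_apply] at h4
  omega

private lemma f_mem85 (I : Twi D) {P : Place k L} (hP : D.Nice P) : I.f ∈ P.ring :=
  (ord_nonneg_iff D.hL P I.hf0).mp (I.ord_nice hP).ge

private lemma nice_E85 {P : Place k L} (hP : D.Nice P) : D.E P = 0 :=
  D.nice P hP.1 hP.2.1 hP.2.2.1 hP.2.2.2

variable {Ω : Type u} [Field Ω] [Algebra k Ω]

private lemma ev_al85 (I : Twi D) {p : BP k L Ω} (hp : p.Nc D) :
    -3 * p.ev D.al = algebraMap k Ω I.a * p.ev I.f ^ I.e4 := by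
  cases p with
  | cst P =>
    have hP := hp P rfl
    have h3 : IsRes P (-3 : L) (-3 : k) := by
      have := isRes_const (v := P) (-3 : k)
      rwa [map_neg, map_ofNat] at this
    have h1 := h3.mul (VB.isRes_rs D.hL hP.1)
    rw [I.hal] at h1
    have h2 := (isRes_const (v := P) I.a).mul ((VB.isRes_rs D.hL (f_mem85 I hP)).pow I.e4)
    have h4 := congrArg (algebraMap k Ω) (h1.unique h2)
    simp only [map_mul, map_neg, map_pow, map_ofNat] at h4
    exact h4
  | emb ι =>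
    have h4 := congrArg ι I.hal
    simp only [map_mul, map_neg, map_pow, map_ofNat, AlgHom.commutes] at h4
    exact h4

private lemma ev_be85 (I : Twi D) {p : BP k L Ω} (hp : p.Nc D) :
    -2 * p.ev D.be = algebraMap k Ω I.b * p.ev I.f ^ I.e6 := by
  cases p with
  | cst P =>
    have hP := hp P rfl
    have h3 : IsRes P (-2 : L) (-2 : k) := by
      have := isRes_const (v := P) (-2 : k)
      rwa [map_neg, map_ofNat] at this
    have h1 := h3.mul (VB.isRes_rs D.hL hP.2.1)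
    rw [I.hbe] at h1
    have h2 := (isRes_const (v := P) I.b).mul ((VB.isRes_rs D.hL (f_mem85 I hP)).pow I.e6)
    have h4 := congrArg (algebraMap k Ω) (h1.unique h2)
    simp only [map_mul, map_neg, map_pow, map_ofNat] at h4
    exact h4
  | emb ι =>
    have h4 := congrArg ι I.hbe
    simp only [map_mul, map_neg, map_pow, map_ofNat, AlgHom.commutes] at h4
    exact h4

theorem exists_pts (I : Twi D) {b : Fin g → BP k L Ω} {v : Fin g → Ω}
    (hv : ∀ i, v i ^ I.m = (b i).ev I.f) (hb : ∀ i, (b i).Nc D) {x y : Fin g → k}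
    (hxy : ∀ i, y i ^ 2 = x i ^ 3 + I.a * x i + I.b) :
    ∃ c : Fin g → KPt D Ω, ∀ i, (c i).p = b i ∧ (c i).x = algebraMap k Ω (x i) * v i ^ 2 ∧
      (c i).y = algebraMap k Ω (y i) * v i ^ 3 := by
  have heq : ∀ i, Pool.Agent.Helper51.VN.OnE ((b i).ev D.al) ((b i).ev D.be)
      (algebraMap k Ω (x i) * v i ^ 2) (algebraMap k Ω (y i) * v i ^ 3) := by
    intro i
    have ea := ev_al85 I (hb i)
    have eb := ev_be85 I (hb i)
    have e4 : algebraMap k Ω I.a * v i ^ 4 = -3 * (b i).ev D.al := by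
      rw [ea]
      rcases I.h4 with h4 | h4
      · rw [h4, map_zero, zero_mul, zero_mul]
      · rw [← h4, pow_mul, hv i]
    have e6 : algebraMap k Ω I.b * v i ^ 6 = -2 * (b i).ev D.be := by
      rw [eb]
      rcases I.h6 with h6 | h6
      · rw [h6, map_zero, zero_mul, zero_mul]
      · rw [← h6, pow_mul, hv i]
    have e0 := congrArg (algebraMap k Ω) (hxy i)
    simp only [map_add, map_mul, map_pow] at e0
    unfold Pool.Agent.Helper51.VN.OnE
    linear_combination v i ^ 6 * e0 + algebraMap k Ω (x i) * v i ^ 2 * e4 + e6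
  exact ⟨fun i => ⟨b i, algebraMap k Ω (x i) * v i ^ 2, algebraMap k Ω (y i) * v i ^ 3, hb i, heq i⟩,
    fun i => ⟨rfl, rfl, rfl⟩⟩

theorem fam_val [IsAlgClosed Ω] (I : Twi D) (hN : D.N = 0) {T : Fin g → Place k L}
    {T0 : Place k L} (hT0 : D.Nice T0) {lam rho : k} {ι : Type*} {S : Finset ι}
    {φ : ι → (L →ₐ[k] Ω)} {r : ι → Ω} {b : Fin g → BP k L Ω} {v : Fin g → Ω}
    (hF : Fam D.hL D.E I.f I.m T T0 lam rho S φ r b v) {v₀ x y : Fin g → k}
    (hV : I.Valid T v₀ x y) {W : Place k Ω} (hW : Full W) {R : ι → Place k L} {ρ : ι → k}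
    (hR : ∀ j ∈ S, VB.Over (R j) (φ j) W) (hRn : ∀ j ∈ S, D.Nice (R j))
    (hρ : ∀ j ∈ S, IsRes W (r j) (ρ j))
    (hgen : ∀ B, ¬ D.Nice B → FF.ell (∑ i, Finsupp.single (T i) 1 +
      ∑ j ∈ S, (Finsupp.single (R j) 1 - Finsupp.single T0 1) - Finsupp.single B 1) = 0) :
    ∃ (P : Fin g → Place k L) (hb : L) (μ : Fin g → k), hb ≠ 0 ∧ I.Valid P μ x y ∧
      (∀ i, (b i).Ov W (P i)) ∧ (∀ i, IsRes W (v i) (μ i)) ∧
      ∑ i, Finsupp.single (P i) 1 = (∑ i, Finsupp.single (T i) 1 +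
        ∑ j ∈ S, (Finsupp.single (R j) 1 - Finsupp.single T0 1)) + FF.dv D.hL hb ∧
      (∀ B, D.E B ≠ 0 → rs B hb ≠ 0) ∧
      (∏ i, μ i) * vl hb D.E = lam * ∏ j ∈ S, (ρ j / rho) := by
  obtain ⟨P, hb, hb0, hOv, hdv, hmu⟩ := hF.red W hW R ρ hR (fun j hj => nice_E85 (hRn j hj)) hρ
  have hsum : ∑ i, Finsupp.single (P i) (1 : ℤ) = (∑ i, Finsupp.single (T i) 1 +
      ∑ j ∈ S, (Finsupp.single (R j) 1 - Finsupp.single T0 1)) + FF.dv D.hL hb := by
    rw [hdv]
    abel
  have hPn : ∀ i, D.Nice (P i) := by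
    intro i
    by_contra hn
    exact avoid_eff D.hL (hgen (P i) hn) hb0 hsum i rfl
  obtain ⟨μ, hμ, hprod⟩ := hmu (fun i => nice_E85 (hPn i))
  refine ⟨P, hb, μ, hb0, ⟨hPn, ?_, hV.curve⟩, hOv, hμ, hsum, ?_, hprod⟩
  · intro i
    have h1 := (hμ i).pow I.m
    rw [hF.root i] at h1
    exact h1.unique (VB.isRes_ev D.hL (hOv i) (f_mem85 I (hPn i)))
  · intro B hB
    have hBn : ¬ D.Nice B := fun h => hB (nice_E85 h)
    refine rs_ne_zero D.hL hb0 ?_
    have h1 := DFunLike.congr_fun hdv B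
    rw [FF.dv_apply] at h1
    rw [h1]
    have hne : ∀ Q, D.Nice Q → (Finsupp.single Q (1 : ℤ)) B = 0 := by
      intro Q hQ
      classical
      rw [Finsupp.single_apply, if_neg]
      rintro rfl
      exact hBn hQ
    simp only [Finsupp.sub_apply, Finsupp.finsetSum_apply]
    rw [Finset.sum_eq_zero (fun i _ => hne (P i) (hPn i)),
      Finset.sum_eq_zero (fun i _ => hne (T i) (hV.nice i)),
      Finset.sum_eq_zero (fun j hj => by rw [hne (R j) (hRn j hj), hne T0 hT0, sub_zero])]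
    simp

end Pool.Agent.Helper51.IZ
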