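import Mathlib
import Pool.Agent.Helper51.IZ.Val

/-!
# Block IZ-SV: comparison of values, and the finite set of divisors

* `same_val`: `unique_eff` gives `∑ P i = ∑ P' i` and `hb' = c * hb`, `c ≠ 0` constant, so `vl hb' E = c ^ deg E * vl hb E = vl hb E`
  (`vl_mul`, `vl_const`, `deg_E`), it is not zero (`vl_ne_zero`), so `∏ μ i = ∏ μ' i`: `gt_same`.
* `finite_bad`: `al`, `be` are regular at almost all places, `be ^ 2 - al ^ 3 ≠ 0` has order zero at almost all places, `R` is
  finite (`finite_support_ord D.hL`; see `fin37` and `hBf` in IS/Mv.lean).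
* `exists_delta`: `Δ` is the image of the finite set of all `(R, S, B)`, `R : Fin N → insert T0 Z`, `S : Finset (Fin N)`,
  `B ∈ insert T0 bad`, under `∑ j ∈ S, (R j - T0) - B`. In `Gnr Δ 0 T` the filter `0 ≤ j` is `univ`.
-/

set_option linter.unusedSectionVars false

namespace Pool.Agent.Helper51.IZ

open VC VF Function
open Pool.Agent.Helper51.VB (rs BP Ell OJ KPt)
open Pool.Agent.Helper51.IS (Twi GT)

universe u

variable {k L : Type u} [Field k] [IsAlgClosed k] [CharZero k] [Field L] [Algebra k L]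
  {D : Ell k L} {n : ℕ} {Ψ : (Fin n → Place k L × k × k) → k}

theorem same_val (I : Twi D) (hN : D.N = 0) (h : OJ D n Ψ) {A : Place k L →₀ ℤ} {B : Place k L}
    (hA : FF.ell (A - Finsupp.single B 1) = 0) {P P' : Fin n → Place k L} {μ μ' x y : Fin n → k}
    {hb hb' : L} (hb0 : hb ≠ 0) (hb0' : hb' ≠ 0) (hV : I.Valid P μ x y) (hV' : I.Valid P' μ' x y)
    (hP : ∑ i, Finsupp.single (P i) 1 = A + FF.dv D.hL hb)
    (hP' : ∑ i, Finsupp.single (P' i) 1 = A + FF.dv D.hL hb')
    (hE : ∀ B, D.E B ≠ 0 → rs B hb ≠ 0) (hE' : ∀ B, D.E B ≠ 0 → rs B hb' ≠ 0)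
    (hμ : (∏ i, μ i) * vl hb D.E = (∏ i, μ' i) * vl hb' D.E) :
    GT Ψ P μ x y = GT Ψ P' μ' x y := by
  obtain ⟨⟨c, hc, hcb⟩, hsum⟩ := unique_eff D.hL hA hb0 hb0' hP hP'
  have hrc : ∀ P : Place k L, D.E P ≠ 0 → rs P (algebraMap k L c) ≠ 0 := by
    intro P _
    rw [VB.rs_eq (isRes_const (v := P) c)]
    exact hc
  have h1 : vl hb' D.E = vl hb D.E := by
    rw [hcb, vl_mul D.hL hrc hE, vl_const D.hL hc, deg_E hN, zpow_zero, one_mul]
  rw [h1] at hμ
  have h2 : ∏ i, μ i = ∏ i, μ' i := mul_right_cancel₀ (vl_ne_zero hE) hμ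
  exact gt_same I h hV hV' hsum h2

private lemma fin_h55 (hL : IsFunctionField k L) (f : L) :
    {P : Place k L | f ∉ P.ring}.Finite := by
  by_cases hf : f = 0
  · refine Set.finite_empty.subset fun P hP => ?_
    exact hP (by rw [hf]; exact P.ring.zero_mem)
  · refine (finite_support_ord hL hf).subset fun P hP => ?_
    rw [Set.mem_ofPred_eq]
    intro h0
    exact hP ((ord_nonneg_iff hL P hf).mp h0.ge)

theorem finite_bad (D : Ell k L) : {P : Place k L | ¬ D.Nice P}.Finite := by
  refine ((((fin_h55 D.hL D.al).union (fin_h55 D.hL D.be)).union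
    (finite_support_ord D.hL D.hD)).union (Finset.finite_toSet D.R)).subset fun P hP => ?_
  by_contra hcon
  apply hP
  simp only [Set.mem_union, not_or] at hcon
  obtain ⟨⟨⟨h1, h2⟩, h3⟩, h4⟩ := hcon
  exact ⟨not_not.mp h1, not_not.mp h2, not_not.mp h3, h4⟩

theorem exists_delta (D : Ell k L) (N : ℕ) (Z : Finset (Place k L)) (T0 : Place k L) :
    ∃ Δ : Finset (Place k L →₀ ℤ), (∀ X ∈ Δ, FF.deg X = -1) ∧
      ∀ {g : ℕ} (T : Fin g → Place k L), Gnr Δ 0 T → ∀ (S : Finset (Fin N))
        (R : Fin N → Place k L), (∀ j ∈ S, R j ∈ Z) → ∀ B, (¬ D.Nice B ∨ B = T0) →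
        FF.ell (∑ i, Finsupp.single (T i) 1 +
          ∑ j ∈ S, (Finsupp.single (R j) 1 - Finsupp.single T0 1) - Finsupp.single B 1) = 0 := by
  classical
  refine ⟨((Fintype.piFinset (fun _ : Fin N => insert T0 Z)) ×ˢ
    ((Finset.univ : Finset (Finset (Fin N))) ×ˢ (insert T0 (finite_bad D).toFinset))).image
    (fun p => ∑ j ∈ p.2.1, (Finsupp.single (p.1 j) (1 : ℤ) - Finsupp.single T0 1) -
      Finsupp.single p.2.2 1), ?_, ?_⟩
  · intro X hX
    obtain ⟨p, -, rfl⟩ := Finset.mem_image.1 hX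
    simp
  · intro g T hT S R hR B hB
    set R' : Fin N → Place k L := fun j => if j ∈ S then R j else T0 with hR'
    have h1 : ∑ j ∈ S, (Finsupp.single (R j) (1 : ℤ) - Finsupp.single T0 1) =
        ∑ j ∈ S, (Finsupp.single (R' j) (1 : ℤ) - Finsupp.single T0 1) := by
      refine Finset.sum_congr rfl fun j hj => ?_
      rw [hR']
      simp only [hj, if_true]
    have h2 := hT (∑ j ∈ S, (Finsupp.single (R' j) (1 : ℤ) - Finsupp.single T0 1) -
      Finsupp.single B 1) (by
        refine Finset.mem_image.2 ⟨(R', S, B), ?_, rfl⟩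
        refine Finset.mem_product.2 ⟨?_, Finset.mem_product.2 ⟨Finset.mem_univ _, ?_⟩⟩
        · refine Fintype.mem_piFinset.2 fun j => ?_
          rw [hR']
          by_cases hj : j ∈ S
          · simp only [hj, if_true]
            exact Finset.mem_insert_of_mem (hR j hj)
          · simp only [hj, if_false]
            exact Finset.mem_insert_self _ _
        · rcases hB with hB | hB
          · exact Finset.mem_insert_of_mem ((finite_bad D).mem_toFinset.2 hB)
          · rw [hB]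
            exact Finset.mem_insert_self _ _)
    have h3 : Finset.univ.filter (fun j : Fin g => (0 : ℕ) ≤ j) = Finset.univ := by
      simp
    rw [h3] at h2
    rw [h1]
    have h4 : ∑ i, Finsupp.single (T i) 1 +
        ∑ j ∈ S, (Finsupp.single (R' j) (1 : ℤ) - Finsupp.single T0 1) - Finsupp.single B 1 =
        ∑ j ∈ S, (Finsupp.single (R' j) (1 : ℤ) - Finsupp.single T0 1) - Finsupp.single B 1 +
        ∑ i, Finsupp.single (T i) 1 := by
      abel
    rw [h4]
    exact h2

end Pool.Agent.Helper51.IZ
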