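import Mathlib
import Pool.Agent.Helper51.IZ.Sv
import Pool.Agent.Helper51.IZ.Dat
import Pool.Agent.Helper51.IZ.Om

/-!
# Block IZ-MT: the main argument

Let `bad = finite_bad D`, `T0` a nice place (`FF.infinite_place`). `f` has order zero at nice places (`I.ord_nice`).
`exists_dat D.hL I.hf0 I.hm0 hr bad`: `ζ, rho, Z, N, K₁, q₁, φ, r`. `Δ` from `exists_delta D N Z T0`. All places in `Z` are nice. Let
`Ψ, T, v₀, x, y` be given, `lam = ∏ v₀ i`. `Ω = AlgebraicClosure K₁` (with its `k`-algebra structure through `K₁`). For each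
`S : Finset (Fin N)` take `b S`, `v S` from `exists_fam` (over `Ω`, embeddings `a.comp (φ j)`, roots `a (r j)`,
`a = IsScalarTower.toAlgHom k K₁ Ω`).
* Poles. Let `W` be full with `a q₁ ∉ W.ring`. `exists_under` gives `w` with `VB.Over w a W`; `q₁ ∉ w.ring` (`over_mem`), so
  `VB.Over T0 (φ j) w` and `IsRes w (r j) (ζ rho)`, so the same over `W`. `fam_val` with `R j = T0`, `ρ j = ζ rho` (`hgen` from `Gnr`)
  gives `P, hb, μ` with `∏ μ * vl hb E = lam * ζ ^ card S` and `∑ P i = ∑ T i + dv hb`; by `same_val` with `P' = T`, `hb' = 1`,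
  `μ' = update v₀ i₀ (ζ ^ card S * v₀ i₀)`, `A = ∑ T i`, `B = T0` the value of `Ψ` at
  `fun i => (P i, x i * μ i ^ 2, y i * μ i ^ 3)` is `GT Ψ T (update v₀ i₀ (ζ ^ card S * v₀ i₀)) x y`.
* There is such a `W`: `q₁` has a pole `w` (transcendental), `exists_full`. So if `b S i = .cst P'` then `P' = P i` is nice: this is
  `(b S i).Nc D`. `exists_pts` gives the points `c S i`; `(c S i).Val W (P i, x i * μ i ^ 2, y i * μ i ^ 3)` at all `W`, `P`, `μ` as in
  `fam_val`.
* Zeros. Let `IsRes W (a q₁) 0`. As before we get `w`, `IsRes w q₁ 0`, `R`, `ρ`, and `j₀` with `R j₀ = T0`, `ρ j₀ = rho`. `fam_val` for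
  every `S` (`R j ∈ Z`): `P S`, `hb S`, `μ S`. For `j₀ ∉ S` the divisor `A` and the right side `lam * ∏ ρ j / rho` are the same for
  `S` and `insert j₀ S` (`T0 - T0 = 0`, `rho / rho = 1`), so the values are equal by `same_val` (`B = T0`), and the signs are
  opposite: the sum over all `S` is zero (`Finset.sum_involution`, or split into `j₀ ∈ S` and `j₀ ∉ S`).
* `om h` (for the finite set `univ` of all `S`, `ε S = (- 1) ^ card S`) gives the claim.
-/

set_option linter.unusedSectionVars false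

namespace Pool.Agent.Helper51.IZ

open VC VF Function
open Pool.Agent.Helper51.VB (rs BP Ell OJ KPt)
open Pool.Agent.Helper51.IS (Twi GT)

universe u

variable {k L : Type u} [Field k] [IsAlgClosed k] [CharZero k] [Field L] [Algebra k L]
  {D : Ell k L}

private lemma sum_alt1 {N : ℕ} (f : Finset (Fin N) → k) (j₀ : Fin N)
    (h : ∀ S, j₀ ∉ S → f (insert j₀ S) = f S) :
    ∑ S : Finset (Fin N), (-1 : k) ^ S.card * f S = 0 := by
  classical
  have e1 : (Finset.univ : Finset (Finset (Fin N))) = (insert j₀ (Finset.univ.erase j₀)).powerset := by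
    rw [Finset.insert_erase (Finset.mem_univ j₀), Finset.powerset_univ]
  rw [e1, Finset.sum_powerset_insert (Finset.notMem_erase j₀ _), ← Finset.sum_add_distrib]
  refine Finset.sum_eq_zero fun S hS => ?_
  have h1 : j₀ ∉ S := fun h2 => Finset.notMem_erase j₀ _ (Finset.mem_powerset.mp hS h2)
  rw [h S h1, Finset.card_insert_of_notMem h1, pow_succ]
  ring

private lemma over_comp1 {K Ω : Type u} [Field K] [Algebra k K] [Field Ω] [Algebra k Ω]
    {R : Place k L} {φ : L →ₐ[k] K} {w : Place k K} {a : K →ₐ[k] Ω} {W : Place k Ω}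
    (h : VB.Over R φ w) (h' : VB.Over w a W) : VB.Over R (a.comp φ) W :=
  fun f c hf => h' _ _ (h f c hf)

private lemma rs_one1 (P : Place k L) : rs P (1 : L) = 1 := VB.rs_eq isRes_one

private lemma valid_update1 (I : Twi D) {g : ℕ} {T : Fin g → Place k L} {v x y : Fin g → k}
    (hV : I.Valid T v x y) {ζ : k} (hζ : ζ ^ I.m = 1) (i₀ : Fin g) (n : ℕ) :
    I.Valid T (update v i₀ (ζ ^ n * v i₀)) x y := by
  refine ⟨hV.nice, fun i => ?_, hV.curve⟩
  by_cases hi : i = i₀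
  · subst hi
    rw [update_self, mul_pow, ← pow_mul, mul_comm n, pow_mul, hζ, one_pow, one_mul]
    exact hV.root _
  · rw [update_of_ne hi]
    exact hV.root _

private lemma prod_update1 {g : ℕ} (v : Fin g → k) (i₀ : Fin g) (z : k) :
    ∏ i, update v i₀ (z * v i₀) i = (∏ i, v i) * z := by
  classical
  rw [Finset.prod_update_of_mem (Finset.mem_univ i₀),
    Finset.prod_eq_mul_prod_sdiff_singleton_of_mem (Finset.mem_univ i₀) v]
  ring

theorem main_T (I : Twi D) (hN : D.N = 0) {g : ℕ} (hg : IsGenus k L g) (hg0 : g ≠ 0)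
    (hr : ∀ z : L, z ^ I.m ≠ I.f) (i₀ : Fin g) :
    ∃ (Δ : Finset (Place k L →₀ ℤ)) (N : ℕ) (ζ : k), ζ ^ I.m = 1 ∧ ζ ≠ 1 ∧
      (∀ X ∈ Δ, FF.deg X = -1) ∧
      ∀ Ψ : (Fin g → Place k L × k × k) → k, OJ D g Ψ → ∀ (T : Fin g → Place k L)
        (v x y : Fin g → k), I.Valid T v x y → Gnr Δ 0 T →
        ∑ S : Finset (Fin N), (-1) ^ S.card *
          GT Ψ T (update v i₀ (ζ ^ S.card * v i₀)) x y = 0 := by
  classical
  have hL := D.hL
  have hbad := finite_bad D
  obtain ⟨T0, hT0⟩ : ∃ T0, D.Nice T0 := by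
    by_contra hcon
    push Not at hcon
    have := FF.infinite_place hL
    exact (Set.infinite_univ (α := Place k L)) (hbad.subset (fun P _ => hcon P))
  have hS : ∀ P : Place k L, ord P.ring I.f ≠ 0 → P ∈ hbad.toFinset := by
    intro P hP
    rw [Set.Finite.mem_toFinset]
    intro hn
    exact hP (I.ord_nice hn)
  have hT0' : T0 ∉ hbad.toFinset := by
    rw [Set.Finite.mem_toFinset]
    exact fun h => h hT0
  obtain ⟨ζ, rho, Z, N, K₁, iF, iA, hK₁, q₁, φ, r, hζ, hζ1, hrho0, hrho, hq₁, hrj, hZ, hT0Z, hpole,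
    hzero⟩ := exists_dat hL I.hf0 I.hm0 hr hbad.toFinset hS hT0'
  obtain ⟨Δ, hΔ, hgenr⟩ := exists_delta D N Z T0
  refine ⟨Δ, N, ζ, hζ, hζ1, hΔ, ?_⟩
  intro Ψ hΨ T v x y hV hT
  have hE0 : ∀ P, D.Nice P → D.E P = 0 := fun P hP => D.nice P hP.1 hP.2.1 hP.2.2.1 hP.2.2.2
  have hEn : ∀ P, D.E P ≠ 0 → ¬ D.Nice P := fun P h hP => h (hE0 P hP)
  set lam : k := ∏ i, v i with hlamdef
  have hlam : lam ^ I.m = ∏ i, rs (T i) I.f := by
    rw [hlamdef, ← Finset.prod_pow]
    exact Finset.prod_congr rfl fun i _ => hV.root i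
  let Ω := AlgebraicClosure K₁
  let a : K₁ →ₐ[k] Ω := IsScalarTower.toAlgHom k K₁ Ω
  have ha : ∀ z : K₁, a z = algebraMap K₁ Ω z := fun z => rfl
  have hfam := fun S : Finset (Fin N) => exists_fam (Ω := Ω) hL hg hg0 (deg_E hN) I.hf0 I.hm0
    (ord_f I hN) (T := T) (fun i => hE0 _ (hV.nice i)) (T0 := T0) (hE0 _ hT0) (lam := lam)
    (rho := rho) hlam hrho S (φ := fun j => a.comp (φ j)) (r := fun j => a (r j))
    (fun j => by
      change a (r j) ^ I.m = a (φ j I.f)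
      rw [← map_pow, hrj j])
  choose b vv hF using hfam
  -- the values at the poles
  have hP0 : ∀ W : Place k Ω, Full W → algebraMap K₁ Ω q₁ ∉ W.ring → ∀ S : Finset (Fin N),
      ∃ (P : Fin g → Place k L) (hb : L) (μ : Fin g → k), hb ≠ 0 ∧ I.Valid P μ x y ∧
      (∀ i, (b S i).Ov W (P i)) ∧ (∀ i, IsRes W (vv S i) (μ i)) ∧
      ∑ i, Finsupp.single (P i) 1 = (∑ i, Finsupp.single (T i) 1) + FF.dv D.hL hb ∧
      (∀ B, D.E B ≠ 0 → rs B hb ≠ 0) ∧
      (∏ i, μ i) * vl hb D.E = lam * ζ ^ S.card := by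
    intro W hW hq S
    obtain ⟨w, hw⟩ := exists_under hK₁ hW a
    have hqw : q₁ ∉ w.ring := fun h => hq ((over_mem hK₁ hw q₁).mpr h)
    have h1 := hpole w hqw
    obtain ⟨P, hb, μ, h2, h3, h4, h5, h6, h7, h8⟩ := fam_val I hN hT0 (hF S) hV hW
      (R := fun _ => T0) (ρ := fun _ => ζ * rho) (fun j _ => over_comp1 (h1 j).1 hw)
      (fun _ _ => hT0) (fun j _ => (over_iff hK₁ hw _ _).mpr (h1 j).2)
      (fun B hB => hgenr T hT S (fun _ => T0) (fun _ _ => hT0Z) B (Or.inl hB))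
    refine ⟨P, hb, μ, h2, h3, h4, h5, ?_, h7, ?_⟩
    · rw [h6]
      simp
    · rw [h8, Finset.prod_const, mul_div_cancel_right₀ _ hrho0]
  -- there is a pole
  obtain ⟨W₀, hW₀, hqW₀⟩ : ∃ W : Place k Ω, Full W ∧ algebraMap K₁ Ω q₁ ∉ W.ring := by
    have htr : Transcendental k q₁⁻¹ := fun h => hq₁ (by
      have := h.inv
      rwa [inv_inv] at this)
    obtain ⟨w, hw⟩ := VC.exists_place hK₁ htr
    obtain ⟨W, hW, hWw⟩ := exists_full (Ω := Ω) hK₁ w
    refine ⟨W, hW, fun h => ?_⟩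
    have h1 := (over_mem hK₁ hWw q₁).mp h
    rcases (ValuationSubring.mem_nonunits_iff_or _).mp hw with h2 | h2
    · rw [inv_eq_zero] at h2
      rw [h2] at hq₁
      exact hq₁ isAlgebraic_zero
    · rw [inv_inv] at h2
      exact h2 h1
  have hNc : ∀ S i, (b S i).Nc D := by
    intro S i P' hP'
    obtain ⟨P, hb, μ, h2, h3, h4, -⟩ := hP0 W₀ hW₀ hqW₀ S
    have h5 := h4 i
    rw [hP'] at h5
    have h6 : P' = P i := h5
    rw [h6]
    exact h3.nice i
  choose c hc using fun S => exists_pts I (hF S).root (hNc S) hV.curve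
  have hval : ∀ (W : Place k Ω) (S : Finset (Fin N)) (P : Fin g → Place k L) (μ : Fin g → k),
      I.Valid P μ x y → (∀ i, (b S i).Ov W (P i)) → (∀ i, IsRes W (vv S i) (μ i)) →
      ∀ i, (c S i).Val W (P i, x i * μ i ^ 2, y i * μ i ^ 3) := by
    intro W S P μ h1 h2 h3 i
    obtain ⟨c1, c2, c3⟩ := hc S i
    refine ⟨h1.nice i, ?_, ?_, ?_⟩
    · change (c S i).p.Ov W (P i)
      rw [c1]
      exact h2 i
    · change IsRes W (c S i).x (x i * μ i ^ 2)
      rw [c2]
      exact (isRes_const (x i)).mul ((h3 i).pow 2)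
    · change IsRes W (c S i).y (y i * μ i ^ 3)
      rw [c3]
      exact (isRes_const (y i)).mul ((h3 i).pow 3)
  have hA0 : FF.ell ((∑ i, Finsupp.single (T i) 1) - Finsupp.single T0 1) = 0 := by
    have h1 := hgenr T hT ∅ (fun _ => T0) (fun _ _ => hT0Z) T0 (Or.inr rfl)
    rwa [Finset.sum_empty, add_zero] at h1
  refine om hΨ hK₁ hq₁ Finset.univ (fun S : Finset (Fin N) => (-1 : k) ^ S.card) c _ ?_ ?_
  · intro W hW hq
    choose P hb μ h2 h3 h4 h5 h6 h7 h8 using hP0 W hW hq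
    refine ⟨fun S i => (P S i, x i * μ S i ^ 2, y i * μ S i ^ 3), fun S _ => hval W S (P S) (μ S)
      (h3 S) (h4 S) (h5 S), ?_⟩
    refine Finset.sum_congr rfl fun S _ => ?_
    congr 1
    change GT Ψ (P S) (μ S) x y = _
    refine same_val I hN hΨ hA0 (h2 S) one_ne_zero (h3 S) (valid_update1 I hV hζ i₀ _) (h6 S) ?_
      (h7 S) (fun B _ => by rw [rs_one1]; exact one_ne_zero) ?_
    · rw [FF.dv_one, add_zero]
    · rw [h8 S, prod_update1]
      have h9 : vl (1 : L) D.E = 1 := by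
        have := vl_const hL (one_ne_zero (α := k)) D.E
        rw [map_one, one_zpow] at this
        exact this
      rw [h9, mul_one]
  · intro W hW hq
    obtain ⟨w, hw⟩ := exists_under hK₁ hW a
    obtain ⟨R, ρ, hRρ, j₀, hj₀, hρ₀⟩ := hzero w ((over_iff hK₁ hw q₁ 0).mp hq)
    have hRn : ∀ j, D.Nice (R j) := by
      intro j
      by_contra hcon
      exact hZ (R j) (hRρ j).1 (by rw [Set.Finite.mem_toFinset]; exact hcon)
    have hv := fun S : Finset (Fin N) => fam_val I hN hT0 (hF S) hV hW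
      (R := R) (ρ := ρ) (fun j _ => over_comp1 (hRρ j).2.1 hw)
      (fun j _ => hRn j) (fun j _ => (over_iff hK₁ hw _ _).mpr (hRρ j).2.2)
      (fun B hB => hgenr T hT S R (fun j _ => (hRρ j).1) B (Or.inl hB))
    choose P hb μ h2 h3 h4 h5 h6 h7 h8 using hv
    refine ⟨fun S i => (P S i, x i * μ S i ^ 2, y i * μ S i ^ 3), fun S _ => hval W S (P S) (μ S)
      (h3 S) (h4 S) (h5 S), ?_⟩
    refine sum_alt1 (fun S => Ψ (fun i => (P S i, x i * μ S i ^ 2, y i * μ S i ^ 3))) j₀ ?_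
    intro S hS
    change GT Ψ (P (insert j₀ S)) (μ (insert j₀ S)) x y = GT Ψ (P S) (μ S) x y
    refine same_val I hN hΨ (hgenr T hT S R (fun j _ => (hRρ j).1) T0 (Or.inr rfl))
      (h2 (insert j₀ S)) (h2 S) (h3 (insert j₀ S)) (h3 S) ?_ (h6 S) (h7 (insert j₀ S)) (h7 S) ?_
    · rw [h6 (insert j₀ S), Finset.sum_insert hS, hj₀, sub_self, zero_add]
    · rw [h8 (insert j₀ S), h8 S, Finset.prod_insert hS, hρ₀, div_self hrho0, one_mul]

end Pool.Agent.Helper51.IZ
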