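import Mathlib
import Pool.Agent.Helper51.IZ.Sv
import Pool.Agent.Helper83.KV.App
import Pool.Agent.Helper94.VQ.MoveLift
import Pool.Agent.Helper70.VP.RH2

/-!
# Block IZ-STEP: from general tuples to all tuples

* `gt_step`: template `step37` in Helper51/IS/Mv.lean. Let `T, v, x, y` be valid with `Gnr Δ (i + 1) T`. `VF.exists_roots D.hL (m := I.m)` gives
  a function field `K` over `L` with an element `z`, `z ^ m = f`. Let `w₀` be a place of `K` over `T i`; `z` has a residue `e` with
  `e ^ m = rs (T i) f = v i ^ m`, so (`v i ≠ 0`) `v i = γ e`, `γ ^ m = 1`; replace `z` by `γ z`. The points over `K`: for `j ≠ i` constant,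
  `(T j, x j * v j ^ 2, y j * v j ^ 3)`, for `j = i` the point `{p := .emb (L → K), x := x i * z ^ 2, y := y i * z ^ 3}` (the equation: as
  in `exists_pts`, `exists_pts` can be used with `b j = .cst (T j)`, `v j` constant for `j ≠ i`, `b i = .emb ..`, `v i = z`). `OJ.harm` gives `F`;
  at a place `w` over a nice place `P` we have `F w = GT Ψ (update T i P) (update v i (z (w))) x y`, and this is `0` if
  `Gnr Δ i (update T i P)`: for all but finitely many `P` (`gnr_step`, `finite_bad`), so for all but finitely many `w`. A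
  harmonic function which is zero at almost all places is zero (`harm_app37` in IS/Mv.lean, private: copy it), so
  `F w₀ = GT Ψ T v x y` is zero.
* `gt_all`: induction on `i` from `0` to `g`, and `gnr_top`.
* `exists_param`: for given points `p` choose `v i ^ m = rs (p i).1 f`, `x i = (p i).2.1 / v i ^ 2`, `y i = (p i).2.2 / v i ^ 3` (the proof of
  `gen_zero` in IS/Mv.lean, without `D.Pos`).
-/

set_option linter.unusedSectionVars false

namespace Pool.Agent.Helper51.IZ

open VC VF Function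
open Pool.Agent.Helper51.VB (rs BP Ell OJ KPt)
open Pool.Agent.Helper51.IS (Twi GT)
open Pool.Agent.Helper51.VN (Harm OnE)

universe u

variable {k L : Type u} [Field k] [IsAlgClosed k] [CharZero k] [Field L] [Algebra k L]
  {D : Ell k L} {g : ℕ} {Ψ : (Fin g → Place k L × k × k) → k}

/-- A harmonic function which vanishes at almost all places vanishes. -/
private lemma harm_app86 {K : Type u} [Field K] [Algebra k K] {hK : IsFunctionField k K}
    {F : Place k K → k} (h : Harm hK F) {T : Set (Place k K)} (hT : T.Finite)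
    (h0 : ∀ v, v ∉ T → F v = 0) (v : Place k K) : F v = 0 := by
  classical
  by_cases hv : v ∈ T
  swap
  · exact h0 v hv
  obtain ⟨f, hf0, hf1, hf2⟩ := Helper83.KV.exists_zero_at hK (hT.toFinset.erase v) v
    (Finset.notMem_erase v _)
  have h1 := h f hf0
  have h2 : ∀ w ∈ (finite_support_ord hK hf0).toFinset, w ≠ v →
      (ord w.ring f : k) * F w = 0 := by
    intro w _ hw
    by_cases hwT : w ∈ T
    · rw [hf2 w (Finset.mem_erase.mpr ⟨hw, hT.mem_toFinset.mpr hwT⟩), Int.cast_zero, zero_mul]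
    · rw [h0 w hwT, mul_zero]
  rw [Finset.sum_eq_single v h2 (fun hn => by
    exfalso
    apply hn
    rw [Set.Finite.mem_toFinset, Set.mem_ofPred_eq]
    exact hf1)] at h1
  exact (mul_eq_zero.mp h1).resolve_left (Int.cast_ne_zero.mpr hf1)

/-- Values of elements of `K` at the places of `L`. -/
private lemma isRes_iff86 {K L : Type u} [Field K] [Algebra k K] [Field L] [Algebra k L]
    [Algebra K L] [IsScalarTower k K L] (hK : IsFunctionField k K) (hL : IsFunctionField k L)
    (Q : Place k L) (x : K) (c : k) :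
    IsRes Q (algebraMap K L x) c ↔ IsRes (VQ.res hK hL Q) x c := by
  have e : algebraMap K L x - algebraMap k L c = algebraMap K L (x - algebraMap k K c) := by
    rw [map_sub, ← IsScalarTower.algebraMap_apply k K L]
  unfold IsRes
  rw [e]
  exact (mem_nonunits_comap (IsScalarTower.toAlgHom k K L).toRingHom Q.ring _).symm

private lemma f_mem86 (I : Twi D) {P : Place k L} (hP : D.Nice P) : I.f ∈ P.ring :=
  (ord_nonneg_iff D.hL P I.hf0).mp (I.ord_nice hP).ge

private lemma rs_ne86 (I : Twi D) {P : Place k L} (hP : D.Nice P) : rs P I.f ≠ 0 := by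
  intro h0
  have h1 := VB.isRes_rs D.hL (f_mem86 I hP)
  rw [h0] at h1
  have h2 := (ord_pos_iff D.hL P I.hf0).mpr (isRes_zero_iff.mp h1)
  have h3 := I.ord_nice hP
  omega

private lemma root_ne86 (I : Twi D) {P : Place k L} (hP : D.Nice P) {v : k}
    (hv : v ^ I.m = rs P I.f) : v ≠ 0 := by
  rintro rfl
  apply rs_ne86 I hP
  rw [← hv, zero_pow I.hm0]

private lemma coef86 (I : Twi D) {P : Place k L} (hP : D.Nice P) {v : k}
    (hv : v ^ I.m = rs P I.f) :
    -3 * D.a₀ P = I.a * v ^ 4 ∧ -2 * D.b₀ P = I.b * v ^ 6 := by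
  have hf : IsRes P I.f (v ^ I.m) := by
    rw [hv]
    exact VB.isRes_rs D.hL (f_mem86 I hP)
  have ha : IsRes P D.al (D.a₀ P) := VB.isRes_rs D.hL hP.1
  have hb : IsRes P D.be (D.b₀ P) := VB.isRes_rs D.hL hP.2.1
  have e3 : IsRes P (-3 : L) (-3) := by
    have := isRes_const (v := P) (-3 : k)
    rwa [map_neg, map_ofNat] at this
  have e2 : IsRes P (-2 : L) (-2) := by
    have := isRes_const (v := P) (-2 : k)
    rwa [map_neg, map_ofNat] at this
  constructor
  · have h1 := e3.mul ha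
    rw [I.hal] at h1
    have h2 := (isRes_const (v := P) I.a).mul (hf.pow I.e4)
    rw [h1.unique h2, ← pow_mul]
    rcases I.h4 with h | h
    · rw [h, zero_mul, zero_mul]
    · rw [h]
  · have h1 := e2.mul hb
    rw [I.hbe] at h1
    have h2 := (isRes_const (v := P) I.b).mul (hf.pow I.e6)
    rw [h1.unique h2, ← pow_mul]
    rcases I.h6 with h | h
    · rw [h, zero_mul, zero_mul]
    · rw [h]

theorem gt_step (I : Twi D) (h : OJ D g Ψ) (hg : IsGenus k L g) {Δ : Finset (Place k L →₀ ℤ)}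
    (hΔ : ∀ X ∈ Δ, FF.deg X = -1) (i : Fin g)
    (hi : ∀ (T : Fin g → Place k L) (v x y : Fin g → k), I.Valid T v x y → Gnr Δ i T →
      GT Ψ T v x y = 0)
    {T : Fin g → Place k L} {v x y : Fin g → k} (hV : I.Valid T v x y) (hT : Gnr Δ (i + 1) T) :
    GT Ψ T v x y = 0 := by
  classical
  obtain ⟨K, _, _, _, _, zz, hK, hzz⟩ := VF.exists_roots D.hL (m := I.m) I.hm0
    (fun _ : Fin 1 => I.f)
  obtain ⟨w₀, hw₀⟩ := VP.exists_res D.hL hK (T i)
  have hpw : ∀ w : Place k K, D.Nice (VQ.res D.hL hK w) → ∀ z : K,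
      z ^ I.m = algebraMap L K I.f → IsRes w (z ^ I.m) (rs (VQ.res D.hL hK w) I.f) := by
    intro w hw z hz
    rw [hz]
    exact (isRes_iff86 D.hL hK w _ _).mpr (VB.isRes_rs D.hL (f_mem86 I hw))
  -- the root with the value `v i`
  obtain ⟨z, hz, hzv⟩ : ∃ z : K, z ^ I.m = algebraMap L K I.f ∧ IsRes w₀ z (v i) := by
    have h1 := hpw w₀ (by rw [hw₀]; exact hV.nice i) (zz 0) (hzz 0)
    rw [hw₀] at h1
    obtain ⟨e, he, he2⟩ := exists_res_of_pow hK I.hm0 h1
    have he0 : e ≠ 0 := root_ne86 I (hV.nice i) he2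
    have hγ : (v i / e) ^ I.m = 1 := by
      rw [div_pow, hV.root i, he2, div_self (rs_ne86 I (hV.nice i))]
    refine ⟨algebraMap k K (v i / e) * zz 0, ?_, ?_⟩
    · rw [mul_pow, ← map_pow, hγ, map_one, one_mul, hzz 0]
    · have h2 := (isRes_const (v := w₀) (v i / e)).mul he
      rwa [div_mul_cancel₀ _ he0] at h2
  -- the points
  obtain ⟨b, hb⟩ : ∃ b : Fin g → BP k L K, b = fun j =>
      if j = i then .emb (IsScalarTower.toAlgHom k L K) else .cst (T j) := ⟨_, rfl⟩
  obtain ⟨vv, hvv⟩ : ∃ vv : Fin g → K, vv = fun j =>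
      if j = i then z else algebraMap k K (v j) := ⟨_, rfl⟩
  have hbi : b i = .emb (IsScalarTower.toAlgHom k L K) := by rw [hb]; simp
  have hbj : ∀ j, j ≠ i → b j = .cst (T j) := by
    intro j hj; rw [hb]; simp [hj]
  have hvi : vv i = z := by rw [hvv]; simp
  have hvj : ∀ j, j ≠ i → vv j = algebraMap k K (v j) := by
    intro j hj; rw [hvv]; simp [hj]
  obtain ⟨c, hc⟩ := exists_pts I (b := b) (v := vv) (x := x) (y := y) (fun j => by
      by_cases hj : j = i
      · rw [hj, hbi, hvi, hz]; rfl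
      · rw [hbj j hj, hvj j hj, ← map_pow, hV.root j]; rfl) (fun j => by
      intro P hP
      by_cases hj : j = i
      · rw [hj, hbi] at hP; cases hP
      · rw [hbj j hj] at hP
        have h1 : T j = P := by injection hP
        rw [← h1]
        exact hV.nice j) hV.curve
  obtain ⟨F, hF, hFv, -⟩ := h.harm K hK c
  have hval : ∀ (w : Place k K) (P : Place k L) (μ : k), D.Nice P → P = VQ.res D.hL hK w →
      IsRes w z μ → F w = GT Ψ (update T i P) (update v i μ) x y := by
    intro w P μ hP hPw hμ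
    unfold GT
    apply hFv
    intro j
    obtain ⟨c1, c2, c3⟩ := hc j
    by_cases hj : j = i
    · subst hj
      rw [update_self, update_self]
      refine ⟨hP, ?_, ?_, ?_⟩
      · rw [c1, hbi]
        intro f a hf
        rw [hPw] at hf
        exact (isRes_iff86 D.hL hK w f a).mpr hf
      · rw [c2, hvi]
        exact (isRes_const _).mul (hμ.pow 2)
      · rw [c3, hvi]
        exact (isRes_const _).mul (hμ.pow 3)
    · rw [update_of_ne hj, update_of_ne hj]
      refine ⟨hV.nice j, ?_, ?_, ?_⟩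
      · rw [c1, hbj j hj]
        exact rfl
      · rw [c2, hvj j hj]
        exact (isRes_const _).mul ((isRes_const _).pow 2)
      · rw [c3, hvj j hj]
        exact (isRes_const _).mul ((isRes_const _).pow 3)
  have hw0 : F w₀ = GT Ψ T v x y := by
    rw [hval w₀ (T i) (v i) (hV.nice i) hw₀.symm hzv, update_eq_self, update_eq_self]
  rw [← hw0]
  -- the bad places
  obtain ⟨B, hB⟩ : ∃ B : Set (Place k L), B = {P | ¬ D.Nice P} ∪
      {P | ¬ Gnr Δ i (update T i P)} := ⟨_, rfl⟩
  have hBf : B.Finite := by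
    rw [hB]
    exact (finite_bad D).union (gnr_step D.hL hg hΔ i hT)
  refine harm_app86 hF (T := {w | VQ.res D.hL hK w ∈ B}) ?_ ?_ w₀
  · have e : {w : Place k K | VQ.res D.hL hK w ∈ B} =
        ⋃ P ∈ B, {w : Place k K | VQ.res D.hL hK w = P} := by
      ext w
      simp
    rw [e]
    exact hBf.biUnion (fun P _ => VP.finite_res D.hL hK P)
  · intro w hw
    have hw' : VQ.res D.hL hK w ∉ B := hw
    rw [hB, Set.mem_union, not_or] at hw'
    have hN : D.Nice (VQ.res D.hL hK w) := not_not.mp hw'.1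
    have hG : Gnr Δ i (update T i (VQ.res D.hL hK w)) := not_not.mp hw'.2
    obtain ⟨μ, hμ, hμ2⟩ := exists_res_of_pow hK I.hm0 (hpw w hN z hz)
    rw [hval w _ μ hN rfl hμ]
    apply hi _ _ _ _ _ hG
    refine ⟨fun j => ?_, fun j => ?_, hV.curve⟩
    · by_cases hj : j = i
      · subst hj; rw [update_self]; exact hN
      · rw [update_of_ne hj]; exact hV.nice j
    · by_cases hj : j = i
      · subst hj; rw [update_self, update_self]; exact hμ2
      · rw [update_of_ne hj, update_of_ne hj]; exact hV.root j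

theorem gt_all (I : Twi D) (h : OJ D g Ψ) (hg : IsGenus k L g) {Δ : Finset (Place k L →₀ ℤ)}
    (hΔ : ∀ X ∈ Δ, FF.deg X = -1)
    (h0 : ∀ (T : Fin g → Place k L) (v x y : Fin g → k), I.Valid T v x y → Gnr Δ 0 T →
      GT Ψ T v x y = 0)
    {T : Fin g → Place k L} {v x y : Fin g → k} (hV : I.Valid T v x y) : GT Ψ T v x y = 0 := by
  have key : ∀ j : ℕ, j ≤ g → ∀ (T : Fin g → Place k L) (v x y : Fin g → k), I.Valid T v x y →
      Gnr Δ j T → GT Ψ T v x y = 0 := by
    intro j
    induction j with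
    | zero => intro _; exact h0
    | succ j ih =>
      intro hj T v x y hV hT
      exact gt_step I h hg hΔ ⟨j, hj⟩ (ih (by omega)) hV hT
  exact key g le_rfl T v x y hV (gnr_top D.hL hΔ T)

theorem exists_param (I : Twi D) (p : Fin g → Place k L × k × k)
    (hp : ∀ i, D.Nice (p i).1 ∧ OnE (D.a₀ (p i).1) (D.b₀ (p i).1) (p i).2.1 (p i).2.2) :
    ∃ v x y : Fin g → k, I.Valid (fun i => (p i).1) v x y ∧
      ∀ Ψ : (Fin g → Place k L × k × k) → k, Ψ p = GT Ψ (fun i => (p i).1) v x y := by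
  have hv : ∀ i, ∃ v : k, v ^ I.m = rs (p i).1 I.f := fun i =>
    IsAlgClosed.exists_pow_nat_eq _ (Nat.pos_of_ne_zero I.hm0)
  choose v hv using hv
  have hv0 : ∀ i, v i ≠ 0 := fun i => root_ne86 I (hp i).1 (hv i)
  obtain ⟨x, hx⟩ : ∃ x : Fin g → k, ∀ i, x i * v i ^ 2 = (p i).2.1 :=
    ⟨fun i => (p i).2.1 / v i ^ 2, fun i => div_mul_cancel₀ _ (pow_ne_zero 2 (hv0 i))⟩
  obtain ⟨y, hy⟩ : ∃ y : Fin g → k, ∀ i, y i * v i ^ 3 = (p i).2.2 :=
    ⟨fun i => (p i).2.2 / v i ^ 3, fun i => div_mul_cancel₀ _ (pow_ne_zero 3 (hv0 i))⟩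
  refine ⟨v, x, y, ⟨fun i => (hp i).1, hv, fun i => ?_⟩, fun Ψ => ?_⟩
  · have h1 : (p i).2.2 ^ 2 = (p i).2.1 ^ 3 - 3 * D.a₀ (p i).1 * (p i).2.1 -
      2 * D.b₀ (p i).1 := (hp i).2
    obtain ⟨h2, h3⟩ := coef86 I (hp i).1 (hv i)
    rw [← hx i, ← hy i] at h1
    have h4 : (y i ^ 2 - (x i ^ 3 + I.a * x i + I.b)) * v i ^ 6 = 0 := by
      linear_combination h1 + (x i * v i ^ 2) * h2 + h3
    exact sub_eq_zero.mp ((mul_eq_zero.mp h4).resolve_right (pow_ne_zero 6 (hv0 i)))
  · unfold GT
    congr 1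
    funext i
    rw [hx i, hy i]

end Pool.Agent.Helper51.IZ
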