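import Mathlib
import Pool.Agent.Helper51.IS.Sym

/-!
# Block IZ-TOR: a functional killed by a power of `1 - ζ`

Fix valid `v, x, y`, let `s j = GT Ψ T (update v i₀ (ζ ^ j * v i₀)) x y`.
* `s (j + m) = s j`, and `hsum` for `update v i₀ (ζ ^ l * v i₀)` (valid) is `∑ j, (-1) ^ j * N.choose j * s (j + l) = 0` for all `l`. So
  the shift `σ` on sequences satisfies `(1 - σ) ^ N s = 0`, `(σ ^ m - 1) s = 0`. In `k [X]` we have `X ^ m - 1 = (X - 1) Φ`, `Φ (1) = m ≠ 0`, so
  `Φ` and `(1 - X) ^ N` are coprime, and `X - 1 = A (1 - X) ^ N + B (X ^ m - 1)`: `s (j + 1) = s j`, `s j = s 0` for all `j`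
  (this is lemma `periodic_const`).
* If `ζ ^ j = - 1` for some `j`: `s 0 = s j = GT` with `y i₀` replaced by `- y i₀`, so `s 0 = - s 0` (`IS.gt_odd`).
* Otherwise: `m = 2` gives `ζ = - 1`. If `I.a ≠ 0` then `m` divides `4` (`I.h4`) and `ζ ^ 4 = 1`, `ζ ≠ 1`: `ζ = -1` or `ζ ^ 2 = - 1`. If `I.a = 0` then
  `I.b ≠ 0` (`I.hE`), `m` divides `6`, `ζ ^ 6 = 1`, `ζ ^ 3 ≠ - 1`, so `ζ ^ 3 = 1` and `1 + ζ + ζ ^ 2 = 0`. In this case (`I.a = 0`):
  if `y i₀ = 0` use `IS.gt_zero`. Let `y₀ = y i₀ ≠ 0`. By the first part (for all `x`, `v`) and `IS.gt_twist` the value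
  `GT Ψ T v (update x i₀ X) (update y i₀ t)`, `t ^ 2 = X ^ 3 + b`, does not change if `X` is replaced by `ζ X`, `ζ ^ 2 X` (`ζ ^ 3 = 1`).
  `VN.exists_poly_roots` (see the proof of `lin_line_path` in IS/Lin.lean) gives a function field `K` with `τ` and `ξ ^ 3 = τ ^ 2 - b`.
  `IS.gt_harm` for `x i₀ = ξ`, `y i₀ = τ`, the other coordinates constant: harmonic `F`, and at a place with `IsRes w τ t` the
  value is `GT .. X .. t` with some `X ^ 3 = t ^ 2 - b`. So `F` is constant over `τ = y₀` and over `τ = - y₀` (all `X` with the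
  given cube differ by a power of `ζ`), with values `s 0` and `- s 0`. `VN.Harm.path`: `s 0 = - s 0`.
-/

set_option linter.unusedSectionVars false

namespace Pool.Agent.Helper51.IZ

open VC VF Function Polynomial
open Pool.Agent.Helper51.VB (rs BP Ell OJ KPt)
open Pool.Agent.Helper51.IS (Twi GT)

universe u

section per

variable {k : Type*} [Field k]

/-- the shift on sequences -/
private def sh74 (k : Type*) [Field k] : Module.End k (ℕ → k) where
  toFun s := fun j => s (j + 1)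
  map_add' _ _ := rfl
  map_smul' _ _ := rfl

private lemma sh74_pow (i : ℕ) (s : ℕ → k) (j : ℕ) : ((sh74 k) ^ i) s j = s (i + j) := by
  induction i generalizing s j with
  | zero => rw [pow_zero, Module.End.one_apply, zero_add]
  | succ i ih =>
    rw [pow_succ, Module.End.mul_apply, ih]
    show s (i + j + 1) = s (i + 1 + j)
    congr 1
    omega

private lemma one_sub74 (N : ℕ) : ((1 : k[X]) - X) ^ N = ∑ S : Finset (Fin N), (-X) ^ S.card := by
  classical
  have h := Finset.prod_add (fun _ : Fin N => (-X : k[X])) (fun _ => 1) Finset.univ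
  rw [Finset.prod_const, Finset.card_univ, Fintype.card_fin] at h
  have e : (-X : k[X]) + 1 = 1 - X := by ring
  rw [e] at h
  rw [h, Finset.powerset_univ]
  refine Finset.sum_congr rfl fun S _ => ?_
  rw [Finset.prod_const, Finset.prod_const_one, mul_one]

private lemma coprime74 [CharZero k] (N : ℕ) {m : ℕ} (hm : m ≠ 0) :
    IsCoprime (((1 : k[X]) - X) ^ N) (∑ i ∈ Finset.range m, (X : k[X]) ^ i) := by
  refine IsCoprime.pow_left ?_
  have h1 : (X - C (1 : k)) ∣ (∑ i ∈ Finset.range m, (X : k[X]) ^ i) -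
      C ((∑ i ∈ Finset.range m, (X : k[X]) ^ i).eval 1) := X_sub_C_dvd_sub_C_eval
  have h2 : (∑ i ∈ Finset.range m, (X : k[X]) ^ i).eval 1 = (m : k) := by
    rw [eval_finsetSum]
    simp
  rw [h2] at h1
  obtain ⟨r, hr⟩ := h1
  have hm' : (m : k) ≠ 0 := Nat.cast_ne_zero.mpr hm
  refine ⟨C (m : k)⁻¹ * r, C (m : k)⁻¹, ?_⟩
  have h3 : (∑ i ∈ Finset.range m, (X : k[X]) ^ i) = (X - C 1) * r + C (m : k) := by
    rw [← hr]; ring
  have h4 : (C (m : k)⁻¹ : k[X]) * C (m : k) = 1 := by
    rw [← C_mul, inv_mul_cancel₀ hm', C_1]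
  rw [h3, C_1]
  linear_combination h4

end per

theorem periodic_const {k : Type*} [Field k] [CharZero k] {s : ℕ → k} {m N : ℕ} (hm : m ≠ 0)
    (hper : ∀ j, s (j + m) = s j)
    (hsum : ∀ l, ∑ S : Finset (Fin N), (-1) ^ S.card * s (S.card + l) = 0) (j : ℕ) :
    s j = s 0 := by
  classical
  set σ := sh74 k with hσ
  have h1 : aeval σ (((1 : k[X]) - X) ^ N) s = 0 := by
    rw [one_sub74, map_sum]
    funext l
    rw [LinearMap.sum_apply, Finset.sum_apply]
    refine (Finset.sum_congr rfl fun S _ => ?_).trans (hsum l)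
    have e : (-X : k[X]) ^ S.card = C ((-1) ^ S.card) * X ^ S.card := by
      rw [neg_pow, C_pow, C_neg, C_1]
    rw [e, map_mul, aeval_C, aeval_X_pow, Module.End.mul_apply,
      Module.algebraMap_end_apply, Pi.smul_apply, smul_eq_mul, hσ, sh74_pow]
  have h2 : (σ ^ m) s = s := by
    funext l
    rw [hσ, sh74_pow, add_comm, hper]
  -- the difference
  have h3 : aeval σ (∑ i ∈ Finset.range m, (X : k[X]) ^ i) (aeval σ (X - 1 : k[X]) s) = 0 := by
    rw [← Module.End.mul_apply, ← map_mul, geom_sum_mul, map_sub, map_pow, aeval_X, map_one,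
      LinearMap.sub_apply, h2, Module.End.one_apply, sub_self]
  have h4 : aeval σ (((1 : k[X]) - X) ^ N) (aeval σ (X - 1 : k[X]) s) = 0 := by
    rw [← Module.End.mul_apply, ← map_mul, mul_comm, map_mul, Module.End.mul_apply, h1, map_zero]
  obtain ⟨a, b, hab⟩ := coprime74 (k := k) N hm
  have h5 : aeval σ (X - 1 : k[X]) s = 0 := by
    have h6 : aeval σ (a * (1 - X) ^ N + b * ∑ i ∈ Finset.range m, (X : k[X]) ^ i)
        (aeval σ (X - 1 : k[X]) s) = aeval σ (X - 1 : k[X]) s := by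
      rw [hab, map_one, Module.End.one_apply]
    rw [← h6, map_add, map_mul, map_mul, LinearMap.add_apply, Module.End.mul_apply,
      Module.End.mul_apply, h3, h4, map_zero, map_zero, add_zero]
  have h7 : ∀ j, s (j + 1) = s j := by
    intro j
    have h8 := congrFun h5 j
    rw [map_sub, aeval_X, map_one, LinearMap.sub_apply, Module.End.one_apply] at h8
    exact sub_eq_zero.mp h8
  induction j with
  | zero => rfl
  | succ j ih => rw [h7, ih]

variable {k L : Type u} [Field k] [IsAlgClosed k] [CharZero k] [Field L] [Algebra k L]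
  {D : Ell k L} {n : ℕ} {Ψ : (Fin n → Place k L × k × k) → k}

private lemma valid_mul74 (I : Twi D) {T : Fin n → Place k L} {v x y : Fin n → k}
    (hV : I.Valid T v x y) {g : k} (hg : g ^ I.m = 1) (i₀ : Fin n) :
    I.Valid T (update v i₀ (g * v i₀)) x y := by
  refine ⟨hV.nice, fun l => ?_, hV.curve⟩
  by_cases hl : l = i₀
  · subst hl
    simp only [update_self, mul_pow, hg, one_mul]
    exact hV.root l
  · simp only [update_of_ne hl]
    exact hV.root l

private lemma valid_upd74 (I : Twi D) {T : Fin n → Place k L} {v x y : Fin n → k}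
    (hV : I.Valid T v x y) (i₀ : Fin n) {X Y : k} (hc : Y ^ 2 = X ^ 3 + I.a * X + I.b) :
    I.Valid T v (update x i₀ X) (update y i₀ Y) := by
  refine ⟨hV.nice, hV.root, fun l => ?_⟩
  by_cases hl : l = i₀
  · subst hl
    rw [update_self, update_self]
    exact hc
  · rw [update_of_ne hl, update_of_ne hl]
    exact hV.curve l

private lemma gt_upd74 (T : Fin n → Place k L) (v x y : Fin n → k) (g : k) (i₀ : Fin n) :
    GT Ψ T (update v i₀ (g * v i₀)) x y =
      GT Ψ T v (update x i₀ (g ^ 2 * x i₀)) (update y i₀ (g ^ 3 * y i₀)) := by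
  unfold GT
  congr 1
  funext l
  by_cases hl : l = i₀
  · subst hl
    simp only [update_self]
    exact Pool.Agent.Helper51.IS.gt_twist _ _ _ _ _
  · simp only [update_of_ne hl]

/-- invariance under multiplication by powers of `ζ` -/
private lemma gt_inv74 (I : Twi D) {i₀ : Fin n} {ζ : k} {N : ℕ} (hζ : ζ ^ I.m = 1)
    {T : Fin n → Place k L}
    (hsum : ∀ v x y : Fin n → k, I.Valid T v x y → ∑ S : Finset (Fin N), (-1) ^ S.card *
      GT Ψ T (update v i₀ (ζ ^ S.card * v i₀)) x y = 0) {v x y : Fin n → k}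
    (hV : I.Valid T v x y) (j : ℕ) :
    GT Ψ T v (update x i₀ ((ζ ^ j) ^ 2 * x i₀)) (update y i₀ ((ζ ^ j) ^ 3 * y i₀)) =
      GT Ψ T v x y := by
  rw [← gt_upd74]
  have hpow : ∀ l : ℕ, (ζ ^ l) ^ I.m = 1 := fun l => by
    rw [← pow_mul, mul_comm, pow_mul, hζ, one_pow]
  have h := periodic_const (s := fun j => GT Ψ T (update v i₀ (ζ ^ j * v i₀)) x y) (m := I.m)
    (N := N) I.hm0 (fun j => by
      show GT Ψ T (update v i₀ (ζ ^ (j + I.m) * v i₀)) x y = GT Ψ T (update v i₀ (ζ ^ j * v i₀)) x y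
      rw [pow_add, hζ, mul_one]) (fun l => by
      have h1 := hsum (update v i₀ (ζ ^ l * v i₀)) x y (valid_mul74 I hV (hpow l) i₀)
      refine (Finset.sum_congr rfl fun S _ => ?_).trans h1
      show _ * GT Ψ T (update v i₀ (ζ ^ (S.card + l) * v i₀)) x y = _
      rw [update_self, update_idem, pow_add, mul_assoc]) j
  have h0 : update v i₀ (ζ ^ 0 * v i₀) = v := by
    rw [pow_zero, one_mul]
    exact update_eq_self i₀ v
  simp only [h0] at h
  exact h

/-- the cubic case -/
private lemma gt_cub74 (I : Twi D) (h : OJ D n Ψ) {i₀ : Fin n} {ζ : k} (hζ3 : 1 + ζ + ζ ^ 2 = 0)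
    {T : Fin n → Place k L} {v x y : Fin n → k} (ha : I.a = 0)
    (hV : I.Valid T v x y)
    (H1 : GT Ψ T v (update x i₀ (ζ * x i₀)) y = GT Ψ T v x y)
    (H2 : GT Ψ T v (update x i₀ (ζ ^ 2 * x i₀)) y = GT Ψ T v x y) : GT Ψ T v x y = 0 := by
  by_cases hy0 : y i₀ = 0
  · exact Pool.Agent.Helper51.IS.gt_zero I h hV hy0
  have hζ31 : ζ ^ 3 = 1 := by linear_combination (ζ - 1) * hζ3
  obtain ⟨K, _, _, τ, r, hK, hτ, hr⟩ := exists_poly_roots (k := k) (n := 1) (m := 3)
    (by norm_num) (fun _ : Fin 1 => (Polynomial.X ^ 2 - Polynomial.C I.b : Polynomial k))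
  have hr0 : r 0 ^ 3 = τ ^ 2 - algebraMap k K I.b := by
    rw [hr 0, map_sub, map_pow, aeval_X, aeval_C]
  obtain ⟨F, hF, hval⟩ := Pool.Agent.Helper51.IS.gt_harm (v := v) (T := T) I h hV.nice hV.root hK
    (update (fun l => algebraMap k K (x l)) i₀ (r 0))
    (update (fun l => algebraMap k K (y l)) i₀ τ) (by
      intro l
      by_cases hl : l = i₀
      · subst hl
        rw [update_self, update_self, ha, map_zero, zero_mul, add_zero, hr0]
        ring
      · rw [update_of_ne hl, update_of_ne hl]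
        have h1 := congrArg (algebraMap k K) (hV.curve l)
        simpa only [map_add, map_mul, map_pow] using h1)
  have hv2 : ∀ (t : k) (w : Place k K), IsRes w τ t → ∃ X : k, X ^ 3 = t ^ 2 - I.b ∧
      F w = GT Ψ T v (update x i₀ X) (update y i₀ t) := by
    intro t w hw
    have h1 : IsRes w (r 0 ^ 3) (t ^ 2 - I.b) := by
      rw [hr0]
      exact (hw.pow 2).sub (isRes_const I.b)
    obtain ⟨X, hX, hX3⟩ := exists_res_of_pow hK (by norm_num : 3 ≠ 0) h1
    refine ⟨X, hX3, hval w _ _ (fun l => ?_) (fun l => ?_)⟩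
    · by_cases hl : l = i₀
      · subst hl
        rw [update_self, update_self]
        exact hX
      · rw [update_of_ne hl, update_of_ne hl]
        exact isRes_const _
    · by_cases hl : l = i₀
      · subst hl
        rw [update_self, update_self]
        exact hw
      · rw [update_of_ne hl, update_of_ne hl]
        exact isRes_const _
  have hcurve := hV.curve i₀
  rw [ha, zero_mul, add_zero] at hcurve
  -- the values at the three cube roots
  have hroot : ∀ X : k, X ^ 3 = y i₀ ^ 2 - I.b → GT Ψ T v (update x i₀ X) y = GT Ψ T v x y := by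
    intro X hX
    have h1 : (X - x i₀) * ((X - ζ * x i₀) * (X - ζ ^ 2 * x i₀)) = 0 := by
      linear_combination hX + hcurve + (X * x i₀ * (x i₀ - X)) * hζ3 +
        (x i₀ ^ 2 * X - x i₀ ^ 3) * hζ31
    rcases mul_eq_zero.mp h1 with h1 | h1
    · rw [sub_eq_zero.mp h1, update_eq_self]
    · rcases mul_eq_zero.mp h1 with h1 | h1
      · rw [sub_eq_zero.mp h1]
        exact H1
      · rw [sub_eq_zero.mp h1]
        exact H2
  have hne : y i₀ ≠ -y i₀ := by
    intro h0
    exact hy0 (self_eq_neg.mp h0)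
  have hfin := Pool.Agent.Helper51.VN.Harm.path hF hτ hne (A := GT Ψ T v x y)
    (B := -GT Ψ T v x y) (fun w hw => by
      obtain ⟨X, hX, hFw⟩ := hv2 _ w hw
      rw [hFw, update_eq_self]
      exact hroot X hX) (fun w hw => by
      obtain ⟨X, hX, hFw⟩ := hv2 _ w hw
      have hX' : X ^ 3 = y i₀ ^ 2 - I.b := by rw [hX]; ring
      have hV' : I.Valid T v (update x i₀ X) y := by
        have := valid_upd74 I hV i₀ (X := X) (Y := y i₀) (by
          rw [ha, zero_mul, add_zero, hX']; ring)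
        rwa [update_eq_self] at this
      rw [hFw, Pool.Agent.Helper51.IS.gt_odd I h hV' i₀, hroot X hX'])
  exact self_eq_neg.mp hfin

theorem gt_tor (I : Twi D) (h : OJ D n Ψ) {i₀ : Fin n} {ζ : k} {N : ℕ} (hζ : ζ ^ I.m = 1)
    (hζ1 : ζ ≠ 1) {T : Fin n → Place k L}
    (hsum : ∀ v x y : Fin n → k, I.Valid T v x y → ∑ S : Finset (Fin N), (-1) ^ S.card *
      GT Ψ T (update v i₀ (ζ ^ S.card * v i₀)) x y = 0) {v x y : Fin n → k}
    (hV : I.Valid T v x y) : GT Ψ T v x y = 0 := by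
  have hinv := fun j => gt_inv74 I hζ hsum hV j
  -- the case of `-1`
  have hneg : ∀ j : ℕ, ζ ^ j = -1 → GT Ψ T v x y = 0 := by
    intro j hj
    have h1 := hinv j
    rw [hj] at h1
    have e1 : ((-1 : k)) ^ 2 * x i₀ = x i₀ := by ring
    have e2 : ((-1 : k)) ^ 3 * y i₀ = -y i₀ := by ring
    rw [e1, e2, update_eq_self, Pool.Agent.Helper51.IS.gt_odd I h hV i₀] at h1
    exact self_eq_neg.mp h1.symm
  by_cases ha : I.a = 0
  · have hb : I.b ≠ 0 := by
      rintro hb
      apply I.hE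
      rw [ha, hb]
      ring
    have h6 := I.h6.resolve_left hb
    have hζ6 : ζ ^ 6 = 1 := by
      rw [← h6, pow_mul, hζ, one_pow]
    have h3 : (ζ ^ 3 - 1) * (ζ ^ 3 + 1) = 0 := by linear_combination hζ6
    rcases mul_eq_zero.mp h3 with h3 | h3
    · have h4 : (ζ - 1) * (1 + ζ + ζ ^ 2) = 0 := by linear_combination h3
      have h5 : 1 + ζ + ζ ^ 2 = 0 := (mul_eq_zero.mp h4).resolve_left (sub_ne_zero.mpr hζ1)
      have hζ3 : ζ ^ 3 = 1 := sub_eq_zero.mp h3
      have h7 := hinv 2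
      have h8 := hinv 1
      have e1 : (ζ ^ 2) ^ 2 * x i₀ = ζ * x i₀ := by linear_combination ζ * x i₀ * hζ3
      have e2 : (ζ ^ 2) ^ 3 * y i₀ = y i₀ := by linear_combination y i₀ * (ζ ^ 3 + 1) * hζ3
      have e3 : (ζ ^ 1) ^ 2 * x i₀ = ζ ^ 2 * x i₀ := by ring
      have e4 : (ζ ^ 1) ^ 3 * y i₀ = y i₀ := by linear_combination y i₀ * hζ3
      rw [e1, e2, update_eq_self] at h7
      rw [e3, e4, update_eq_self] at h8
      exact gt_cub74 I h h5 ha hV h7 h8
    · exact hneg 3 (eq_neg_of_add_eq_zero_left h3)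
  · have h4 := I.h4.resolve_left ha
    have hζ4 : ζ ^ 4 = 1 := by
      rw [← h4, pow_mul, hζ, one_pow]
    have h3 : (ζ - 1) * ((ζ + 1) * (ζ ^ 2 + 1)) = 0 := by linear_combination hζ4
    rcases mul_eq_zero.mp ((mul_eq_zero.mp h3).resolve_left (sub_ne_zero.mpr hζ1)) with h5 | h5
    · exact hneg 1 (by rw [pow_one]; exact eq_neg_of_add_eq_zero_left h5)
    · exact hneg 2 (eq_neg_of_add_eq_zero_left h5)

end Pool.Agent.Helper51.IZ
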