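import Mathlib
import Pool.Agent.Helper51.IZ.Mt
import Pool.Agent.Helper51.IZ.Tor
import Pool.Agent.Helper51.IZ.Step
import Pool.Agent.Helper51.IZ.Fix
import Pool.Agent.Helper51.IS.Main

/-!
# The main theorem of project IZ: the degree of `E` is zero, `E` is not principal

Then the `j`-invariant is constant, and the curve is a twist of a constant elliptic curve by
`f ^ (1 / m)`, `div f = - m E`. A functional of class `OJ` in `n ≥ g` variables vanishes.
-/

set_option linter.unusedSectionVars false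

namespace Pool.Agent.Helper51.IZ

open VC VF Function
open Pool.Agent.Helper51.VB (rs BP Ell OJ KPt)
open Pool.Agent.Helper51.IS (Twi GT)
open Pool.Agent.Helper51.VN (Harm OnE)

universe u

variable {k L : Type u} [Field k] [IsAlgClosed k] [CharZero k] [Field L] [Algebra k L]

/-- A nonnegative divisor `dv u + m E` with `deg E = 0` is zero. -/
private lemma ord_eq_neg {D : Ell k L} (hN : D.N = 0) {u : L} (hu : u ≠ 0) {m : ℤ}
    (h : ∀ P : Place k L, 0 ≤ ord P.ring u + m * D.E P) (P : Place k L) :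
    ord P.ring u = -(m * D.E P) := by
  have h1 : FF.dv D.hL u + m • D.E = 0 := by
    refine FF.eq_zero_of_deg (fun P => ?_) ?_
    · have := h P
      rw [Finsupp.add_apply, Finsupp.smul_apply, FF.dv_apply, smul_eq_mul]
      exact this
    · rw [map_add, map_zsmul, deg_E hN, FF.deg_dv D.hL hu, smul_zero, add_zero]
  have h2 := DFunLike.congr_fun h1 P
  rw [Finsupp.add_apply, Finsupp.smul_apply, FF.dv_apply, smul_eq_mul, Finsupp.zero_apply] at h2
  omega

/-- The `j`-invariant is constant. -/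
theorem exists_const_j {D : Ell k L} (hN : D.N = 0) :
    ∃ c : k, D.be ^ 2 = algebraMap k L c * (D.be ^ 2 - D.al ^ 3) := by
  have hL := D.hL
  by_cases hbe : D.be = 0
  · exact ⟨0, by rw [hbe, map_zero]; ring⟩
  have hD := D.hD
  -- the discriminant
  have h12 : ∀ P : Place k L, 0 ≤ ord P.ring (D.be ^ 2 - D.al ^ 3) + 12 * D.E P := by
    intro P
    by_cases hal : D.al = 0
    · have h6 := D.h6 P hbe
      rw [hal, zero_pow (by norm_num), sub_zero, FF.ord_pow hL _ hbe]
      push_cast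
      omega
    · have h6 := D.h6 P hbe
      have h4 := D.h4 P hal
      have e1 := FF.ord_pow hL P hbe 2
      have e2 := FF.ord_pow hL P hal 3
      have e3 := FF.ord_neg hL P (pow_ne_zero 3 hal)
      have h5 := FF.ord_add_ge hL P (f := D.be ^ 2) (g := -D.al ^ 3) (pow_ne_zero 2 hbe)
        (neg_ne_zero.mpr (pow_ne_zero 3 hal)) (by rwa [← sub_eq_add_neg])
      rw [← sub_eq_add_neg] at h5
      push_cast at e1 e2
      omega
  have h1 := ord_eq_neg hN hD h12
  have h2 : ∀ P : Place k L, 0 ≤ ord P.ring (D.be ^ 2 / (D.be ^ 2 - D.al ^ 3)) := by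
    intro P
    rw [FF.ord_div hL P (pow_ne_zero 2 hbe) hD, h1 P, FF.ord_pow hL P hbe]
    have h6 := D.h6 P hbe
    push_cast
    omega
  obtain ⟨c, hc⟩ := FF.exists_const_of_dv_eq_zero hL h2
  exact ⟨c, by rw [hc, div_mul_cancel₀ _ hD]⟩

/-- The functionals of class `OJ` in `n ≥ g` variables vanish if `E` has degree zero and is not
principal. -/
theorem iz_main (D : Ell k L) (hN : D.N = 0)
    (hE : ¬ ∃ u : L, u ≠ 0 ∧ ∀ P : Place k L, ord P.ring u = D.E P) {g : ℕ}
    (hg : IsGenus k L g) {n : ℕ} (hn : g ≤ n) {Ψ : (Fin n → Place k L × k × k) → k} (h : OJ D n Ψ)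
    (p : Fin n → Place k L × k × k)
    (hp : ∀ i, D.Nice (p i).1 ∧ OnE (D.a₀ (p i).1) (D.b₀ (p i).1) (p i).2.1 (p i).2.2) :
    Ψ p = 0 := by
  have hL := D.hL
  obtain ⟨c, hc⟩ := exists_const_j hN
  obtain ⟨I⟩ := IS.exists_twi D hc (fun h1 => by omega)
  have hfE := ord_f I hN
  -- `f` is not an `m`-th power
  have hr : ∀ z : L, z ^ I.m ≠ I.f := by
    intro z hz
    have hz0 : z ≠ 0 := by
      rintro rfl
      rw [zero_pow I.hm0] at hz
      exact I.hf0 hz.symm
    apply hE
    refine ⟨z⁻¹, inv_ne_zero hz0, fun P => ?_⟩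
    have h1 := hfE P
    rw [← hz, FF.ord_pow hL P hz0] at h1
    rw [FF.ord_inv hL P hz0]
    have h2 : (I.m : ℤ) * (ord P.ring z + D.E P) = 0 := by linear_combination h1
    have h3 : (I.m : ℤ) ≠ 0 := by exact_mod_cast I.hm0
    have h4 := (mul_eq_zero.mp h2).resolve_left h3
    omega
  -- the genus is positive
  have hg0 : g ≠ 0 := by
    rintro rfl
    apply hE
    have h1 := FF.ell_ge hg (-D.E)
    rw [map_neg, deg_E hN] at h1
    obtain ⟨A, z, hz, hA, hA'⟩ := FF.exists_effective hL (X := -D.E) (by omega)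
    have h2 : A = 0 := by
      refine FF.eq_zero_of_deg hA ?_
      rw [hA', map_add, map_neg, deg_E hN, FF.deg_dv hL hz]
      rfl
    refine ⟨z, hz, fun P => ?_⟩
    have h3 := DFunLike.congr_fun (h2.symm.trans hA') P
    rw [Finsupp.zero_apply, Finsupp.add_apply, Finsupp.neg_apply, FF.dv_apply] at h3
    omega
  obtain ⟨r, rfl⟩ : ∃ r, n = g + r := ⟨n - g, by omega⟩
  -- restriction to `g` variables
  have h' := oj_fix h (fun j => p (Fin.natAdd g j)) (fun j => hp _)
  obtain ⟨i₀⟩ : Nonempty (Fin g) := ⟨⟨0, Nat.pos_of_ne_zero hg0⟩⟩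
  obtain ⟨Δ, N, ζ, hζ, hζ1, hΔ, hmain⟩ := main_T I hN hg hg0 hr i₀
  obtain ⟨v, x, y, hV, hval⟩ := exists_param I (fun i => p (Fin.castAdd r i)) (fun i => hp _)
  have key : ∀ (T : Fin g → Place k L) (v x y : Fin g → k), I.Valid T v x y → Gnr Δ 0 T →
      GT (fun p' => Ψ (Fin.append p' (fun j => p (Fin.natAdd g j)))) T v x y = 0 := by
    intro T v x y hV hG
    exact gt_tor I h' hζ hζ1 (fun v x y hV' => hmain _ h' T v x y hV' hG) hV
  have h1 := gt_all I h' hg hΔ key hV
  rw [← hval] at h1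
  have e : Fin.append (fun i => p (Fin.castAdd r i)) (fun j => p (Fin.natAdd g j)) = p := by
    exact Fin.append_castAdd_natAdd
  rw [e] at h1
  exact h1

end Pool.Agent.Helper51.IZ
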