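import Mathlib
import Pool.Agent.Helper51.IZ.Defs
import Pool.Agent.Helper51.VB.Cnj
import Pool.Agent.Helper51.VB.Pen

/-!
# Block IZ-PCL: the conjugates of a function with simple poles among the `T i`

See the proof of `exists_pen` in Helper51/VB/Pen.lean (case `q ≠ 0`). `VC.exists_cover hL q hq` gives `K₁` (with
`Algebra L K₁`), Galois over `k (q)`. Let `S` be the finite set of the poles of `q` (`FF.finite_support_ord`), `I` the set of
the `i` with `T i ∈ S`; the map `I → S` is bijective. There is a place `v₁` of `K₁` with a pole of `q` (`q` is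
transcendental over `k` in `K₁`), and `VB.card_conj` for `v₁` gives a bijection of the set of the `φ : L →ₐ[k] K₁` with
`φ q = q₁ := algebraMap L K₁ q` with `S`, so with `I`. Let `t i = .emb φ_i` for `i ∈ I`, and `t i = .cst (T i)` otherwise.
* Poles: at a place `w` with `q₁ ∉ w.ring` the map `φ ↦ Place.comap φ w` is a bijection to `S` (`VB.card_conj`), this gives a
  permutation of `I`, extend it by the identity to `π`. `VB.Over (Place.comap φ w) φ w` is clear.
* Zeros: at a place `w` with `IsRes w q₁ 0` let `R i = Place.comap φ_i w` for `i ∈ I`, a zero of `q` (`φ_i q = q₁`), and `R i = T i`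
  otherwise. If `IsRes Q q 0` then `0 < ord Q q` is the number of the `φ` with `Place.comap φ w = Q` (`VC.card_cover`), so
  there is one.
-/

set_option linter.unusedSectionVars false

namespace Pool.Agent.Helper51.IZ

open VC VF Function
open Pool.Agent.Helper51.VB (rs BP)

universe u

variable {k L : Type u} [Field k] [IsAlgClosed k] [CharZero k] [Field L] [Algebra k L]

private lemma over_comap_14 {K : Type u} [Field K] [Algebra k K] (hL : IsFunctionField k L)
    (hK : IsFunctionField k K) (φ : L →ₐ[k] K) (w : Place k K) :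
    Pool.Agent.Helper51.VB.Over (Place.comap hL hK φ w) φ w := by
  intro f c h
  unfold IsRes at *
  change f - algebraMap k L c ∈ (w.ring.comap φ.toRingHom).nonunits at h
  rw [mem_nonunits_comap] at h
  change φ (f - algebraMap k L c) ∈ _ at h
  rwa [map_sub, AlgHom.commutes] at h

theorem exists_pcl (hL : IsFunctionField k L) {n : ℕ} {T : Fin n → Place k L} (hinj : Injective T)
    {q : L} (hq : Transcendental k q) (hs : ∀ P : Place k L, -1 ≤ ord P.ring q)
    (hT : ∀ P : Place k L, q ∉ P.ring → ∃ i, T i = P) :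
    ∃ (K₁ : Type u) (_ : Field K₁) (_ : Algebra k K₁) (_ : IsFunctionField k K₁) (q₁ : K₁)
      (t : Fin n → BP k L K₁), Transcendental k q₁ ∧ (∀ i P, t i = .cst P → P = T i) ∧
      (∀ w : Place k K₁, q₁ ∉ w.ring → ∃ π : Equiv.Perm (Fin n), ∀ i, (t i).Ov w (T (π i))) ∧
      (∀ w : Place k K₁, IsRes w q₁ 0 → ∃ R : Fin n → Place k L, (∀ i, (t i).Ov w (R i)) ∧
        (∀ i, R i = T i ∨ IsRes (R i) q 0) ∧ ∀ Q : Place k L, IsRes Q q 0 → ∃ i, R i = Q) := by
  classical
  have hq0 : q ≠ 0 := by
    rintro rfl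
    exact hq isAlgebraic_zero
  have hpole : ∀ P : Place k L, q ∉ P.ring ↔ ord P.ring q < 0 := by
    intro P
    rw [← ord_nonneg_iff hL P hq0]
    omega
  let S : Finset (Place k L) := (finite_support_ord hL hq0).toFinset.filter
    (fun P => ord P.ring q < 0)
  have hS : ∀ P, P ∈ S ↔ q ∉ P.ring := by
    intro P
    rw [hpole, Finset.mem_filter, Set.Finite.mem_toFinset]
    constructor
    · exact fun h => h.2
    · intro h
      refine ⟨?_, h⟩
      change ord P.ring q ≠ 0
      omega
  have hST : ∀ P ∈ S, ∃ i, T i = P := fun P hP => hT P ((hS P).1 hP)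
  obtain ⟨K, _, _, _, _, hK, Γ, _, _, _, hΓ⟩ := exists_cover hL q hq
  set Q : K := algebraMap L K q with hQ
  have hQt : Transcendental k Q :=
    (transcendental_algebraMap_iff (algebraMap L K).injective).mpr hq
  have hQi : Transcendental k Q⁻¹ := VP.transcendental_inv hQt
  have hQ0 : Q ≠ 0 := by
    intro h
    rw [h] at hQt
    exact hQt isAlgebraic_zero
  obtain ⟨v₁, hv₁⟩ := exists_place hK hQi
  have hv₁' : Q ∉ v₁.ring := by
    rw [ValuationSubring.inv_mem_nonunits_iff] at hv₁
    exact hv₁.resolve_left hQ0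
  let e₁ : {φ : L →ₐ[k] K // φ q = Q} ≃ {P // P ∈ S} :=
    Equiv.ofBijective _ (Pool.Agent.Helper51.VB.card_conj hL hK hq Γ hΓ hs hS v₁ hv₁')
  let p : Fin n → BP k L K := fun i =>
    if h : T i ∈ S then .emb (e₁.symm ⟨T i, h⟩).1 else .cst (T i)
  have hp1 : ∀ (i) (h : T i ∈ S), p i = .emb (e₁.symm ⟨T i, h⟩).1 := fun i h => dif_pos h
  have hp2 : ∀ (i) (h : T i ∉ S), p i = .cst (T i) := fun i h => dif_neg h
  refine ⟨K, inferInstance, inferInstance, hK, Q, p, hQt, ?_, ?_, ?_⟩
  · -- the constant points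
    intro i P hP
    by_cases h : T i ∈ S
    · rw [hp1 i h] at hP
      exact absurd hP (by simp)
    · rw [hp2 i h] at hP
      have h2 : T i = P := by injection hP
      exact h2.symm
  · -- the poles
    intro w hQw
    let ew : {φ : L →ₐ[k] K // φ q = Q} ≃ {P // P ∈ S} :=
      Equiv.ofBijective _ (Pool.Agent.Helper51.VB.card_conj hL hK hq Γ hΓ hs hS w hQw)
    have hew : ∀ φ, (ew φ).1 = Place.comap hL hK φ.1 w := fun φ => rfl
    let e₂ : {i // T i ∈ S} ≃ {P // P ∈ S} :=
      Equiv.ofBijective (fun i => ⟨T i.1, i.2⟩) (by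
        constructor
        · intro i j h
          apply Subtype.ext
          apply hinj
          exact congrArg Subtype.val h
        · rintro ⟨P, hP⟩
          obtain ⟨i, rfl⟩ := hST P hP
          exact ⟨⟨i, hP⟩, rfl⟩)
    have he₂ : ∀ i, (e₂ i).1 = T i.1 := fun i => rfl
    let ρ : Equiv.Perm {i // T i ∈ S} := (e₂.trans (e₁.symm.trans ew)).trans e₂.symm
    refine ⟨Equiv.Perm.ofSubtype ρ, fun i => ?_⟩
    by_cases h : T i ∈ S
    · rw [hp1 i h, Equiv.Perm.ofSubtype_apply_of_mem ρ h]
      have h1 : T (ρ ⟨i, h⟩).1 = Place.comap hL hK (e₁.symm ⟨T i, h⟩).1 w := by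
        rw [← he₂, ← hew]
        congr 1
        change e₂ (e₂.symm (ew (e₁.symm (e₂ ⟨i, h⟩)))) = _
        rw [Equiv.apply_symm_apply]
        rfl
      rw [h1]
      exact over_comap_14 hL hK _ w
    · rw [hp2 i h, Equiv.Perm.ofSubtype_apply_of_not_mem ρ h]
      rfl
  · -- the zeros
    intro w hw
    have hQw : Q ∈ w.ring.nonunits := isRes_zero_iff.mp hw
    let R : Fin n → Place k L := fun i =>
      if h : T i ∈ S then Place.comap hL hK (e₁.symm ⟨T i, h⟩).1 w else T i
    have hR1 : ∀ (i) (h : T i ∈ S), R i = Place.comap hL hK (e₁.symm ⟨T i, h⟩).1 w := fun i h => dif_pos h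
    have hR2 : ∀ (i) (h : T i ∉ S), R i = T i := fun i h => dif_neg h
    refine ⟨R, fun i => ?_, fun i => ?_, fun Q' hQ' => ?_⟩
    · by_cases h : T i ∈ S
      · rw [hp1 i h, hR1 i h]
        exact over_comap_14 hL hK _ w
      · rw [hp2 i h, hR2 i h]
        rfl
    · by_cases h : T i ∈ S
      · right
        rw [hR1 i h, isRes_zero_iff]
        change q ∈ (w.ring.comap (e₁.symm ⟨T i, h⟩).1.toRingHom).nonunits
        rw [mem_nonunits_comap]
        change (e₁.symm ⟨T i, h⟩).1 q ∈ _
        rw [(e₁.symm ⟨T i, h⟩).2]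
        exact hQw
      · exact Or.inl (hR2 i h)
    · have h0 : 0 < ord Q'.ring q := (ord_pos_iff hL Q' hq0).mpr (isRes_zero_iff.mp hQ')
      have h1 := card_cover hL hK q hq Γ hΓ w hQw Q'
      have h2 : Nat.card {φ : L →ₐ[k] K // φ q = algebraMap L K q ∧
          Place.comap hL hK φ w = Q'} ≠ 0 := by
        intro h
        rw [h] at h1
        have h3 := le_max_left (ord Q'.ring q) 0
        push_cast at h1
        omega
      have h3 : Nonempty {φ : L →ₐ[k] K // φ q = algebraMap L K q ∧
          Place.comap hL hK φ w = Q'} := by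
        by_contra h
        rw [not_nonempty_iff] at h
        exact h2 Nat.card_of_isEmpty
      obtain ⟨φ, hφ, hφw⟩ := h3
      obtain ⟨i, hi⟩ := hST (e₁ ⟨φ, hφ⟩).1 (e₁ ⟨φ, hφ⟩).2
      have hiS : T i ∈ S := by rw [hi]; exact (e₁ ⟨φ, hφ⟩).2
      refine ⟨i, ?_⟩
      have h4 : e₁.symm ⟨T i, hiS⟩ = ⟨φ, hφ⟩ := by
        rw [Equiv.symm_apply_eq]
        exact Subtype.ext hi
      rw [hR1 i hiS, h4]
      exact hφw

end Pool.Agent.Helper51.IZ
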