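import Mathlib
import Pool.Agent.Helper51.IZ.Sv
import Pool.Agent.Helper51.IZ.Om

/-!
# Definitions for the case that `E` is principal

`z` is an element of `L` with `z ^ m = f`. The roots `v i` of the values of `f` are the values of `z`.
-/

set_option linter.unusedSectionVars false

namespace Pool.Agent.Helper51.IZ

open VC VF Function
open Pool.Agent.Helper51.VB (rs BP Ell OJ KPt)
open Pool.Agent.Helper51.IS (Twi GT)

universe u

open Classical in
/-- The places `T i`, `i ∈ S`, are replaced by `T0`. -/
noncomputable def rp {k L : Type u} [Field k] [Field L] [Algebra k L] {n : ℕ} (T0 : Place k L)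
    (S : Finset (Fin n)) (T : Fin n → Place k L) : Fin n → Place k L :=
  fun i => if i ∈ S then T0 else T i

/-- The alternating sum over all subsets of the variables. -/
noncomputable def asum {k L : Type u} [Field k] [Field L] [Algebra k L] {n : ℕ}
    (Ψ : (Fin n → Place k L × k × k) → k) (z : L) (T0 : Place k L) (T : Fin n → Place k L)
    (x y : Fin n → k) : k :=
  ∑ S : Finset (Fin n), (-1) ^ S.card * GT Ψ (rp T0 S T) (fun i => rs (rp T0 S T i) z) x y

end Pool.Agent.Helper51.IZ
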