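import Mathlib
import Pool.Agent.Helper51.IZ.Tz
import Pool.Agent.Helper51.IZ.Pcl

/-!
# Block IZ-TZM: `E` principal, the pencil of `q`

`exists_pcl` gives `K₁, q₁, t`. Apply `om h` with `K = Ω = K₁` (every place of a function field is `Full`: `VF.exists_res`), the
finite set `univ` of all `S : Finset (Fin n)`, `ε S = (-1) ^ card S`, `A = asum Ψ z T0 T x y`, and the points `c S` given by
`exists_pts` for `b i = if i ∈ S then .cst T0 else t i`, `v i = (b i).ev z` (`v i ^ m = (b i).ev f`: for `.emb φ` `map_pow`, for a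
nice place `P` the residue of `z ^ m = f`; `z` is regular at nice places since `f = z ^ m` is a unit there). All constant
`b i` are nice.
* At a place `w` with a pole of `q₁`: `(t i).Ov w (T (π i))`. `z` has the value `rs P z` at `P = T (π i)`, so
  `(c S i).Val w (P, x i * rs P z ^ 2, y i * rs P z ^ 3)`, `P = T (π i)` or (`i ∈ S`) `P = T0`. The value of `Ψ` is
  `GT Ψ (rp T0 (π S) T ∘ π) .. x y = GT Ψ (rp T0 (π S) T) .. x y` by `IS.gt_sym`, `π S = S.map π` (`(rp T0 (π S) T) (π i) = T0` iff
  `i ∈ S`). The sum over `S` is `asum` (`S ↦ π S` is a bijection which preserves `card`).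
* At a place `w` with `IsRes w q₁ 0`: `R`; all `R i` are nice, and `R i₀ = T0` for some `i₀` by `h0`. The value for `S` is
  `GT Ψ (rp T0 S R) .. x y`, it is the same for `S` and `insert i₀ S`. So the sum is zero.
-/

set_option linter.unusedSectionVars false

namespace Pool.Agent.Helper51.IZ

open VC VF Function
open Pool.Agent.Helper51.VB (rs BP Ell OJ KPt)
open Pool.Agent.Helper51.IS (Twi GT)

universe u

variable {k L : Type u} [Field k] [IsAlgClosed k] [CharZero k] [Field L] [Algebra k L]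
  {D : Ell k L} {n : ℕ} {Ψ : (Fin n → Place k L × k × k) → k}

private lemma sum_alt_h12 (f : Finset (Fin n) → k) (j₀ : Fin n)
    (h : ∀ S, j₀ ∉ S → f (insert j₀ S) = f S) :
    ∑ S : Finset (Fin n), (-1 : k) ^ S.card * f S = 0 := by
  classical
  have e1 : (Finset.univ : Finset (Finset (Fin n))) = (insert j₀ (Finset.univ.erase j₀)).powerset := by
    rw [Finset.insert_erase (Finset.mem_univ j₀), Finset.powerset_univ]
  rw [e1, Finset.sum_powerset_insert (Finset.notMem_erase j₀ _), ← Finset.sum_add_distrib]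
  refine Finset.sum_eq_zero fun S hS => ?_
  have h1 : j₀ ∉ S := fun h2 => Finset.notMem_erase j₀ _ (Finset.mem_powerset.mp hS h2)
  rw [h S h1, Finset.card_insert_of_notMem h1, pow_succ]
  ring

private lemma z_mem_h12 (I : Twi D) {z : L} (hz : z ^ I.m = I.f) {P : Place k L} (hP : D.Nice P) :
    z ∈ P.ring := by
  refine VF.mem_of_pow I.hm0 ?_
  rw [hz]
  exact (ord_nonneg_iff D.hL P I.hf0).mp (I.ord_nice hP).ge

private lemma f_mem_h12 (I : Twi D) {P : Place k L} (hP : D.Nice P) : I.f ∈ P.ring :=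
  (ord_nonneg_iff D.hL P I.hf0).mp (I.ord_nice hP).ge

private lemma rs_pow_h12 (I : Twi D) {z : L} (hz : z ^ I.m = I.f) {P : Place k L} (hP : D.Nice P) :
    rs P z ^ I.m = rs P I.f := by
  have h1 := (VB.isRes_rs D.hL (z_mem_h12 I hz hP)).pow I.m
  rw [hz] at h1
  exact h1.unique (VB.isRes_rs D.hL (f_mem_h12 I hP))

private lemma ev_pow_h12 {K : Type u} [Field K] [Algebra k K] (I : Twi D) {z : L} (hz : z ^ I.m = I.f)
    {p : BP k L K} (hp : p.Nc D) : p.ev z ^ I.m = p.ev I.f := by
  cases p with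
  | cst P =>
    change algebraMap k K (rs P z) ^ I.m = algebraMap k K (rs P I.f)
    rw [← map_pow, rs_pow_h12 I hz (hp P rfl)]
  | emb ι =>
    change ι z ^ I.m = ι I.f
    rw [← map_pow, hz]

theorem asum_pencil (I : Twi D) {z : L} (hz : z ^ I.m = I.f) (h : OJ D n Ψ) {T0 : Place k L}
    (hT0 : D.Nice T0) {T : Fin n → Place k L} (hT : ∀ i, D.Nice (T i)) (hinj : Injective T)
    {q : L} (hq : Transcendental k q) (hs : ∀ P : Place k L, -1 ≤ ord P.ring q)
    (hTq : ∀ P : Place k L, q ∉ P.ring → ∃ i, T i = P) (h0 : IsRes T0 q 0)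
    (hn : ∀ Q : Place k L, IsRes Q q 0 → D.Nice Q) {x y : Fin n → k}
    (hxy : ∀ i, y i ^ 2 = x i ^ 3 + I.a * x i + I.b) : asum Ψ z T0 T x y = 0 := by
  classical
  obtain ⟨K₁, iF, iA, hK₁, q₁, t, hq₁, hcst, hpole, hzero⟩ := exists_pcl D.hL hinj hq hs hTq
  let b : Finset (Fin n) → Fin n → BP k L K₁ := fun S i => if i ∈ S then .cst T0 else t i
  have hbin : ∀ S i, i ∈ S → b S i = .cst T0 := fun S i hi => if_pos hi
  have hbout : ∀ S i, i ∉ S → b S i = t i := fun S i hi => if_neg hi
  have hNc : ∀ S i, (b S i).Nc D := by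
    intro S i P hP
    by_cases hi : i ∈ S
    · rw [hbin S i hi] at hP
      injection hP with hP
      rw [← hP]
      exact hT0
    · rw [hbout S i hi] at hP
      rw [hcst i P hP]
      exact hT i
  choose c hc using fun S => exists_pts I (b := b S) (v := fun i => (b S i).ev z)
    (fun i => ev_pow_h12 I hz (hNc S i)) (hNc S) hxy
  -- the values
  have hval : ∀ (w : Place k K₁) (R : Fin n → Place k L), (∀ i, (t i).Ov w (R i)) → (∀ i, D.Nice (R i)) →
      ∀ S i, (c S i).Val w (rp T0 S R i, x i * rs (rp T0 S R i) z ^ 2, y i * rs (rp T0 S R i) z ^ 3) := by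
    intro w R hR hRn S i
    obtain ⟨c1, c2, c3⟩ := hc S i
    have hrpn : D.Nice (rp T0 S R i) := by
      unfold rp
      by_cases hi : i ∈ S
      · rw [if_pos hi]
        exact hT0
      · rw [if_neg hi]
        exact hRn i
    have hov : (b S i).Ov w (rp T0 S R i) := by
      unfold rp
      by_cases hi : i ∈ S
      · rw [if_pos hi, hbin S i hi]
        rfl
      · rw [if_neg hi, hbout S i hi]
        exact hR i
    have hres : IsRes w ((b S i).ev z) (rs (rp T0 S R i) z) :=
      VB.isRes_ev D.hL hov (z_mem_h12 I hz hrpn)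
    refine ⟨hrpn, ?_, ?_, ?_⟩
    · change (c S i).p.Ov w (rp T0 S R i)
      rw [c1]
      exact hov
    · change IsRes w (c S i).x (x i * rs (rp T0 S R i) z ^ 2)
      rw [c2]
      exact (isRes_const (x i)).mul (hres.pow 2)
    · change IsRes w (c S i).y (y i * rs (rp T0 S R i) z ^ 3)
      rw [c3]
      exact (isRes_const (y i)).mul (hres.pow 3)
  have hgt : ∀ (R : Fin n → Place k L) (S : Finset (Fin n)),
      Ψ (fun i => (rp T0 S R i, x i * rs (rp T0 S R i) z ^ 2, y i * rs (rp T0 S R i) z ^ 3)) =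
        GT Ψ (rp T0 S R) (fun i => rs (rp T0 S R i) z) x y := fun R S => rfl
  refine om h (K := K₁) (Ω := K₁) hK₁ hq₁ Finset.univ (fun S : Finset (Fin n) => (-1 : k) ^ S.card) c _ ?_ ?_
  · intro w _ hw
    obtain ⟨π, hπ⟩ := hpole w hw
    refine ⟨fun S i => (rp T0 S (T ∘ π) i, x i * rs (rp T0 S (T ∘ π) i) z ^ 2,
      y i * rs (rp T0 S (T ∘ π) i) z ^ 3), fun S _ => hval w (T ∘ π) hπ (fun i => hT (π i)) S, ?_⟩
    unfold asum
    refine Fintype.sum_equiv π.finsetCongr _ _ fun S => ?_
    have hmap : π.finsetCongr S = S.map π.toEmbedding := rfl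
    rw [hmap, Finset.card_map, hgt]
    congr 1
    have hrp : rp T0 S (T ∘ π) = rp T0 (S.map π.toEmbedding) T ∘ π := by
      funext i
      unfold rp
      have h1 : π i ∈ S.map π.toEmbedding ↔ i ∈ S := Finset.mem_map' π.toEmbedding
      simp only [Function.comp_apply]
      by_cases hi : i ∈ S
      · rw [if_pos hi, if_pos (h1.2 hi)]
      · rw [if_neg hi, if_neg (fun h2 => hi (h1.1 h2))]
    have hV : I.Valid (rp T0 (S.map π.toEmbedding) T)
        (fun i => rs (rp T0 (S.map π.toEmbedding) T i) z) x y := by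
      have hnn : ∀ i, D.Nice (rp T0 (S.map π.toEmbedding) T i) := by
        intro i
        unfold rp
        by_cases hi : i ∈ S.map π.toEmbedding
        · rw [if_pos hi]
          exact hT0
        · rw [if_neg hi]
          exact hT i
      exact ⟨hnn, fun i => rs_pow_h12 I hz (hnn i), hxy⟩
    rw [hrp]
    exact IS.gt_sym I h hV π
  · intro w _ hw
    obtain ⟨R, hR, hRT, hR0⟩ := hzero w hw
    have hRn : ∀ i, D.Nice (R i) := by
      intro i
      rcases hRT i with h1 | h1
      · rw [h1]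
        exact hT i
      · exact hn _ h1
    obtain ⟨i₀, hi₀⟩ := hR0 T0 h0
    refine ⟨fun S i => (rp T0 S R i, x i * rs (rp T0 S R i) z ^ 2,
      y i * rs (rp T0 S R i) z ^ 3), fun S _ => hval w R hR hRn S, ?_⟩
    refine sum_alt_h12 (fun S => Ψ (fun i => (rp T0 S R i, x i * rs (rp T0 S R i) z ^ 2,
      y i * rs (rp T0 S R i) z ^ 3))) i₀ ?_
    intro S hS
    have hrp : rp T0 (insert i₀ S) R = rp T0 S R := by
      funext i
      unfold rp
      by_cases hi : i = i₀
      · rw [if_pos (by rw [hi]; exact Finset.mem_insert_self _ _), if_neg (by rw [hi]; exact hS), hi, hi₀]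
      · by_cases hi2 : i ∈ S
        · rw [if_pos hi2, if_pos (Finset.mem_insert_of_mem hi2)]
        · rw [if_neg hi2, if_neg]
          intro h3
          rcases Finset.mem_insert.1 h3 with h4 | h4
          · exact hi h4
          · exact hi2 h4
    change Ψ (fun i => (rp T0 (insert i₀ S) R i, x i * rs (rp T0 (insert i₀ S) R i) z ^ 2,
      y i * rs (rp T0 (insert i₀ S) R i) z ^ 3)) = _
    rw [hrp]

end Pool.Agent.Helper51.IZ
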