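import Mathlib
import Pool.Agent.Helper51.IZ.Tz

/-!
# Block IZ-TZS: `E` principal, general tuples

* `gnr_top'`, `gnr_step'`: as `gnr_top`, `gnr_step` of block IZ-GEN, with `n` variables: the divisor
  `X' = X + ∑_{j ≥ i + 1} T j` has degree `≤ g - 2 - i`, `ell X' = 0`, and the condition at `i` for `update T i P` is `ell (X' + P) = 0`
  for all `X ∈ Δ`. If it failed for infinitely many `P` then `FF.exists_drop` (`deg X' + 1 - g < 0 = ell X'`) gives a contradiction.
* `exists_tq`: (`n = g + 1`) `Δ = {- T0 - B : B not nice}` (`finite_bad`). `ell (∑ T i - T0) ≥ 1` by `FF.ell_ge`, so there is `q ≠ 0` in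
  `riemannRochSpace` (`FF.mem_rr`). Its poles are simple (`T` is injective) and among the `T i`, it has a zero at `T0`
  (`T0 ≠ T i`), so it is transcendental. If `B` is not nice then `q` is not in the space of `∑ T i - T0 - B`, which is zero by
  `Gnr`, so `ord B q = 0` (`B ≠ T0`, `B ≠ T i`).
-/

set_option linter.unusedSectionVars false

namespace Pool.Agent.Helper51.IZ

open VC VF Function
open Pool.Agent.Helper51.VB (rs BP Ell OJ KPt)
open Pool.Agent.Helper51.IS (Twi GT)

universe u

variable {k L : Type u} [Field k] [IsAlgClosed k] [CharZero k] [Field L] [Algebra k L]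
  {D : Ell k L} {n g : ℕ}

theorem gnr_top' (hL : IsFunctionField k L) {Δ : Finset (Place k L →₀ ℤ)}
    (hΔ : ∀ X ∈ Δ, FF.deg X < 0) (T : Fin n → Place k L) : Gnr Δ n T := by
  intro X hX
  have h0 : Finset.univ.filter (fun j : Fin n => n ≤ (j : ℕ)) = ∅ :=
    Finset.filter_eq_empty_iff.2 fun j _ => by have := j.isLt; omega
  rw [h0, Finset.sum_empty, add_zero]
  exact FF.ell_eq_zero_of_deg_neg hL (hΔ X hX)

private lemma deg_sum56 {ι : Type*} (s : Finset ι) (T : ι → Place k L) :
    FF.deg (∑ j ∈ s, Finsupp.single (T j) (1 : ℤ)) = s.card := by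
  rw [map_sum]
  simp

theorem gnr_step' (hL : IsFunctionField k L) (hg : IsGenus k L g) {Δ : Finset (Place k L →₀ ℤ)}
    (hΔ : ∀ X ∈ Δ, FF.deg X + n + 1 ≤ g) {T : Fin n → Place k L} (i : Fin n)
    (h : Gnr Δ (i + 1) T) : {P : Place k L | ¬ Gnr Δ i (update T i P)}.Finite := by
  classical
  set F1 := Finset.univ.filter (fun j : Fin n => (i : ℕ) + 1 ≤ (j : ℕ)) with hF1
  set Y : Place k L →₀ ℤ := ∑ j ∈ F1, Finsupp.single (T j) 1 with hY
  have hcard : F1.card < n := by
    have h1 : F1 ⊂ Finset.univ := Finset.filter_ssubset.2 ⟨i, Finset.mem_univ _, by omega⟩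
    have h2 := Finset.card_lt_card h1
    rwa [Finset.card_univ, Fintype.card_fin] at h2
  have hsum : ∀ P : Place k L, ∑ j ∈ Finset.univ.filter (fun j : Fin n => (i : ℕ) ≤ (j : ℕ)),
      Finsupp.single (update T i P j) (1 : ℤ) = Finsupp.single P 1 + Y := by
    intro P
    have h1 : Finset.univ.filter (fun j : Fin n => (i : ℕ) ≤ (j : ℕ)) = insert i F1 := by
      ext j
      simp only [hF1, Finset.mem_filter, Finset.mem_univ, true_and, Finset.mem_insert, Fin.ext_iff]
      omega
    have h2 : i ∉ F1 := by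
      simp [hF1]
    rw [h1, Finset.sum_insert h2, update_self]
    congr 1
    refine Finset.sum_congr rfl fun j hj => ?_
    rw [update_of_ne]
    rintro rfl
    exact h2 hj
  have hfin : ∀ X ∈ Δ, {P : Place k L | FF.ell (X + Y + Finsupp.single P 1) ≠ 0}.Finite := by
    intro X hX
    by_contra hinf
    have h1 : FF.ell (X + Y) = 0 := h X hX
    have h2 : FF.deg (X + Y) + 1 - g < FF.ell (X + Y) := by
      rw [h1, map_add, hY, deg_sum56]
      push_cast
      have h3 : (F1.card : ℤ) < n := by exact_mod_cast hcard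
      have h4 := hΔ X hX
      linarith
    obtain ⟨P, hP, hP'⟩ := FF.exists_drop hL hg (X + Y) h2 _ hinf
    exact hP (hP'.trans h1)
  refine (Set.Finite.biUnion Δ.finite_toSet (fun X hX => hfin X hX)).subset ?_
  intro P hP
  simp only [Set.mem_ofPred_eq, Gnr] at hP
  push Not at hP
  obtain ⟨X, hX, hX'⟩ := hP
  simp only [Set.mem_iUnion, Set.mem_ofPred_eq]
  refine ⟨X, hX, ?_⟩
  rw [hsum P] at hX'
  rwa [add_assoc, add_comm Y]

theorem exists_tq (D : Ell k L) (hg : IsGenus k L g) {T0 : Place k L} (hT0 : D.Nice T0) :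
    ∃ Δ : Finset (Place k L →₀ ℤ), (∀ X ∈ Δ, FF.deg X = -2) ∧
      ∀ T : Fin (g + 1) → Place k L, Gnr Δ 0 T → Injective T → (∀ i, T i ≠ T0) →
        (∀ i, D.Nice (T i)) → ∃ q : L, Transcendental k q ∧
        (∀ P : Place k L, -1 ≤ ord P.ring q) ∧ (∀ P : Place k L, q ∉ P.ring → ∃ i, T i = P) ∧
        IsRes T0 q 0 ∧ ∀ Q : Place k L, IsRes Q q 0 → D.Nice Q := by
  classical
  have hL := D.hL
  refine ⟨(finite_bad D).toFinset.image
    (fun B => - Finsupp.single T0 1 - Finsupp.single B 1), ?_, ?_⟩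
  · intro X hX
    obtain ⟨B, -, rfl⟩ := Finset.mem_image.mp hX
    rw [map_sub, map_neg, FF.deg_single, FF.deg_single]
    norm_num
  intro T hG hinj hne hTn
  obtain ⟨A, hA⟩ : ∃ A : Place k L →₀ ℤ,
      A = ∑ i, Finsupp.single (T i) (1 : ℤ) - Finsupp.single T0 1 := ⟨_, rfl⟩
  have hdA : FF.deg A = g := by
    rw [hA, map_sub, deg_sum56, FF.deg_single, Finset.card_univ, Fintype.card_fin]
    push_cast
    ring
  have hell := FF.ell_ge hg A
  rw [hdA] at hell
  have hell1 : 0 < FF.ell A := by omega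
  have hfd := FF.finite_rr hL A
  obtain ⟨⟨q, hqA⟩, hq0⟩ := Module.finrank_pos_iff_exists_ne_zero.1 hell1
  have hq : q ≠ 0 := fun h => hq0 (Subtype.ext h)
  rw [FF.mem_rr hL A hq] at hqA
  have hs : ∀ P : Place k L, (∑ i, Finsupp.single (T i) (1 : ℤ)) P =
      ((Finset.univ.filter (fun i => T i = P)).card : ℤ) := by
    intro P
    rw [Finsupp.finsetSum_apply, Finset.card_filter]
    push_cast
    exact Finset.sum_congr rfl fun i _ => Finsupp.single_apply
  have hs1 : ∀ P : Place k L, (∑ i, Finsupp.single (T i) (1 : ℤ)) P ≤ 1 := by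
    intro P
    rw [hs]
    have h1 : (Finset.univ.filter (fun i => T i = P)).card ≤ 1 := by
      refine Finset.card_le_one.2 fun a ha b hb => hinj ?_
      rw [(Finset.mem_filter.1 ha).2, (Finset.mem_filter.1 hb).2]
    exact_mod_cast h1
  have hs0 : ∀ P : Place k L, (∀ i, T i ≠ P) → (∑ i, Finsupp.single (T i) (1 : ℤ)) P = 0 := by
    intro P hP
    rw [hs, Finset.filter_eq_empty_iff.2 fun i _ => hP i]
    simp
  have hsT : ∀ P : Place k L, (0 : ℤ) ≤ (Finsupp.single T0 (1 : ℤ)) P := by
    intro P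
    rw [Finsupp.single_apply]
    split_ifs <;> norm_num
  have hordT0 : 0 < ord T0.ring q := by
    have h1 := hqA T0
    rw [hA, Finsupp.sub_apply, hs0 T0 hne, Finsupp.single_eq_same] at h1
    omega
  refine ⟨q, ?_, ?_, ?_, ?_, ?_⟩
  · by_contra hcon
    obtain ⟨c, hc⟩ := FF.exists_const_of_not_transcendental hcon
    have hc0 : c ≠ 0 := by
      rintro rfl
      rw [map_zero] at hc
      exact hq hc.symm
    rw [← hc, FF.ord_algebraMap hL T0 hc0] at hordT0
    exact lt_irrefl _ hordT0
  · intro P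
    have h1 := hqA P
    rw [hA, Finsupp.sub_apply] at h1
    have h2 := hs1 P
    have h3 := hsT P
    omega
  · intro P hP
    by_contra hcon
    push Not at hcon
    apply hP
    rw [← FF.ord_nonneg_iff hL P hq]
    have h1 := hqA P
    rw [hA, Finsupp.sub_apply, hs0 P hcon] at h1
    have h3 := hsT P
    omega
  · rw [isRes_zero_iff, ← FF.ord_pos_iff hL T0 hq]
    exact hordT0
  · intro Q hQ
    rw [isRes_zero_iff, ← FF.ord_pos_iff hL Q hq] at hQ
    by_contra hcon
    have hQT : ∀ i, T i ≠ Q := by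
      rintro i rfl
      exact hcon (hTn i)
    have hQT0 : T0 ≠ Q := by
      rintro rfl
      exact hcon hT0
    have h0 := hG (- Finsupp.single T0 1 - Finsupp.single Q 1)
      (Finset.mem_image.mpr ⟨Q, by simpa using hcon, rfl⟩)
    have hfilt : Finset.univ.filter (fun j : Fin (g + 1) => 0 ≤ (j : ℕ)) = Finset.univ :=
      Finset.filter_true_of_mem fun j _ => Nat.zero_le _
    rw [hfilt] at h0
    obtain ⟨A', hA'⟩ : ∃ A' : Place k L →₀ ℤ, A' = - Finsupp.single T0 1 - Finsupp.single Q 1 +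
      ∑ j, Finsupp.single (T j) (1 : ℤ) := ⟨_, rfl⟩
    rw [← hA'] at h0
    have hfd' := FF.finite_rr hL A'
    have hmem : q ∈ riemannRochSpace k L A' := by
      rw [FF.mem_rr hL A' hq]
      intro P
      have h1 := hqA P
      rw [hA, Finsupp.sub_apply] at h1
      rw [hA', Finsupp.add_apply, Finsupp.sub_apply, Finsupp.neg_apply]
      by_cases hP : Q = P
      · subst hP
        rw [hs0 Q hQT] at h1 ⊢
        rw [Finsupp.single_eq_same, Finsupp.single_apply, if_neg hQT0]
        omega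
      · rw [Finsupp.single_apply (a := Q), if_neg hP]
        omega
    have h2 : Module.finrank k (riemannRochSpace k L A') = 0 := h0
    rw [Module.finrank_zero_iff] at h2
    have h3 : (⟨q, hmem⟩ : riemannRochSpace k L A') = 0 := Subsingleton.elim _ _
    exact hq (congrArg Subtype.val h3)

end Pool.Agent.Helper51.IZ
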