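import Mathlib
import Pool.Agent.Helper51.IZ.Tzm
import Pool.Agent.Helper51.IZ.Tzs
import Pool.Agent.Helper83.KV.App

/-!
# Block IZ-TZA: `E` principal, all tuples

* `asum_step`: fix `T, x, y`. For every `S` let `F_S` be the harmonic function on the places of `K = L` given by `h.harm` for the
  points of `exists_pts` with `b j = .cst (rp T0 S T j)` for `j ≠ i` and for `i ∈ S`, `b i = .emb (AlgHom.id k L)` if `i ∉ S`, and
  `v j = (b j).ev z`. At a nice place `P` of `L` its value is the term of `S` in `asum Ψ z T0 (update T i P) x y`. So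
  `F = ∑ (-1) ^ card S * F_S` is harmonic and `F P = asum Ψ z T0 (update T i P) x y` at all nice places `P`. By assumption it is
  zero at all but finitely many `P` (`finite_bad`), so (`harm_app37` in IS/Mv.lean, private: copy it) it is zero everywhere, and
  at `P = T i` we get `asum Ψ z T0 T x y = 0` (`update_eq_self`).
* `asum_all`: `Δ` from `exists_tq`. Let `C i T` be: `Gnr Δ i T`, the `T j`, `i ≤ j`, are pairwise different and different from
  `T0`. Induction on `i ≤ g + 1`: `asum = 0` for all nice `T` with `C i T`. `i = 0`: `exists_tq` and `asum_pencil`. Step: by `asum_step`,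
  since `C i (update T i P)` holds for all but finitely many `P` (`gnr_step'`, and `P ≠ T0`, `P ≠ T j`). For `i = g + 1` the
  condition is empty (`gnr_top'`).
-/

set_option linter.unusedSectionVars false

namespace Pool.Agent.Helper51.IZ

open VC VF Function
open Pool.Agent.Helper51.VB (rs BP Ell OJ KPt)
open Pool.Agent.Helper51.IS (Twi GT)

universe u

variable {k L : Type u} [Field k] [IsAlgClosed k] [CharZero k] [Field L] [Algebra k L]
  {D : Ell k L} {n g : ℕ}

/-- A harmonic function which vanishes at almost all places vanishes. -/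
private lemma harm_app65 {K : Type u} [Field K] [Algebra k K] {hK : IsFunctionField k K}
    {F : Place k K → k} (h : Helper51.VN.Harm hK F) {T : Set (Place k K)} (hT : T.Finite)
    (h0 : ∀ v, v ∉ T → F v = 0) (v : Place k K) : F v = 0 := by
  classical
  by_cases hv : v ∈ T
  swap
  · exact h0 v hv
  obtain ⟨f, hf0, hf1, hf2⟩ := Helper83.KV.exists_zero_at hK (hT.toFinset.erase v) v
    (Finset.notMem_erase v _)
  have h1 := h f hf0
  have h2 : ∀ w ∈ (finite_support_ord hK hf0).toFinset, w ≠ v →
      (ord w.ring f : k) * F w = 0 := by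
    intro w _ hw
    by_cases hwT : w ∈ T
    · rw [hf2 w (Finset.mem_erase.mpr ⟨hw, hT.mem_toFinset.mpr hwT⟩), Int.cast_zero, zero_mul]
    · rw [h0 w hwT, mul_zero]
  rw [Finset.sum_eq_single v h2 (fun hn => by
    exfalso
    apply hn
    rw [Set.Finite.mem_toFinset, Set.mem_ofPred_eq]
    exact hf1)] at h1
  exact (mul_eq_zero.mp h1).resolve_left (Int.cast_ne_zero.mpr hf1)

private theorem harm_sum65 {K : Type u} [Field K] [Algebra k K] (hK : IsFunctionField k K) {ι : Type*}
    (s : Finset ι) (ε : ι → k) (F : ι → Place k K → k) (h : ∀ a ∈ s, Helper51.VN.Harm hK (F a)) :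
    Helper51.VN.Harm hK (fun w => ∑ a ∈ s, ε a * F a w) := by
  intro f hf
  simp only [Finset.mul_sum]
  rw [Finset.sum_comm]
  refine Finset.sum_eq_zero fun a ha => ?_
  have h1 := h a ha f hf
  have h2 : ∀ v ∈ (finite_support_ord hK hf).toFinset, (ord v.ring f : k) * (ε a * F a v) =
      ε a * ((ord v.ring f : k) * F a v) := fun v _ => by ring
  rw [Finset.sum_congr rfl h2, ← Finset.mul_sum, h1, mul_zero]

private lemma z_res65 (I : Twi D) {z : L} (hz : z ^ I.m = I.f) {P : Place k L} (hP : D.Nice P) :
    IsRes P z (rs P z) ∧ rs P z ^ I.m = rs P I.f := by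
  have hz0 : z ≠ 0 := by
    rintro rfl
    rw [zero_pow I.hm0] at hz
    exact I.hf0 hz.symm
  have h1 : (I.m : ℤ) * ord P.ring z = 0 := by
    rw [← FF.ord_pow D.hL P hz0, hz, I.ord_nice hP]
  have h2 : ord P.ring z = 0 := by
    rcases mul_eq_zero.1 h1 with h3 | h3
    · exact absurd (by exact_mod_cast h3) I.hm0
    · exact h3
  have h3 : z ∈ P.ring := (ord_nonneg_iff D.hL P hz0).1 h2.ge
  have h4 := VB.isRes_rs D.hL h3
  refine ⟨h4, ?_⟩
  have h5 := h4.pow I.m
  rw [hz] at h5
  exact (VB.rs_eq h5).symm

private lemma rp_nice65 {T0 : Place k L} (hT0 : D.Nice T0) (S : Finset (Fin n))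
    {T : Fin n → Place k L} (hT : ∀ i, D.Nice (T i)) (j : Fin n) : D.Nice (rp T0 S T j) := by
  unfold rp
  split_ifs
  · exact hT0
  · exact hT j

theorem asum_step (I : Twi D) {z : L} (hz : z ^ I.m = I.f) {Ψ : (Fin n → Place k L × k × k) → k}
    (h : OJ D n Ψ) {T0 : Place k L} (hT0 : D.Nice T0) {T : Fin n → Place k L}
    (hT : ∀ i, D.Nice (T i)) {x y : Fin n → k} (hxy : ∀ i, y i ^ 2 = x i ^ 3 + I.a * x i + I.b)
    (i : Fin n) (hi : {P : Place k L | D.Nice P ∧ asum Ψ z T0 (update T i P) x y ≠ 0}.Finite) :
    asum Ψ z T0 T x y = 0 := by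
  classical
  have key : ∀ S : Finset (Fin n), ∃ F : Place k L → k, Helper51.VN.Harm D.hL F ∧
      ∀ P : Place k L, D.Nice P → F P = GT Ψ (rp T0 S (update T i P))
        (fun j => rs (rp T0 S (update T i P) j) z) x y := by
    intro S
    obtain ⟨b, hb⟩ : ∃ b : Fin n → BP k L L, ∀ j, b j = if j = i ∧ i ∉ S then
      BP.emb (AlgHom.id k L) else BP.cst (rp T0 S T j) := ⟨_, fun _ => rfl⟩
    have hbN : ∀ j, (b j).Nc D := by
      intro j P hP
      rw [hb] at hP
      split_ifs at hP with h1
      rw [BP.cst.injEq] at hP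
      rw [← hP]
      exact rp_nice65 hT0 S hT j
    have hv : ∀ j, (fun j => (b j).ev z) j ^ I.m = (b j).ev I.f := by
      intro j
      simp only [hb]
      split_ifs with h1
      · change z ^ I.m = I.f
        exact hz
      · change (algebraMap k L (rs (rp T0 S T j) z)) ^ I.m = algebraMap k L (rs (rp T0 S T j) I.f)
        rw [← map_pow, (z_res65 I hz (rp_nice65 hT0 S hT j)).2]
    obtain ⟨c, hc⟩ := exists_pts I hv hbN hxy
    obtain ⟨F, hF, hFv, -⟩ := h.harm L D.hL c
    refine ⟨F, hF, fun P hP => ?_⟩
    have hTP : ∀ j, D.Nice (update T i P j) := by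
      intro j
      by_cases hji : j = i
      · rw [hji, update_self]
        exact hP
      · rw [update_of_ne hji]
        exact hT j
    unfold GT
    apply hFv P
    intro j
    obtain ⟨hc1, hc2, hc3⟩ := hc j
    have hzj : IsRes P ((b j).ev z) (rs (rp T0 S (update T i P) j) z) ∧
        (b j).Ov P (rp T0 S (update T i P) j) := by
      rw [hb]
      split_ifs with h1
      · have e1 : rp T0 S (update T i P) j = P := by
          unfold rp
          rw [h1.1, if_neg h1.2, update_self]
        rw [e1]
        refine ⟨(z_res65 I hz hP).1, ?_⟩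
        intro f c hfc
        exact hfc
      · have e1 : rp T0 S (update T i P) j = rp T0 S T j := by
          unfold rp
          by_cases hjS : j ∈ S
          · rw [if_pos hjS, if_pos hjS]
          · rw [if_neg hjS, if_neg hjS, update_of_ne]
            rintro rfl
            exact h1 ⟨rfl, hjS⟩
        rw [e1]
        exact ⟨isRes_const _, rfl⟩
    refine ⟨rp_nice65 hT0 S hTP j, ?_, ?_, ?_⟩
    · rw [hc1]
      exact hzj.2
    · rw [hc2]
      exact (isRes_const _).mul (hzj.1.pow 2)
    · rw [hc3]
      exact (isRes_const _).mul (hzj.1.pow 3)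
  choose F hF hFv using key
  have h1 := harm_sum65 D.hL (Finset.univ : Finset (Finset (Fin n))) (fun S => (-1) ^ S.card) F
    (fun S _ => hF S)
  have h2 : ∀ P : Place k L, D.Nice P → ∑ S : Finset (Fin n), (-1) ^ S.card * F S P =
      asum Ψ z T0 (update T i P) x y := by
    intro P hP
    unfold asum
    exact Finset.sum_congr rfl fun S _ => by rw [hFv S P hP]
  have h3 := harm_app65 h1 ((finite_bad D).union hi) (fun P hP => by
    rw [Set.mem_union, not_or] at hP
    obtain ⟨hP1, hP2⟩ := hP
    have hPn : D.Nice P := not_not.1 hP1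
    rw [h2 P hPn]
    by_contra hcon
    exact hP2 ⟨hPn, hcon⟩) (T i)
  rw [h2 (T i) (hT i), update_eq_self] at h3
  exact h3

theorem asum_all (I : Twi D) {z : L} (hz : z ^ I.m = I.f) (hg : IsGenus k L g)
    {Ψ : (Fin (g + 1) → Place k L × k × k) → k} (h : OJ D (g + 1) Ψ) {T0 : Place k L}
    (hT0 : D.Nice T0) {T : Fin (g + 1) → Place k L} (hT : ∀ i, D.Nice (T i))
    {x y : Fin (g + 1) → k} (hxy : ∀ i, y i ^ 2 = x i ^ 3 + I.a * x i + I.b) :
    asum Ψ z T0 T x y = 0 := by
  classical
  obtain ⟨Δ, hΔ, hq⟩ := exists_tq D hg hT0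
  have key : ∀ i : ℕ, i ≤ g + 1 → ∀ T : Fin (g + 1) → Place k L, (∀ j, D.Nice (T j)) →
      Gnr Δ i T → (∀ j l : Fin (g + 1), i ≤ j → i ≤ l → T j = T l → j = l) →
      (∀ j : Fin (g + 1), i ≤ j → T j ≠ T0) → asum Ψ z T0 T x y = 0 := by
    intro i
    induction i with
    | zero =>
      intro _ T hT hG hinj hne
      have hinj' : Injective T := fun j l hjl => hinj j l (Nat.zero_le _) (Nat.zero_le _) hjl
      obtain ⟨q, q1, q2, q3, q4, q5⟩ := hq T hG hinj' (fun j => hne j (Nat.zero_le _)) hT
      exact asum_pencil I hz h hT0 hT hinj' q1 q2 q3 q4 q5 hxy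
    | succ i ih =>
      intro hi T hT hG hinj hne
      obtain ⟨i', hi'⟩ : ∃ i' : Fin (g + 1), (i' : ℕ) = i := ⟨⟨i, by omega⟩, rfl⟩
      apply asum_step I hz h hT0 hT hxy i'
      have hfin := gnr_step' (n := g + 1) D.hL hg (Δ := Δ) (fun X hX => by
        rw [hΔ X hX]
        push_cast
        linarith) (T := T) i' (by rw [hi']; exact hG)
      refine ((hfin.union (Set.finite_singleton T0)).union (Set.finite_range T)).subset ?_
      rintro P ⟨hP1, hP2⟩
      by_contra hcon
      rw [Set.mem_union, Set.mem_union, not_or, not_or] at hcon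
      obtain ⟨⟨c1, c2⟩, c3⟩ := hcon
      apply hP2
      have c1' : Gnr Δ i (update T i' P) := by
        rw [← hi']
        exact not_not.1 c1
      have hle : ∀ j : Fin (g + 1), i ≤ j → j ≠ i' → i + 1 ≤ j := by
        intro j hj hji
        have h1 : (j : ℕ) ≠ i := fun h0 => hji (Fin.ext (by rw [h0, hi']))
        omega
      apply ih (by omega)
      · intro j
        by_cases hji : j = i'
        · rw [hji, update_self]
          exact hP1
        · rw [update_of_ne hji]
          exact hT j
      · exact c1'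
      · intro j l hj hl hjl
        by_cases hji : j = i'
        · by_cases hli : l = i'
          · rw [hji, hli]
          · rw [hji, update_self, update_of_ne hli] at hjl
            exact absurd ⟨l, hjl.symm⟩ c3
        · by_cases hli : l = i'
          · rw [hli, update_self, update_of_ne hji] at hjl
            exact absurd ⟨j, hjl⟩ c3
          · rw [update_of_ne hji, update_of_ne hli] at hjl
            exact hinj j l (hle j hj hji) (hle l hl hli) hjl
      · intro j hj
        by_cases hji : j = i'
        · rw [hji, update_self]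
          exact c2
        · rw [update_of_ne hji]
          exact hne j (hle j hj hji)
  apply key (g + 1) le_rfl T hT
  · exact gnr_top' D.hL (fun X hX => by rw [hΔ X hX]; norm_num) T
  · intro j l hj
    have := j.2
    omega
  · intro j hj
    have := j.2
    omega

end Pool.Agent.Helper51.IZ
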