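import Mathlib
import Pool.Agent.Helper51.IZ.Tza
import Pool.Agent.Helper51.IZ.Fix
import Pool.Agent.Helper51.IZ.Main

/-!
# The second theorem of project IZ: `E` is principal

Then the elliptic surface is the product of a constant elliptic curve and the base curve, of genus `g`. The
alternating sum over the replacements of the points of the base curve by a fixed point vanishes in
`n ≥ g + 1` variables.
-/

set_option linter.unusedSectionVars false

namespace Pool.Agent.Helper51.IZ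

open VC VF Function
open Pool.Agent.Helper51.VB (rs BP Ell OJ KPt isRes_rs)
open Pool.Agent.Helper51.IS (Twi GT)
open Pool.Agent.Helper51.VN (Harm OnE)

universe u

variable {k L : Type u} [Field k] [IsAlgClosed k] [CharZero k] [Field L] [Algebra k L]

/-- Constants are `m`-th powers. -/
private lemma exists_root {D : Ell k L} (I : Twi D) (hN : D.N = 0) {u : L} (hu : u ≠ 0)
    (hE : ∀ P : Place k L, ord P.ring u = D.E P) :
    ∃ (z : L) (c : k), c ≠ 0 ∧ z * u = algebraMap k L c ∧ z ^ I.m = I.f := by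
  have hL := D.hL
  have h1 : I.f * u ^ I.m ≠ 0 := mul_ne_zero I.hf0 (pow_ne_zero _ hu)
  have h2 : ∀ P : Place k L, 0 ≤ ord P.ring (I.f * u ^ I.m) := by
    intro P
    rw [FF.ord_mul hL P I.hf0 (pow_ne_zero _ hu), FF.ord_pow hL P hu, ord_f I hN, hE P]
    omega
  obtain ⟨c, hc⟩ := FF.exists_const_of_dv_eq_zero hL h2
  have hc0 : c ≠ 0 := by
    rintro rfl
    rw [map_zero] at hc
    exact h1 hc.symm
  obtain ⟨c₁, hc₁⟩ := IsAlgClosed.exists_pow_nat_eq c (Nat.pos_of_ne_zero I.hm0)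
  have hc₁0 : c₁ ≠ 0 := by
    rintro rfl
    rw [zero_pow I.hm0] at hc₁
    exact hc0 hc₁.symm
  refine ⟨algebraMap k L c₁ / u, c₁, hc₁0, div_mul_cancel₀ _ hu, ?_⟩
  rw [div_pow, ← map_pow, hc₁, hc, mul_div_assoc, div_self (pow_ne_zero _ hu), mul_one]

private lemma coef51 {D : Ell k L} (I : Twi D) {P : Place k L} (hP : D.Nice P) {v : k}
    (hv : v ^ I.m = rs P I.f) :
    -3 * D.a₀ P = I.a * v ^ 4 ∧ -2 * D.b₀ P = I.b * v ^ 6 := by
  have hf : IsRes P I.f (v ^ I.m) := by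
    have h1 : I.f ∈ P.ring := (FF.ord_nonneg_iff D.hL P I.hf0).mp (I.ord_nice hP).ge
    rw [hv]
    exact isRes_rs D.hL h1
  have ha : IsRes P D.al (D.a₀ P) := isRes_rs D.hL hP.1
  have hb : IsRes P D.be (D.b₀ P) := isRes_rs D.hL hP.2.1
  have e3 : IsRes P (-3 : L) (-3) := by
    have := isRes_const (v := P) (-3 : k)
    rwa [map_neg, map_ofNat] at this
  have e2 : IsRes P (-2 : L) (-2) := by
    have := isRes_const (v := P) (-2 : k)
    rwa [map_neg, map_ofNat] at this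
  constructor
  · have h1 := e3.mul ha
    rw [I.hal] at h1
    have h2 := (isRes_const (v := P) I.a).mul (hf.pow I.e4)
    rw [h1.unique h2, ← pow_mul]
    rcases I.h4 with h | h
    · rw [h, zero_mul, zero_mul]
    · rw [h]
  · have h1 := e2.mul hb
    rw [I.hbe] at h1
    have h2 := (isRes_const (v := P) I.b).mul (hf.pow I.e6)
    rw [h1.unique h2, ← pow_mul]
    rcases I.h6 with h | h
    · rw [h, zero_mul, zero_mul]
    · rw [h]

private lemma curve51 {D : Ell k L} (I : Twi D) {P : Place k L} (hP : D.Nice P) {v : k}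
    (hv : v ^ I.m = rs P I.f) (hv0 : v ≠ 0) {x y : k}
    (h : OnE (D.a₀ P) (D.b₀ P) (x * v ^ 2) (y * v ^ 3)) : y ^ 2 = x ^ 3 + I.a * x + I.b := by
  obtain ⟨h2, h3⟩ := coef51 I hP hv
  unfold OnE at h
  have h4 : (y ^ 2 - (x ^ 3 + I.a * x + I.b)) * v ^ 6 = 0 := by
    linear_combination h + (x * v ^ 2) * h2 + h3
  exact sub_eq_zero.mp ((mul_eq_zero.mp h4).resolve_right (pow_ne_zero 6 hv0))

/-- Subsets of `Fin (a + r)`. -/
private lemma sum_subsets {a r : ℕ} (F : Finset (Fin (a + r)) → k) :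
    ∑ S : Finset (Fin (a + r)), (-1) ^ S.card * F S =
      ∑ S₂ : Finset (Fin r), (-1) ^ S₂.card * ∑ S₁ : Finset (Fin a), (-1) ^ S₁.card *
        F ((S₁.disjSum S₂).map finSumFinEquiv.toEmbedding) := by
  classical
  let e : Finset (Fin r) × Finset (Fin a) ≃ Finset (Fin (a + r)) :=
    ((Equiv.prodComm _ _).trans (Finset.sumEquiv (α := Fin a) (β := Fin r)).toEquiv.symm).trans
      (Equiv.finsetCongr finSumFinEquiv)
  rw [← Equiv.sum_comp e, Fintype.sum_prod_type]
  refine Finset.sum_congr rfl fun S₂ _ => ?_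
  rw [Finset.mul_sum]
  refine Finset.sum_congr rfl fun S₁ _ => ?_
  have he : e (S₂, S₁) = (S₁.disjSum S₂).map finSumFinEquiv.toEmbedding := rfl
  rw [he, Finset.card_map, Finset.card_disjSum, pow_add]
  ring

open Classical in
/-- A functional in `n ≥ g + 1` variables on the product of a constant elliptic curve and the base. -/
theorem iz_triv (D : Ell k L) (hN : D.N = 0) {u : L} (hu : u ≠ 0)
    (hE : ∀ P : Place k L, ord P.ring u = D.E P) {g n : ℕ} (hg : IsGenus k L g) (hn : g + 1 ≤ n)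
    {Ψ : (Fin n → Place k L × k × k) → k} (h : OJ D n Ψ) {T0 : Place k L} (hT0 : D.Nice T0)
    (p : Fin n → Place k L × k × k)
    (hp : ∀ i, D.Nice (p i).1 ∧ OnE (D.a₀ (p i).1) (D.b₀ (p i).1) (p i).2.1 (p i).2.2) :
    ∑ S : Finset (Fin n), (-1) ^ S.card * Ψ (fun i => if i ∈ S then
      (T0, (rs (p i).1 u / rs T0 u) ^ 2 * (p i).2.1, (rs (p i).1 u / rs T0 u) ^ 3 * (p i).2.2)
      else p i) = 0 := by
  have hL := D.hL
  obtain ⟨c, hc⟩ := exists_const_j hN
  obtain ⟨I⟩ := IS.exists_twi D hc (fun h1 => by omega)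
  obtain ⟨z, c₁, hc₁, hzu, hz⟩ := exists_root I hN hu hE
  have hz0 : z ≠ 0 := by
    rintro rfl
    rw [zero_pow I.hm0] at hz
    exact I.hf0 hz.symm
  -- values of `z` and `u` at nice places
  have hval : ∀ P : Place k L, D.Nice P → rs P z ≠ 0 ∧ rs P u ≠ 0 ∧ rs P z * rs P u = c₁ ∧
      rs P z ^ I.m = rs P I.f := by
    intro P hP
    have h1 : ord P.ring I.f = 0 := I.ord_nice hP
    have h2 : ord P.ring u = 0 := by
      rw [hE P]
      exact D.nice P hP.1 hP.2.1 hP.2.2.1 hP.2.2.2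
    have h3 : ord P.ring z = 0 := by
      rw [← hz, FF.ord_pow hL P hz0] at h1
      exact (mul_eq_zero.mp h1).resolve_left (by exact_mod_cast I.hm0)
    have h4 := rs_ne_zero hL hz0 h3
    have h5 := rs_ne_zero hL hu h2
    have h6 := isRes_rs hL (VB.mem_of_rs h4)
    have h7 := isRes_rs hL (VB.mem_of_rs h5)
    refine ⟨h4, h5, ?_, ?_⟩
    · have h8 := h6.mul h7
      rw [hzu] at h8
      exact h8.unique (isRes_const c₁)
    · have h8 := h6.pow I.m
      rw [hz] at h8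
      exact (VB.rs_eq h8).symm
  obtain ⟨hz1, hu1, hzu1, -⟩ := hval T0 hT0
  -- the parameters
  obtain ⟨x, hx⟩ : ∃ x : Fin n → k, ∀ i, x i * rs (p i).1 z ^ 2 = (p i).2.1 :=
    ⟨fun i => (p i).2.1 / rs (p i).1 z ^ 2, fun i =>
      div_mul_cancel₀ _ (pow_ne_zero 2 (hval _ (hp i).1).1)⟩
  obtain ⟨y, hy⟩ : ∃ y : Fin n → k, ∀ i, y i * rs (p i).1 z ^ 3 = (p i).2.2 :=
    ⟨fun i => (p i).2.2 / rs (p i).1 z ^ 3, fun i =>
      div_mul_cancel₀ _ (pow_ne_zero 3 (hval _ (hp i).1).1)⟩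
  have hxy : ∀ i, y i ^ 2 = x i ^ 3 + I.a * x i + I.b := by
    intro i
    obtain ⟨h1, -, -, h2⟩ := hval _ (hp i).1
    refine curve51 I (hp i).1 h2 h1 ?_
    rw [hx i, hy i]
    exact (hp i).2
  -- the moved points
  have hmv : ∀ i, (rs (p i).1 u / rs T0 u) ^ 2 * (p i).2.1 = x i * rs T0 z ^ 2 ∧
      (rs (p i).1 u / rs T0 u) ^ 3 * (p i).2.2 = y i * rs T0 z ^ 3 := by
    intro i
    obtain ⟨h1, h2, h3, -⟩ := hval _ (hp i).1
    have h4 : rs (p i).1 u / rs T0 u = rs T0 z / rs (p i).1 z := by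
      rw [div_eq_div_iff hu1 h1]
      linear_combination h3 - hzu1
    rw [h4, ← hx i, ← hy i]
    constructor <;> field_simp
  have hq : ∀ (S : Finset (Fin n)), (fun i => if i ∈ S then
      (T0, (rs (p i).1 u / rs T0 u) ^ 2 * (p i).2.1, (rs (p i).1 u / rs T0 u) ^ 3 * (p i).2.2)
      else p i) = fun i => ((if i ∈ S then T0 else (p i).1),
        x i * rs (if i ∈ S then T0 else (p i).1) z ^ 2,
        y i * rs (if i ∈ S then T0 else (p i).1) z ^ 3) := by
    intro S
    funext i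
    by_cases hi : i ∈ S
    · rw [if_pos hi, if_pos hi, (hmv i).1, (hmv i).2]
    · rw [if_neg hi, if_neg hi, hx i, hy i]
  simp only [hq]
  clear hq hmv
  obtain ⟨r, rfl⟩ : ∃ r, n = (g + 1) + r := ⟨n - (g + 1), by omega⟩
  rw [sum_subsets]
  refine Finset.sum_eq_zero fun S₂ _ => ?_
  -- the fixed points
  obtain ⟨p₂, hp₂⟩ : ∃ p₂ : Fin r → Place k L × k × k, p₂ = fun j =>
      ((if j ∈ S₂ then T0 else (p (Fin.natAdd (g + 1) j)).1),
        x (Fin.natAdd (g + 1) j) * rs (if j ∈ S₂ then T0 else (p (Fin.natAdd (g + 1) j)).1) z ^ 2,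
        y (Fin.natAdd (g + 1) j) * rs (if j ∈ S₂ then T0 else (p (Fin.natAdd (g + 1) j)).1) z ^ 3) :=
    ⟨_, rfl⟩
  have hn₂ : ∀ j, D.Nice (p₂ j).1 := by
    intro j
    rw [hp₂]
    by_cases hj : j ∈ S₂
    · simp only [if_pos hj]
      exact hT0
    · simp only [if_neg hj]
      exact (hp _).1
  have h2 := oj_fix h p₂ (fun j => ⟨hn₂ j, by
    have h3 := IS.onE_tw I (hn₂ j) (hval _ (hn₂ j)).2.2.2 (hxy (Fin.natAdd (g + 1) j))
    rw [hp₂] at h3 ⊢
    exact h3⟩)
  have h3 := asum_all I hz hg h2 hT0 (T := fun i => (p (Fin.castAdd r i)).1)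
    (fun i => (hp _).1) (x := fun i => x (Fin.castAdd r i)) (y := fun i => y (Fin.castAdd r i))
    (fun i => hxy _)
  unfold asum GT at h3
  rw [mul_eq_zero]
  right
  rw [← h3]
  refine Finset.sum_congr rfl fun S₁ _ => ?_
  congr 2
  funext i
  refine Fin.addCases (fun i => ?_) (fun j => ?_) i
  · rw [Fin.append_left]
    have e : Fin.castAdd r i ∈ (S₁.disjSum S₂).map finSumFinEquiv.toEmbedding ↔ i ∈ S₁ := by
      rw [← finSumFinEquiv_apply_left, Finset.mem_map_equiv]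
      simp
    simp only [e, rp]
  · rw [Fin.append_right, hp₂]
    have e : Fin.natAdd (g + 1) j ∈ (S₁.disjSum S₂).map finSumFinEquiv.toEmbedding ↔ j ∈ S₂ := by
      rw [← finSumFinEquiv_apply_right, Finset.mem_map_equiv]
      simp
    simp only [e]

end Pool.Agent.Helper51.IZ
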